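import Pool.Agent.Gen.F5.X123D1Cm4.S000
import Pool.Agent.Gen.F5.X123D1Cm4.S001
import Pool.Agent.Gen.F5.X123D1Cm4.S002

set_option autoImplicit false
set_option maxRecDepth 100000

namespace Pool.Agent.Gen.F5.X123D1Cm4

open Pool.Agent.Helper72.F5

def n0 : Cl (O (nat_lit 4)) (R (nat_lit 6353))
    (p (nat_lit 0x109) (nat_lit 0) (p (nat_lit 0x10a0b09890a9a) (nat_lit 0) (p (nat_lit 0x1098a8908881a) (nat_lit 0) (p (nat_lit 0x2a8258000000000090888098a) (nat_lit 0) (p (nat_lit 0x2a8258000000000088807870a) (nat_lit 0) (p (nat_lit 0xb000c) (nat_lit 1) (p (nat_lit 0xb0004) (nat_lit 0) (p (nat_lit 0x119) (nat_lit 0) (p (nat_lit 0x200014) (nat_lit 0) (p (nat_lit 0xc1) (nat_lit 0) (p (nat_lit 0x81) (nat_lit 1) (p (nat_lit 0x101) (nat_lit 1) (p (nat_lit 0x111) (nat_lit 0) (p (nat_lit 0xd1) (nat_lit 1) (p (nat_lit 0x89) (nat_lit 0) (p (nat_lit 0x41) (nat_lit 0) (p (nat_lit 0x108090787089a) (nat_lit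 0) (p (nat_lit 0x107888706861a) (nat_lit 0) (p (nat_lit 0x8000000000000070686078a) (nat_lit 0) (p (nat_lit 0x8000000000000068605850a) (nat_lit 0) (p (nat_lit 0x10705850682) (nat_lit 0) (p (nat_lit 0x10685048402) (nat_lit 0) (p (nat_lit 0x16000c) (nat_lit 0) (p (nat_lit 0x160004) (nat_lit 0) (p (nat_lit 0x60592) (nat_lit 0) (p (nat_lit 0x48512) (nat_lit 0) (p (nat_lit 0x50392) (nat_lit 0) (p (nat_lit 0x38312) (nat_lit 0) (p (nat_lit 0x40212) (nat_lit 0) (p (nat_lit 0x28192) (nat_lit 0) (p (nat_lit 0x30092) (nat_lit 0) (p (nat_lit 0x18012) (nat_lit 0) pn)))))))))))))))))))))))))))))))) :=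
  Cl.node (nat_lit 0x101) (nat_lit 2) (by decide +kernel) (ClAll.succ (ClAll.succ ClAll.zero s44) s45)

def n1 : Cl (O (nat_lit 4)) (R (nat_lit 6353))
    (p (nat_lit 0x109) (nat_lit 1) (p (nat_lit 0x10a0b09890a9a) (nat_lit 0) (p (nat_lit 0x1098a8908881a) (nat_lit 0) (p (nat_lit 0x2a8258000000000090888098a) (nat_lit 0) (p (nat_lit 0x2a8258000000000088807870a) (nat_lit 0) (p (nat_lit 0xb000c) (nat_lit 1) (p (nat_lit 0xb0004) (nat_lit 0) (p (nat_lit 0x200014) (nat_lit 0) (p (nat_lit 0xc9) (nat_lit 1) (p (nat_lit 0x89) (nat_lit 1) (p (nat_lit 0xc1) (nat_lit 0) (p (nat_lit 0x101) (nat_lit 1) (p (nat_lit 0x119) (nat_lit 0) (p (nat_lit 0xd1) (nat_lit 0) (p (nat_lit 0x81) (nat_lit 0) (p (nat_lit 0x41) (nat_lit 1) (p (nat_lit 0x108090787089a) (nat_lit 0) (p (nat_lit 0x107888706861a) (nat_lit 0) (p (nat_lit 0x8000000000000070686078a) (nat_lit 0) (p (nat_lit 0x8000000000000068605850a) (nat_lit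 0) (p (nat_lit 0x10705850682) (nat_lit 0) (p (nat_lit 0x10685048402) (nat_lit 0) (p (nat_lit 0x16000c) (nat_lit 0) (p (nat_lit 0x160004) (nat_lit 0) (p (nat_lit 0x60592) (nat_lit 0) (p (nat_lit 0x48512) (nat_lit 0) (p (nat_lit 0x50392) (nat_lit 0) (p (nat_lit 0x38312) (nat_lit 0) (p (nat_lit 0x40212) (nat_lit 0) (p (nat_lit 0x28192) (nat_lit 0) (p (nat_lit 0x30092) (nat_lit 0) (p (nat_lit 0x18012) (nat_lit 0) pn)))))))))))))))))))))))))))))))) :=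
  Cl.node (nat_lit 0x41) (nat_lit 2) (by decide +kernel) (ClAll.succ (ClAll.succ ClAll.zero s93) s94)

def n2 : Cl (O (nat_lit 4)) (R (nat_lit 6353))
    (p (nat_lit 0x10a0b09890a9a) (nat_lit 0) (p (nat_lit 0x1098a8908881a) (nat_lit 0) (p (nat_lit 0x2a8258000000000090888098a) (nat_lit 0) (p (nat_lit 0x2a8258000000000088807870a) (nat_lit 0) (p (nat_lit 0xb000c) (nat_lit 1) (p (nat_lit 0xb0004) (nat_lit 0) (p (nat_lit 0x119) (nat_lit 0) (p (nat_lit 0x200014) (nat_lit 0) (p (nat_lit 0xc9) (nat_lit 0) (p (nat_lit 0x89) (nat_lit 1) (p (nat_lit 0x109) (nat_lit 1) (p (nat_lit 0x101) (nat_lit 0) (p (nat_lit 0x111) (nat_lit 0) (p (nat_lit 0xd1) (nat_lit 1) (p (nat_lit 0x81) (nat_lit 0) (p (nat_lit 0x41) (nat_lit 1) (p (nat_lit 0x108090787089a) (nat_lit 0) (p (nat_lit 0x107888706861a) (nat_lit 0) (p (nat_lit 0x8000000000000070686078a) (nat_lit 0) (p (nat_lit 0x8000000000000068605850a) (nat_lit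 0) (p (nat_lit 0x10705850682) (nat_lit 0) (p (nat_lit 0x10685048402) (nat_lit 0) (p (nat_lit 0x16000c) (nat_lit 0) (p (nat_lit 0x160004) (nat_lit 0) (p (nat_lit 0x60592) (nat_lit 0) (p (nat_lit 0x48512) (nat_lit 0) (p (nat_lit 0x50392) (nat_lit 0) (p (nat_lit 0x38312) (nat_lit 0) (p (nat_lit 0x40212) (nat_lit 0) (p (nat_lit 0x28192) (nat_lit 0) (p (nat_lit 0x30092) (nat_lit 0) (p (nat_lit 0x18012) (nat_lit 0) pn)))))))))))))))))))))))))))))))) :=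
  Cl.node (nat_lit 0x41) (nat_lit 2) (by decide +kernel) (ClAll.succ (ClAll.succ ClAll.zero s133) s134)

def n3 : Cl (O (nat_lit 4)) (R (nat_lit 6353))
    (p (nat_lit 0x10a0b09890a9a) (nat_lit 0) (p (nat_lit 0x1098a8908881a) (nat_lit 0) (p (nat_lit 0x2a8258000000000090888098a) (nat_lit 0) (p (nat_lit 0x2a8258000000000088807870a) (nat_lit 0) (p (nat_lit 0xb000c) (nat_lit 1) (p (nat_lit 0xb0004) (nat_lit 0) (p (nat_lit 0x111) (nat_lit 0) (p (nat_lit 0x200014) (nat_lit 0) (p (nat_lit 0xc9) (nat_lit 1) (p (nat_lit 0x81) (nat_lit 0) (p (nat_lit 0x101) (nat_lit 1) (p (nat_lit 0x119) (nat_lit 0) (p (nat_lit 0xd1) (nat_lit 0) (p (nat_lit 0x89) (nat_lit 0) (p (nat_lit 0x41) (nat_lit 0) (p (nat_lit 0x108090787089a) (nat_lit 0) (p (nat_lit 0x107888706861a) (nat_lit 0) (p (nat_lit 0x8000000000000070686078a) (nat_lit 0) (p (nat_lit 0x8000000000000068605850a) (nat_lit 0) (p (nat_lit 0x10705850682)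 (nat_lit 0) (p (nat_lit 0x10685048402) (nat_lit 0) (p (nat_lit 0x16000c) (nat_lit 0) (p (nat_lit 0x160004) (nat_lit 0) (p (nat_lit 0x60592) (nat_lit 0) (p (nat_lit 0x48512) (nat_lit 0) (p (nat_lit 0x50392) (nat_lit 0) (p (nat_lit 0x38312) (nat_lit 0) (p (nat_lit 0x40212) (nat_lit 0) (p (nat_lit 0x28192) (nat_lit 0) (p (nat_lit 0x30092) (nat_lit 0) (p (nat_lit 0x18012) (nat_lit 0) pn))))))))))))))))))))))))))))))) :=
  Cl.node (nat_lit 0x109) (nat_lit 2) (by decide +kernel) (ClAll.succ (ClAll.succ ClAll.zero s7) s8)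

def n4 : Cl (O (nat_lit 4)) (R (nat_lit 6353))
    (p (nat_lit 0x10a0b09890a9a) (nat_lit 0) (p (nat_lit 0x1098a8908881a) (nat_lit 0) (p (nat_lit 0x2a8258000000000090888098a) (nat_lit 0) (p (nat_lit 0x2a8258000000000088807870a) (nat_lit 0) (p (nat_lit 0xb000c) (nat_lit 1) (p (nat_lit 0xb0004) (nat_lit 0) (p (nat_lit 0x119) (nat_lit 0) (p (nat_lit 0x200014) (nat_lit 0) (p (nat_lit 0xc1) (nat_lit 0) (p (nat_lit 0x81) (nat_lit 1) (p (nat_lit 0x101) (nat_lit 1) (p (nat_lit 0x111) (nat_lit 0) (p (nat_lit 0xd1) (nat_lit 1) (p (nat_lit 0x89) (nat_lit 0) (p (nat_lit 0x41) (nat_lit 0) (p (nat_lit 0x108090787089a) (nat_lit 0) (p (nat_lit 0x107888706861a) (nat_lit 0) (p (nat_lit 0x8000000000000070686078a) (nat_lit 0) (p (nat_lit 0x8000000000000068605850a) (nat_lit 0) (p (nat_lit 0x10705850682) (nat_lit 0) (p (nat_lit 0x10685048402) (nat_lit 0) (p (nat_lit 0x16000c) (nat_lit 0) (p (nat_lit 0x160004)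 (nat_lit 0) (p (nat_lit 0x60592) (nat_lit 0) (p (nat_lit 0x48512) (nat_lit 0) (p (nat_lit 0x50392) (nat_lit 0) (p (nat_lit 0x38312) (nat_lit 0) (p (nat_lit 0x40212) (nat_lit 0) (p (nat_lit 0x28192) (nat_lit 0) (p (nat_lit 0x30092) (nat_lit 0) (p (nat_lit 0x18012) (nat_lit 0) pn))))))))))))))))))))))))))))))) :=
  Cl.node (nat_lit 0x109) (nat_lit 2) (by decide +kernel) (ClAll.succ (ClAll.succ ClAll.zero n0) s46)

def n5 : Cl (O (nat_lit 4)) (R (nat_lit 6353))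
    (p (nat_lit 0x10a0b09890a9a) (nat_lit 0) (p (nat_lit 0x1098a8908881a) (nat_lit 0) (p (nat_lit 0x2a8258000000000090888098a) (nat_lit 0) (p (nat_lit 0x2a8258000000000088807870a) (nat_lit 0) (p (nat_lit 0xb000c) (nat_lit 1) (p (nat_lit 0xb0004) (nat_lit 0) (p (nat_lit 0x200014) (nat_lit 0) (p (nat_lit 0xc9) (nat_lit 1) (p (nat_lit 0x89) (nat_lit 1) (p (nat_lit 0xc1) (nat_lit 0) (p (nat_lit 0x101) (nat_lit 1) (p (nat_lit 0x119) (nat_lit 0) (p (nat_lit 0xd1) (nat_lit 0) (p (nat_lit 0x81) (nat_lit 0) (p (nat_lit 0x41) (nat_lit 1) (p (nat_lit 0x108090787089a) (nat_lit 0) (p (nat_lit 0x107888706861a) (nat_lit 0) (p (nat_lit 0x8000000000000070686078a) (nat_lit 0) (p (nat_lit 0x8000000000000068605850a) (nat_lit 0) (p (nat_lit 0x10705850682) (nat_lit 0) (p (nat_lit 0x10685048402) (nat_lit 0) (p (nat_lit 0x16000c) (nat_lit 0) (p (nat_lit 0x160004) (nat_lit 0) (p (nat_lit 0x60592) (nat_lit 0)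 (p (nat_lit 0x48512) (nat_lit 0) (p (nat_lit 0x50392) (nat_lit 0) (p (nat_lit 0x38312) (nat_lit 0) (p (nat_lit 0x40212) (nat_lit 0) (p (nat_lit 0x28192) (nat_lit 0) (p (nat_lit 0x30092) (nat_lit 0) (p (nat_lit 0x18012) (nat_lit 0) pn))))))))))))))))))))))))))))))) :=
  Cl.node (nat_lit 0x109) (nat_lit 2) (by decide +kernel) (ClAll.succ (ClAll.succ ClAll.zero s92) n1)

def n6 : Cl (O (nat_lit 4)) (R (nat_lit 6353))
    (p (nat_lit 0x109) (nat_lit 1) (p (nat_lit 0x10a0b09890a9a) (nat_lit 0) (p (nat_lit 0x1098a8908881a) (nat_lit 0) (p (nat_lit 0x2a8258000000000090888098a) (nat_lit 0) (p (nat_lit 0x2a8258000000000088807870a) (nat_lit 0) (p (nat_lit 0xb000c) (nat_lit 1) (p (nat_lit 0xb0004) (nat_lit 0) (p (nat_lit 0x200014) (nat_lit 0) (p (nat_lit 0x89) (nat_lit 1) (p (nat_lit 0xc1) (nat_lit 1) (p (nat_lit 0x101) (nat_lit 1) (p (nat_lit 0x119) (nat_lit 0) (p (nat_lit 0xd1) (nat_lit 0) (p (nat_lit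 0x81) (nat_lit 0) (p (nat_lit 0x41) (nat_lit 1) (p (nat_lit 0x108090787089a) (nat_lit 0) (p (nat_lit 0x107888706861a) (nat_lit 0) (p (nat_lit 0x8000000000000070686078a) (nat_lit 0) (p (nat_lit 0x8000000000000068605850a) (nat_lit 0) (p (nat_lit 0x10705850682) (nat_lit 0) (p (nat_lit 0x10685048402) (nat_lit 0) (p (nat_lit 0x16000c) (nat_lit 0) (p (nat_lit 0x160004) (nat_lit 0) (p (nat_lit 0x60592) (nat_lit 0) (p (nat_lit 0x48512) (nat_lit 0) (p (nat_lit 0x50392) (nat_lit 0) (p (nat_lit 0x38312) (nat_lit 0) (p (nat_lit 0x40212) (nat_lit 0) (p (nat_lit 0x28192) (nat_lit 0) (p (nat_lit 0x30092) (nat_lit 0) (p (nat_lit 0x18012) (nat_lit 0) pn))))))))))))))))))))))))))))))) :=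
  Cl.node (nat_lit 0x41) (nat_lit 2) (by decide +kernel) (ClAll.succ (ClAll.succ ClAll.zero s101) s102)

def n7 : Cl (O (nat_lit 4)) (R (nat_lit 6353))
    (p (nat_lit 0x10a0b09890a9a) (nat_lit 0) (p (nat_lit 0x1098a8908881a) (nat_lit 0) (p (nat_lit 0x2a8258000000000090888098a) (nat_lit 0) (p (nat_lit 0x2a8258000000000088807870a) (nat_lit 0) (p (nat_lit 0xb000c) (nat_lit 1) (p (nat_lit 0xb0004) (nat_lit 0) (p (nat_lit 0x200014) (nat_lit 0) (p (nat_lit 0x109) (nat_lit 1) (p (nat_lit 0x89) (nat_lit 1) (p (nat_lit 0xc9) (nat_lit 1) (p (nat_lit 0xc1) (nat_lit 0) (p (nat_lit 0x119) (nat_lit 1) (p (nat_lit 0xd1) (nat_lit 0) (p (nat_lit 0x81) (nat_lit 0) (p (nat_lit 0x41) (nat_lit 1) (p (nat_lit 0x108090787089a) (nat_lit 0) (p (nat_lit 0x107888706861a) (nat_lit 0) (p (nat_lit 0x8000000000000070686078a) (nat_lit 0) (p (nat_lit 0x8000000000000068605850a) (nat_lit 0) (p (nat_lit 0x10705850682)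 (nat_lit 0) (p (nat_lit 0x10685048402) (nat_lit 0) (p (nat_lit 0x16000c) (nat_lit 0) (p (nat_lit 0x160004) (nat_lit 0) (p (nat_lit 0x60592) (nat_lit 0) (p (nat_lit 0x48512) (nat_lit 0) (p (nat_lit 0x50392) (nat_lit 0) (p (nat_lit 0x38312) (nat_lit 0) (p (nat_lit 0x40212) (nat_lit 0) (p (nat_lit 0x28192) (nat_lit 0) (p (nat_lit 0x30092) (nat_lit 0) (p (nat_lit 0x18012) (nat_lit 0) pn))))))))))))))))))))))))))))))) :=
  Cl.node (nat_lit 0x41) (nat_lit 2) (by decide +kernel) (ClAll.succ (ClAll.succ ClAll.zero s110) s111)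

def n8 : Cl (O (nat_lit 4)) (R (nat_lit 6353))
    (p (nat_lit 0x10a0b09890a9a) (nat_lit 0) (p (nat_lit 0x1098a8908881a) (nat_lit 0) (p (nat_lit 0x2a8258000000000090888098a) (nat_lit 0) (p (nat_lit 0x2a8258000000000088807870a) (nat_lit 0) (p (nat_lit 0xb000c) (nat_lit 1) (p (nat_lit 0xb0004) (nat_lit 0) (p (nat_lit 0x200014) (nat_lit 0) (p (nat_lit 0x109) (nat_lit 1) (p (nat_lit 0x89) (nat_lit 1) (p (nat_lit 0x101) (nat_lit 0) (p (nat_lit 0xc1) (nat_lit 1) (p (nat_lit 0x119) (nat_lit 1) (p (nat_lit 0xd1) (nat_lit 0) (p (nat_lit 0x81) (nat_lit 0) (p (nat_lit 0x41) (nat_lit 1) (p (nat_lit 0x108090787089a) (nat_lit 0) (p (nat_lit 0x107888706861a) (nat_lit 0) (p (nat_lit 0x8000000000000070686078a) (nat_lit 0) (p (nat_lit 0x8000000000000068605850a) (nat_lit 0) (p (nat_lit 0x10705850682) (nat_lit 0) (p (nat_lit 0x10685048402) (nat_lit 0) (p (nat_lit 0x16000c) (nat_lit 0) (p (nat_lit 0x160004)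 (nat_lit 0) (p (nat_lit 0x60592) (nat_lit 0) (p (nat_lit 0x48512) (nat_lit 0) (p (nat_lit 0x50392) (nat_lit 0) (p (nat_lit 0x38312) (nat_lit 0) (p (nat_lit 0x40212) (nat_lit 0) (p (nat_lit 0x28192) (nat_lit 0) (p (nat_lit 0x30092) (nat_lit 0) (p (nat_lit 0x18012) (nat_lit 0) pn))))))))))))))))))))))))))))))) :=
  Cl.node (nat_lit 0xc9) (nat_lit 2) (by decide +kernel) (ClAll.succ (ClAll.succ ClAll.zero s118) s119)

def n9 : Cl (O (nat_lit 4)) (R (nat_lit 6353))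
    (p (nat_lit 0xc9) (nat_lit 1) (p (nat_lit 0x10a0b09890a9a) (nat_lit 0) (p (nat_lit 0x1098a8908881a) (nat_lit 0) (p (nat_lit 0x2a8258000000000090888098a) (nat_lit 0) (p (nat_lit 0x2a8258000000000088807870a) (nat_lit 0) (p (nat_lit 0xb000c) (nat_lit 1) (p (nat_lit 0xb0004) (nat_lit 0) (p (nat_lit 0x200014) (nat_lit 0) (p (nat_lit 0x89) (nat_lit 1) (p (nat_lit 0x101) (nat_lit 1) (p (nat_lit 0xc1) (nat_lit 1) (p (nat_lit 0x119) (nat_lit 1) (p (nat_lit 0xd1) (nat_lit 0) (p (nat_lit 0x81) (nat_lit 0) (p (nat_lit 0x41) (nat_lit 1) (p (nat_lit 0x108090787089a) (nat_lit 0) (p (nat_lit 0x107888706861a) (nat_lit 0) (p (nat_lit 0x8000000000000070686078a) (nat_lit 0) (p (nat_lit 0x8000000000000068605850a) (nat_lit 0) (p (nat_lit 0x10705850682) (nat_lit 0) (p (nat_lit 0x10685048402) (nat_lit 0) (p (nat_lit 0x16000c) (nat_lit 0) (p (nat_lit 0x160004) (nat_lit 0) (p (nat_lit 0x60592) (nat_lit 0)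 (p (nat_lit 0x48512) (nat_lit 0) (p (nat_lit 0x50392) (nat_lit 0) (p (nat_lit 0x38312) (nat_lit 0) (p (nat_lit 0x40212) (nat_lit 0) (p (nat_lit 0x28192) (nat_lit 0) (p (nat_lit 0x30092) (nat_lit 0) (p (nat_lit 0x18012) (nat_lit 0) pn))))))))))))))))))))))))))))))) :=
  Cl.node (nat_lit 0x41) (nat_lit 2) (by decide +kernel) (ClAll.succ (ClAll.succ ClAll.zero s126) s127)

def n10 : Cl (O (nat_lit 4)) (R (nat_lit 6353))
    (p (nat_lit 0x1098a8908881a) (nat_lit 0) (p (nat_lit 0x2a8258000000000090888098a) (nat_lit 0) (p (nat_lit 0x2a8258000000000088807870a) (nat_lit 0) (p (nat_lit 0xb000c) (nat_lit 1) (p (nat_lit 0xb0004) (nat_lit 0) (p (nat_lit 0x119) (nat_lit 0) (p (nat_lit 0x200014) (nat_lit 0) (p (nat_lit 0xc9) (nat_lit 0) (p (nat_lit 0x89) (nat_lit 1) (p (nat_lit 0x109) (nat_lit 1) (p (nat_lit 0x101) (nat_lit 0) (p (nat_lit 0x111) (nat_lit 0) (p (nat_lit 0xd1) (nat_lit 1) (p (nat_lit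 0x81) (nat_lit 0) (p (nat_lit 0x41) (nat_lit 1) (p (nat_lit 0x108090787089a) (nat_lit 0) (p (nat_lit 0x107888706861a) (nat_lit 0) (p (nat_lit 0x8000000000000070686078a) (nat_lit 0) (p (nat_lit 0x8000000000000068605850a) (nat_lit 0) (p (nat_lit 0x10705850682) (nat_lit 0) (p (nat_lit 0x10685048402) (nat_lit 0) (p (nat_lit 0x16000c) (nat_lit 0) (p (nat_lit 0x160004) (nat_lit 0) (p (nat_lit 0x60592) (nat_lit 0) (p (nat_lit 0x48512) (nat_lit 0) (p (nat_lit 0x50392) (nat_lit 0) (p (nat_lit 0x38312) (nat_lit 0) (p (nat_lit 0x40212) (nat_lit 0) (p (nat_lit 0x28192) (nat_lit 0) (p (nat_lit 0x30092) (nat_lit 0) (p (nat_lit 0x18012) (nat_lit 0) pn))))))))))))))))))))))))))))))) :=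
  Cl.node (nat_lit 0x10a0b09890a9a) (nat_lit 1) (by decide +kernel) (ClAll.succ ClAll.zero n2)

def n11 : Cl (O (nat_lit 4)) (R (nat_lit 6353))
    (p (nat_lit 0x1098a8908881a) (nat_lit 0) (p (nat_lit 0x2a8258000000000090888098a) (nat_lit 0) (p (nat_lit 0x2a8258000000000088807870a) (nat_lit 0) (p (nat_lit 0xb000c) (nat_lit 1) (p (nat_lit 0xb0004) (nat_lit 0) (p (nat_lit 0x111) (nat_lit 0) (p (nat_lit 0x200014) (nat_lit 0) (p (nat_lit 0xc9) (nat_lit 1) (p (nat_lit 0x81) (nat_lit 0) (p (nat_lit 0x101) (nat_lit 1) (p (nat_lit 0x119) (nat_lit 0) (p (nat_lit 0xd1) (nat_lit 0) (p (nat_lit 0x89) (nat_lit 0) (p (nat_lit 0x41) (nat_lit 0) (p (nat_lit 0x108090787089a) (nat_lit 0) (p (nat_lit 0x107888706861a) (nat_lit 0) (p (nat_lit 0x8000000000000070686078a) (nat_lit 0) (p (nat_lit 0x8000000000000068605850a) (nat_lit 0) (p (nat_lit 0x10705850682) (nat_lit 0) (p (nat_lit 0x10685048402) (nat_lit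 0) (p (nat_lit 0x16000c) (nat_lit 0) (p (nat_lit 0x160004) (nat_lit 0) (p (nat_lit 0x60592) (nat_lit 0) (p (nat_lit 0x48512) (nat_lit 0) (p (nat_lit 0x50392) (nat_lit 0) (p (nat_lit 0x38312) (nat_lit 0) (p (nat_lit 0x40212) (nat_lit 0) (p (nat_lit 0x28192) (nat_lit 0) (p (nat_lit 0x30092) (nat_lit 0) (p (nat_lit 0x18012) (nat_lit 0) pn)))))))))))))))))))))))))))))) :=
  Cl.node (nat_lit 0x10a0b09890a9a) (nat_lit 1) (by decide +kernel) (ClAll.succ ClAll.zero n3)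

def n12 : Cl (O (nat_lit 4)) (R (nat_lit 6353))
    (p (nat_lit 0x1098a8908881a) (nat_lit 0) (p (nat_lit 0x2a8258000000000090888098a) (nat_lit 0) (p (nat_lit 0x2a8258000000000088807870a) (nat_lit 0) (p (nat_lit 0xb000c) (nat_lit 1) (p (nat_lit 0xb0004) (nat_lit 0) (p (nat_lit 0x119) (nat_lit 0) (p (nat_lit 0x200014) (nat_lit 0) (p (nat_lit 0xc1) (nat_lit 0) (p (nat_lit 0x81) (nat_lit 1) (p (nat_lit 0x101) (nat_lit 1) (p (nat_lit 0x111) (nat_lit 0) (p (nat_lit 0xd1) (nat_lit 1) (p (nat_lit 0x89) (nat_lit 0) (p (nat_lit 0x41) (nat_lit 0) (p (nat_lit 0x108090787089a) (nat_lit 0) (p (nat_lit 0x107888706861a) (nat_lit 0) (p (nat_lit 0x8000000000000070686078a) (nat_lit 0) (p (nat_lit 0x8000000000000068605850a) (nat_lit 0) (p (nat_lit 0x10705850682) (nat_lit 0) (p (nat_lit 0x10685048402) (nat_lit 0) (p (nat_lit 0x16000c) (nat_lit 0) (p (nat_lit 0x160004) (nat_lit 0) (p (nat_lit 0x60592) (nat_lit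 0) (p (nat_lit 0x48512) (nat_lit 0) (p (nat_lit 0x50392) (nat_lit 0) (p (nat_lit 0x38312) (nat_lit 0) (p (nat_lit 0x40212) (nat_lit 0) (p (nat_lit 0x28192) (nat_lit 0) (p (nat_lit 0x30092) (nat_lit 0) (p (nat_lit 0x18012) (nat_lit 0) pn)))))))))))))))))))))))))))))) :=
  Cl.node (nat_lit 0x10a0b09890a9a) (nat_lit 1) (by decide +kernel) (ClAll.succ ClAll.zero n4)

def n13 : Cl (O (nat_lit 4)) (R (nat_lit 6353))
    (p (nat_lit 0x10a0b09890a9a) (nat_lit 0) (p (nat_lit 0x1098a8908881a) (nat_lit 0) (p (nat_lit 0x2a8258000000000090888098a) (nat_lit 0) (p (nat_lit 0x2a8258000000000088807870a) (nat_lit 0) (p (nat_lit 0xb000c) (nat_lit 1) (p (nat_lit 0xb0004) (nat_lit 0) (p (nat_lit 0x200014) (nat_lit 0) (p (nat_lit 0x111) (nat_lit 1) (p (nat_lit 0xd1) (nat_lit 1) (p (nat_lit 0xc1) (nat_lit 0) (p (nat_lit 0x119) (nat_lit 1) (p (nat_lit 0xc9) (nat_lit 0) (p (nat_lit 0x89) (nat_lit 1) (p (nat_lit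 0x41) (nat_lit 0) (p (nat_lit 0x108090787089a) (nat_lit 0) (p (nat_lit 0x107888706861a) (nat_lit 0) (p (nat_lit 0x8000000000000070686078a) (nat_lit 0) (p (nat_lit 0x8000000000000068605850a) (nat_lit 0) (p (nat_lit 0x10705850682) (nat_lit 0) (p (nat_lit 0x10685048402) (nat_lit 0) (p (nat_lit 0x16000c) (nat_lit 0) (p (nat_lit 0x160004) (nat_lit 0) (p (nat_lit 0x60592) (nat_lit 0) (p (nat_lit 0x48512) (nat_lit 0) (p (nat_lit 0x50392) (nat_lit 0) (p (nat_lit 0x38312) (nat_lit 0) (p (nat_lit 0x40212) (nat_lit 0) (p (nat_lit 0x28192) (nat_lit 0) (p (nat_lit 0x30092) (nat_lit 0) (p (nat_lit 0x18012) (nat_lit 0) pn)))))))))))))))))))))))))))))) :=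
  Cl.node (nat_lit 0x81) (nat_lit 2) (by decide +kernel) (ClAll.succ (ClAll.succ ClAll.zero s66) s67)

def n14 : Cl (O (nat_lit 4)) (R (nat_lit 6353))
    (p (nat_lit 0x1098a8908881a) (nat_lit 0) (p (nat_lit 0x2a8258000000000090888098a) (nat_lit 0) (p (nat_lit 0x2a8258000000000088807870a) (nat_lit 0) (p (nat_lit 0xb000c) (nat_lit 1) (p (nat_lit 0xb0004) (nat_lit 0) (p (nat_lit 0x200014) (nat_lit 0) (p (nat_lit 0xc9) (nat_lit 1) (p (nat_lit 0x89) (nat_lit 1) (p (nat_lit 0xc1) (nat_lit 0) (p (nat_lit 0x101) (nat_lit 1) (p (nat_lit 0x119) (nat_lit 0) (p (nat_lit 0xd1) (nat_lit 0) (p (nat_lit 0x81) (nat_lit 0) (p (nat_lit 0x41) (nat_lit 1) (p (nat_lit 0x108090787089a) (nat_lit 0) (p (nat_lit 0x107888706861a) (nat_lit 0) (p (nat_lit 0x8000000000000070686078a) (nat_lit 0) (p (nat_lit 0x8000000000000068605850a) (nat_lit 0) (p (nat_lit 0x10705850682) (nat_lit 0) (p (nat_lit 0x10685048402) (nat_lit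 0) (p (nat_lit 0x16000c) (nat_lit 0) (p (nat_lit 0x160004) (nat_lit 0) (p (nat_lit 0x60592) (nat_lit 0) (p (nat_lit 0x48512) (nat_lit 0) (p (nat_lit 0x50392) (nat_lit 0) (p (nat_lit 0x38312) (nat_lit 0) (p (nat_lit 0x40212) (nat_lit 0) (p (nat_lit 0x28192) (nat_lit 0) (p (nat_lit 0x30092) (nat_lit 0) (p (nat_lit 0x18012) (nat_lit 0) pn)))))))))))))))))))))))))))))) :=
  Cl.node (nat_lit 0x10a0b09890a9a) (nat_lit 1) (by decide +kernel) (ClAll.succ ClAll.zero n5)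

def n15 : Cl (O (nat_lit 4)) (R (nat_lit 6353))
    (p (nat_lit 0x10a0b09890a9a) (nat_lit 0) (p (nat_lit 0x1098a8908881a) (nat_lit 0) (p (nat_lit 0x2a8258000000000090888098a) (nat_lit 0) (p (nat_lit 0x2a8258000000000088807870a) (nat_lit 0) (p (nat_lit 0xb000c) (nat_lit 1) (p (nat_lit 0xb0004) (nat_lit 0) (p (nat_lit 0x200014) (nat_lit 0) (p (nat_lit 0x89) (nat_lit 1) (p (nat_lit 0xc1) (nat_lit 1) (p (nat_lit 0x101) (nat_lit 1) (p (nat_lit 0x119) (nat_lit 0) (p (nat_lit 0xd1) (nat_lit 0) (p (nat_lit 0x81) (nat_lit 0) (p (nat_lit 0x41) (nat_lit 1) (p (nat_lit 0x108090787089a) (nat_lit 0) (p (nat_lit 0x107888706861a) (nat_lit 0) (p (nat_lit 0x8000000000000070686078a) (nat_lit 0) (p (nat_lit 0x8000000000000068605850a) (nat_lit 0) (p (nat_lit 0x10705850682) (nat_lit 0) (p (nat_lit 0x10685048402) (nat_lit 0) (p (nat_lit 0x16000c) (nat_lit 0) (p (nat_lit 0x160004) (nat_lit 0) (p (nat_lit 0x60592)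 (nat_lit 0) (p (nat_lit 0x48512) (nat_lit 0) (p (nat_lit 0x50392) (nat_lit 0) (p (nat_lit 0x38312) (nat_lit 0) (p (nat_lit 0x40212) (nat_lit 0) (p (nat_lit 0x28192) (nat_lit 0) (p (nat_lit 0x30092) (nat_lit 0) (p (nat_lit 0x18012) (nat_lit 0) pn)))))))))))))))))))))))))))))) :=
  Cl.node (nat_lit 0x109) (nat_lit 2) (by decide +kernel) (ClAll.succ (ClAll.succ ClAll.zero s100) n6)

def n16 : Cl (O (nat_lit 4)) (R (nat_lit 6353))
    (p (nat_lit 0x1098a8908881a) (nat_lit 0) (p (nat_lit 0x2a8258000000000090888098a) (nat_lit 0) (p (nat_lit 0x2a8258000000000088807870a) (nat_lit 0) (p (nat_lit 0xb000c) (nat_lit 1) (p (nat_lit 0xb0004) (nat_lit 0) (p (nat_lit 0x200014) (nat_lit 0) (p (nat_lit 0x109) (nat_lit 1) (p (nat_lit 0x89) (nat_lit 1) (p (nat_lit 0xc9) (nat_lit 1) (p (nat_lit 0xc1) (nat_lit 0) (p (nat_lit 0x119) (nat_lit 1) (p (nat_lit 0xd1) (nat_lit 0) (p (nat_lit 0x81) (nat_lit 0) (p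 (nat_lit 0x41) (nat_lit 1) (p (nat_lit 0x108090787089a) (nat_lit 0) (p (nat_lit 0x107888706861a) (nat_lit 0) (p (nat_lit 0x8000000000000070686078a) (nat_lit 0) (p (nat_lit 0x8000000000000068605850a) (nat_lit 0) (p (nat_lit 0x10705850682) (nat_lit 0) (p (nat_lit 0x10685048402) (nat_lit 0) (p (nat_lit 0x16000c) (nat_lit 0) (p (nat_lit 0x160004) (nat_lit 0) (p (nat_lit 0x60592) (nat_lit 0) (p (nat_lit 0x48512) (nat_lit 0) (p (nat_lit 0x50392) (nat_lit 0) (p (nat_lit 0x38312) (nat_lit 0) (p (nat_lit 0x40212) (nat_lit 0) (p (nat_lit 0x28192) (nat_lit 0) (p (nat_lit 0x30092) (nat_lit 0) (p (nat_lit 0x18012) (nat_lit 0) pn)))))))))))))))))))))))))))))) :=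
  Cl.node (nat_lit 0x10a0b09890a9a) (nat_lit 1) (by decide +kernel) (ClAll.succ ClAll.zero n7)

def n17 : Cl (O (nat_lit 4)) (R (nat_lit 6353))
    (p (nat_lit 0x1098a8908881a) (nat_lit 0) (p (nat_lit 0x2a8258000000000090888098a) (nat_lit 0) (p (nat_lit 0x2a8258000000000088807870a) (nat_lit 0) (p (nat_lit 0xb000c) (nat_lit 1) (p (nat_lit 0xb0004) (nat_lit 0) (p (nat_lit 0x200014) (nat_lit 0) (p (nat_lit 0x109) (nat_lit 1) (p (nat_lit 0x89) (nat_lit 1) (p (nat_lit 0x101) (nat_lit 0) (p (nat_lit 0xc1) (nat_lit 1) (p (nat_lit 0x119) (nat_lit 1) (p (nat_lit 0xd1) (nat_lit 0) (p (nat_lit 0x81) (nat_lit 0) (p (nat_lit 0x41) (nat_lit 1) (p (nat_lit 0x108090787089a) (nat_lit 0) (p (nat_lit 0x107888706861a) (nat_lit 0) (p (nat_lit 0x8000000000000070686078a) (nat_lit 0) (p (nat_lit 0x8000000000000068605850a) (nat_lit 0) (p (nat_lit 0x10705850682) (nat_lit 0) (p (nat_lit 0x10685048402) (nat_lit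 0) (p (nat_lit 0x16000c) (nat_lit 0) (p (nat_lit 0x160004) (nat_lit 0) (p (nat_lit 0x60592) (nat_lit 0) (p (nat_lit 0x48512) (nat_lit 0) (p (nat_lit 0x50392) (nat_lit 0) (p (nat_lit 0x38312) (nat_lit 0) (p (nat_lit 0x40212) (nat_lit 0) (p (nat_lit 0x28192) (nat_lit 0) (p (nat_lit 0x30092) (nat_lit 0) (p (nat_lit 0x18012) (nat_lit 0) pn)))))))))))))))))))))))))))))) :=
  Cl.node (nat_lit 0x10a0b09890a9a) (nat_lit 1) (by decide +kernel) (ClAll.succ ClAll.zero n8)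

def n18 : Cl (O (nat_lit 4)) (R (nat_lit 6353))
    (p (nat_lit 0x10a0b09890a9a) (nat_lit 0) (p (nat_lit 0x1098a8908881a) (nat_lit 0) (p (nat_lit 0x2a8258000000000090888098a) (nat_lit 0) (p (nat_lit 0x2a8258000000000088807870a) (nat_lit 0) (p (nat_lit 0xb000c) (nat_lit 1) (p (nat_lit 0xb0004) (nat_lit 0) (p (nat_lit 0x200014) (nat_lit 0) (p (nat_lit 0x89) (nat_lit 1) (p (nat_lit 0x101) (nat_lit 1) (p (nat_lit 0xc1) (nat_lit 1) (p (nat_lit 0x119) (nat_lit 1) (p (nat_lit 0xd1) (nat_lit 0) (p (nat_lit 0x81) (nat_lit 0) (p (nat_lit 0x41) (nat_lit 1) (p (nat_lit 0x108090787089a) (nat_lit 0) (p (nat_lit 0x107888706861a) (nat_lit 0) (p (nat_lit 0x8000000000000070686078a) (nat_lit 0) (p (nat_lit 0x8000000000000068605850a) (nat_lit 0) (p (nat_lit 0x10705850682) (nat_lit 0) (p (nat_lit 0x10685048402) (nat_lit 0) (p (nat_lit 0x16000c) (nat_lit 0) (p (nat_lit 0x160004) (nat_lit 0) (p (nat_lit 0x60592)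 (nat_lit 0) (p (nat_lit 0x48512) (nat_lit 0) (p (nat_lit 0x50392) (nat_lit 0) (p (nat_lit 0x38312) (nat_lit 0) (p (nat_lit 0x40212) (nat_lit 0) (p (nat_lit 0x28192) (nat_lit 0) (p (nat_lit 0x30092) (nat_lit 0) (p (nat_lit 0x18012) (nat_lit 0) pn)))))))))))))))))))))))))))))) :=
  Cl.node (nat_lit 0xc9) (nat_lit 2) (by decide +kernel) (ClAll.succ (ClAll.succ ClAll.zero s125) n9)

def n19 : Cl (O (nat_lit 4)) (R (nat_lit 6353))
    (p (nat_lit 0x2a8258000000000090888098a) (nat_lit 0) (p (nat_lit 0x2a8258000000000088807870a) (nat_lit 0) (p (nat_lit 0xb000c) (nat_lit 1) (p (nat_lit 0xb0004) (nat_lit 0) (p (nat_lit 0x119) (nat_lit 0) (p (nat_lit 0x200014) (nat_lit 0) (p (nat_lit 0xc9) (nat_lit 0) (p (nat_lit 0x89) (nat_lit 1) (p (nat_lit 0x109) (nat_lit 1) (p (nat_lit 0x101) (nat_lit 0) (p (nat_lit 0x111) (nat_lit 0) (p (nat_lit 0xd1) (nat_lit 1) (p (nat_lit 0x81) (nat_lit 0) (p (nat_lit 0x41)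 (nat_lit 1) (p (nat_lit 0x108090787089a) (nat_lit 0) (p (nat_lit 0x107888706861a) (nat_lit 0) (p (nat_lit 0x8000000000000070686078a) (nat_lit 0) (p (nat_lit 0x8000000000000068605850a) (nat_lit 0) (p (nat_lit 0x10705850682) (nat_lit 0) (p (nat_lit 0x10685048402) (nat_lit 0) (p (nat_lit 0x16000c) (nat_lit 0) (p (nat_lit 0x160004) (nat_lit 0) (p (nat_lit 0x60592) (nat_lit 0) (p (nat_lit 0x48512) (nat_lit 0) (p (nat_lit 0x50392) (nat_lit 0) (p (nat_lit 0x38312) (nat_lit 0) (p (nat_lit 0x40212) (nat_lit 0) (p (nat_lit 0x28192) (nat_lit 0) (p (nat_lit 0x30092) (nat_lit 0) (p (nat_lit 0x18012) (nat_lit 0) pn)))))))))))))))))))))))))))))) :=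
  Cl.node (nat_lit 0x1098a8908881a) (nat_lit 1) (by decide +kernel) (ClAll.succ ClAll.zero n10)

def n20 : Cl (O (nat_lit 4)) (R (nat_lit 6353))
    (p (nat_lit 0x2a8258000000000090888098a) (nat_lit 0) (p (nat_lit 0x2a8258000000000088807870a) (nat_lit 0) (p (nat_lit 0xb000c) (nat_lit 1) (p (nat_lit 0xb0004) (nat_lit 0) (p (nat_lit 0x111) (nat_lit 0) (p (nat_lit 0x200014) (nat_lit 0) (p (nat_lit 0xc9) (nat_lit 1) (p (nat_lit 0x81) (nat_lit 0) (p (nat_lit 0x101) (nat_lit 1) (p (nat_lit 0x119) (nat_lit 0) (p (nat_lit 0xd1) (nat_lit 0) (p (nat_lit 0x89) (nat_lit 0) (p (nat_lit 0x41) (nat_lit 0) (p (nat_lit 0x108090787089a) (nat_lit 0) (p (nat_lit 0x107888706861a) (nat_lit 0) (p (nat_lit 0x8000000000000070686078a) (nat_lit 0) (p (nat_lit 0x8000000000000068605850a) (nat_lit 0) (p (nat_lit 0x10705850682) (nat_lit 0) (p (nat_lit 0x10685048402) (nat_lit 0) (p (nat_lit 0x16000c) (nat_lit 0) (p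 (nat_lit 0x160004) (nat_lit 0) (p (nat_lit 0x60592) (nat_lit 0) (p (nat_lit 0x48512) (nat_lit 0) (p (nat_lit 0x50392) (nat_lit 0) (p (nat_lit 0x38312) (nat_lit 0) (p (nat_lit 0x40212) (nat_lit 0) (p (nat_lit 0x28192) (nat_lit 0) (p (nat_lit 0x30092) (nat_lit 0) (p (nat_lit 0x18012) (nat_lit 0) pn))))))))))))))))))))))))))))) :=
  Cl.node (nat_lit 0x1098a8908881a) (nat_lit 1) (by decide +kernel) (ClAll.succ ClAll.zero n11)

def n21 : Cl (O (nat_lit 4)) (R (nat_lit 6353))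
    (p (nat_lit 0x2a8258000000000090888098a) (nat_lit 0) (p (nat_lit 0x2a8258000000000088807870a) (nat_lit 0) (p (nat_lit 0xb000c) (nat_lit 1) (p (nat_lit 0xb0004) (nat_lit 0) (p (nat_lit 0x119) (nat_lit 0) (p (nat_lit 0x200014) (nat_lit 0) (p (nat_lit 0xc1) (nat_lit 0) (p (nat_lit 0x81) (nat_lit 1) (p (nat_lit 0x101) (nat_lit 1) (p (nat_lit 0x111) (nat_lit 0) (p (nat_lit 0xd1) (nat_lit 1) (p (nat_lit 0x89) (nat_lit 0) (p (nat_lit 0x41) (nat_lit 0) (p (nat_lit 0x108090787089a) (nat_lit 0) (p (nat_lit 0x107888706861a) (nat_lit 0) (p (nat_lit 0x8000000000000070686078a) (nat_lit 0) (p (nat_lit 0x8000000000000068605850a) (nat_lit 0) (p (nat_lit 0x10705850682) (nat_lit 0) (p (nat_lit 0x10685048402) (nat_lit 0) (p (nat_lit 0x16000c) (nat_lit 0) (p (nat_lit 0x160004) (nat_lit 0) (p (nat_lit 0x60592) (nat_lit 0) (p (nat_lit 0x48512) (nat_lit 0) (p (nat_lit 0x50392) (nat_lit 0) (p (nat_lit 0x38312)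 (nat_lit 0) (p (nat_lit 0x40212) (nat_lit 0) (p (nat_lit 0x28192) (nat_lit 0) (p (nat_lit 0x30092) (nat_lit 0) (p (nat_lit 0x18012) (nat_lit 0) pn))))))))))))))))))))))))))))) :=
  Cl.node (nat_lit 0x1098a8908881a) (nat_lit 1) (by decide +kernel) (ClAll.succ ClAll.zero n12)

def n22 : Cl (O (nat_lit 4)) (R (nat_lit 6353))
    (p (nat_lit 0x1098a8908881a) (nat_lit 0) (p (nat_lit 0x2a8258000000000090888098a) (nat_lit 0) (p (nat_lit 0x2a8258000000000088807870a) (nat_lit 0) (p (nat_lit 0xb000c) (nat_lit 1) (p (nat_lit 0xb0004) (nat_lit 0) (p (nat_lit 0x200014) (nat_lit 0) (p (nat_lit 0x111) (nat_lit 1) (p (nat_lit 0xd1) (nat_lit 1) (p (nat_lit 0xc1) (nat_lit 0) (p (nat_lit 0x119) (nat_lit 1) (p (nat_lit 0xc9) (nat_lit 0) (p (nat_lit 0x89) (nat_lit 1) (p (nat_lit 0x41) (nat_lit 0) (p (nat_lit 0x108090787089a) (nat_lit 0) (p (nat_lit 0x107888706861a) (nat_lit 0) (p (nat_lit 0x8000000000000070686078a)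 (nat_lit 0) (p (nat_lit 0x8000000000000068605850a) (nat_lit 0) (p (nat_lit 0x10705850682) (nat_lit 0) (p (nat_lit 0x10685048402) (nat_lit 0) (p (nat_lit 0x16000c) (nat_lit 0) (p (nat_lit 0x160004) (nat_lit 0) (p (nat_lit 0x60592) (nat_lit 0) (p (nat_lit 0x48512) (nat_lit 0) (p (nat_lit 0x50392) (nat_lit 0) (p (nat_lit 0x38312) (nat_lit 0) (p (nat_lit 0x40212) (nat_lit 0) (p (nat_lit 0x28192) (nat_lit 0) (p (nat_lit 0x30092) (nat_lit 0) (p (nat_lit 0x18012) (nat_lit 0) pn))))))))))))))))))))))))))))) :=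
  Cl.node (nat_lit 0x10a0b09890a9a) (nat_lit 1) (by decide +kernel) (ClAll.succ ClAll.zero n13)

def n23 : Cl (O (nat_lit 4)) (R (nat_lit 6353))
    (p (nat_lit 0x2a8258000000000090888098a) (nat_lit 0) (p (nat_lit 0x2a8258000000000088807870a) (nat_lit 0) (p (nat_lit 0xb000c) (nat_lit 1) (p (nat_lit 0xb0004) (nat_lit 0) (p (nat_lit 0x200014) (nat_lit 0) (p (nat_lit 0xc9) (nat_lit 1) (p (nat_lit 0x89) (nat_lit 1) (p (nat_lit 0xc1) (nat_lit 0) (p (nat_lit 0x101) (nat_lit 1) (p (nat_lit 0x119) (nat_lit 0) (p (nat_lit 0xd1) (nat_lit 0) (p (nat_lit 0x81) (nat_lit 0) (p (nat_lit 0x41) (nat_lit 1) (p (nat_lit 0x108090787089a) (nat_lit 0) (p (nat_lit 0x107888706861a) (nat_lit 0) (p (nat_lit 0x8000000000000070686078a) (nat_lit 0) (p (nat_lit 0x8000000000000068605850a) (nat_lit 0) (p (nat_lit 0x10705850682) (nat_lit 0) (p (nat_lit 0x10685048402) (nat_lit 0) (p (nat_lit 0x16000c) (nat_lit 0) (p (nat_lit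 0x160004) (nat_lit 0) (p (nat_lit 0x60592) (nat_lit 0) (p (nat_lit 0x48512) (nat_lit 0) (p (nat_lit 0x50392) (nat_lit 0) (p (nat_lit 0x38312) (nat_lit 0) (p (nat_lit 0x40212) (nat_lit 0) (p (nat_lit 0x28192) (nat_lit 0) (p (nat_lit 0x30092) (nat_lit 0) (p (nat_lit 0x18012) (nat_lit 0) pn))))))))))))))))))))))))))))) :=
  Cl.node (nat_lit 0x1098a8908881a) (nat_lit 1) (by decide +kernel) (ClAll.succ ClAll.zero n14)

def n24 : Cl (O (nat_lit 4)) (R (nat_lit 6353))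
    (p (nat_lit 0x1098a8908881a) (nat_lit 0) (p (nat_lit 0x2a8258000000000090888098a) (nat_lit 0) (p (nat_lit 0x2a8258000000000088807870a) (nat_lit 0) (p (nat_lit 0xb000c) (nat_lit 1) (p (nat_lit 0xb0004) (nat_lit 0) (p (nat_lit 0x200014) (nat_lit 0) (p (nat_lit 0x89) (nat_lit 1) (p (nat_lit 0xc1) (nat_lit 1) (p (nat_lit 0x101) (nat_lit 1) (p (nat_lit 0x119) (nat_lit 0) (p (nat_lit 0xd1) (nat_lit 0) (p (nat_lit 0x81) (nat_lit 0) (p (nat_lit 0x41) (nat_lit 1) (p (nat_lit 0x108090787089a) (nat_lit 0) (p (nat_lit 0x107888706861a) (nat_lit 0) (p (nat_lit 0x8000000000000070686078a) (nat_lit 0) (p (nat_lit 0x8000000000000068605850a) (nat_lit 0) (p (nat_lit 0x10705850682) (nat_lit 0) (p (nat_lit 0x10685048402) (nat_lit 0) (p (nat_lit 0x16000c) (nat_lit 0) (p (nat_lit 0x160004) (nat_lit 0) (p (nat_lit 0x60592) (nat_lit 0) (p (nat_lit 0x48512) (nat_lit 0) (p (nat_lit 0x50392) (nat_lit 0) (p (nat_lit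 0x38312) (nat_lit 0) (p (nat_lit 0x40212) (nat_lit 0) (p (nat_lit 0x28192) (nat_lit 0) (p (nat_lit 0x30092) (nat_lit 0) (p (nat_lit 0x18012) (nat_lit 0) pn))))))))))))))))))))))))))))) :=
  Cl.node (nat_lit 0x10a0b09890a9a) (nat_lit 1) (by decide +kernel) (ClAll.succ ClAll.zero n15)

def n25 : Cl (O (nat_lit 4)) (R (nat_lit 6353))
    (p (nat_lit 0x2a8258000000000090888098a) (nat_lit 0) (p (nat_lit 0x2a8258000000000088807870a) (nat_lit 0) (p (nat_lit 0xb000c) (nat_lit 1) (p (nat_lit 0xb0004) (nat_lit 0) (p (nat_lit 0x200014) (nat_lit 0) (p (nat_lit 0x109) (nat_lit 1) (p (nat_lit 0x89) (nat_lit 1) (p (nat_lit 0xc9) (nat_lit 1) (p (nat_lit 0xc1) (nat_lit 0) (p (nat_lit 0x119) (nat_lit 1) (p (nat_lit 0xd1) (nat_lit 0) (p (nat_lit 0x81) (nat_lit 0) (p (nat_lit 0x41) (nat_lit 1) (p (nat_lit 0x108090787089a) (nat_lit 0) (p (nat_lit 0x107888706861a) (nat_lit 0) (p (nat_lit 0x8000000000000070686078a)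 (nat_lit 0) (p (nat_lit 0x8000000000000068605850a) (nat_lit 0) (p (nat_lit 0x10705850682) (nat_lit 0) (p (nat_lit 0x10685048402) (nat_lit 0) (p (nat_lit 0x16000c) (nat_lit 0) (p (nat_lit 0x160004) (nat_lit 0) (p (nat_lit 0x60592) (nat_lit 0) (p (nat_lit 0x48512) (nat_lit 0) (p (nat_lit 0x50392) (nat_lit 0) (p (nat_lit 0x38312) (nat_lit 0) (p (nat_lit 0x40212) (nat_lit 0) (p (nat_lit 0x28192) (nat_lit 0) (p (nat_lit 0x30092) (nat_lit 0) (p (nat_lit 0x18012) (nat_lit 0) pn))))))))))))))))))))))))))))) :=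
  Cl.node (nat_lit 0x1098a8908881a) (nat_lit 1) (by decide +kernel) (ClAll.succ ClAll.zero n16)

def n26 : Cl (O (nat_lit 4)) (R (nat_lit 6353))
    (p (nat_lit 0x2a8258000000000090888098a) (nat_lit 0) (p (nat_lit 0x2a8258000000000088807870a) (nat_lit 0) (p (nat_lit 0xb000c) (nat_lit 1) (p (nat_lit 0xb0004) (nat_lit 0) (p (nat_lit 0x200014) (nat_lit 0) (p (nat_lit 0x109) (nat_lit 1) (p (nat_lit 0x89) (nat_lit 1) (p (nat_lit 0x101) (nat_lit 0) (p (nat_lit 0xc1) (nat_lit 1) (p (nat_lit 0x119) (nat_lit 1) (p (nat_lit 0xd1) (nat_lit 0) (p (nat_lit 0x81) (nat_lit 0) (p (nat_lit 0x41) (nat_lit 1) (p (nat_lit 0x108090787089a) (nat_lit 0) (p (nat_lit 0x107888706861a) (nat_lit 0) (p (nat_lit 0x8000000000000070686078a) (nat_lit 0) (p (nat_lit 0x8000000000000068605850a) (nat_lit 0) (p (nat_lit 0x10705850682) (nat_lit 0) (p (nat_lit 0x10685048402) (nat_lit 0) (p (nat_lit 0x16000c) (nat_lit 0) (p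 (nat_lit 0x160004) (nat_lit 0) (p (nat_lit 0x60592) (nat_lit 0) (p (nat_lit 0x48512) (nat_lit 0) (p (nat_lit 0x50392) (nat_lit 0) (p (nat_lit 0x38312) (nat_lit 0) (p (nat_lit 0x40212) (nat_lit 0) (p (nat_lit 0x28192) (nat_lit 0) (p (nat_lit 0x30092) (nat_lit 0) (p (nat_lit 0x18012) (nat_lit 0) pn))))))))))))))))))))))))))))) :=
  Cl.node (nat_lit 0x1098a8908881a) (nat_lit 1) (by decide +kernel) (ClAll.succ ClAll.zero n17)

def n27 : Cl (O (nat_lit 4)) (R (nat_lit 6353))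
    (p (nat_lit 0x1098a8908881a) (nat_lit 0) (p (nat_lit 0x2a8258000000000090888098a) (nat_lit 0) (p (nat_lit 0x2a8258000000000088807870a) (nat_lit 0) (p (nat_lit 0xb000c) (nat_lit 1) (p (nat_lit 0xb0004) (nat_lit 0) (p (nat_lit 0x200014) (nat_lit 0) (p (nat_lit 0x89) (nat_lit 1) (p (nat_lit 0x101) (nat_lit 1) (p (nat_lit 0xc1) (nat_lit 1) (p (nat_lit 0x119) (nat_lit 1) (p (nat_lit 0xd1) (nat_lit 0) (p (nat_lit 0x81) (nat_lit 0) (p (nat_lit 0x41) (nat_lit 1) (p (nat_lit 0x108090787089a) (nat_lit 0) (p (nat_lit 0x107888706861a) (nat_lit 0) (p (nat_lit 0x8000000000000070686078a) (nat_lit 0) (p (nat_lit 0x8000000000000068605850a) (nat_lit 0) (p (nat_lit 0x10705850682) (nat_lit 0) (p (nat_lit 0x10685048402) (nat_lit 0) (p (nat_lit 0x16000c) (nat_lit 0) (p (nat_lit 0x160004) (nat_lit 0) (p (nat_lit 0x60592) (nat_lit 0) (p (nat_lit 0x48512) (nat_lit 0) (p (nat_lit 0x50392) (nat_lit 0) (p (nat_lit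 0x38312) (nat_lit 0) (p (nat_lit 0x40212) (nat_lit 0) (p (nat_lit 0x28192) (nat_lit 0) (p (nat_lit 0x30092) (nat_lit 0) (p (nat_lit 0x18012) (nat_lit 0) pn))))))))))))))))))))))))))))) :=
  Cl.node (nat_lit 0x10a0b09890a9a) (nat_lit 1) (by decide +kernel) (ClAll.succ ClAll.zero n18)

def n28 : Cl (O (nat_lit 4)) (R (nat_lit 6353))
    (p (nat_lit 0x2a8258000000000088807870a) (nat_lit 0) (p (nat_lit 0xb000c) (nat_lit 1) (p (nat_lit 0xb0004) (nat_lit 0) (p (nat_lit 0x119) (nat_lit 0) (p (nat_lit 0x200014) (nat_lit 0) (p (nat_lit 0xc9) (nat_lit 0) (p (nat_lit 0x89) (nat_lit 1) (p (nat_lit 0x109) (nat_lit 1) (p (nat_lit 0x101) (nat_lit 0) (p (nat_lit 0x111) (nat_lit 0) (p (nat_lit 0xd1) (nat_lit 1) (p (nat_lit 0x81) (nat_lit 0) (p (nat_lit 0x41) (nat_lit 1) (p (nat_lit 0x108090787089a) (nat_lit 0) (p (nat_lit 0x107888706861a) (nat_lit 0) (p (nat_lit 0x8000000000000070686078a) (nat_lit 0)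 (p (nat_lit 0x8000000000000068605850a) (nat_lit 0) (p (nat_lit 0x10705850682) (nat_lit 0) (p (nat_lit 0x10685048402) (nat_lit 0) (p (nat_lit 0x16000c) (nat_lit 0) (p (nat_lit 0x160004) (nat_lit 0) (p (nat_lit 0x60592) (nat_lit 0) (p (nat_lit 0x48512) (nat_lit 0) (p (nat_lit 0x50392) (nat_lit 0) (p (nat_lit 0x38312) (nat_lit 0) (p (nat_lit 0x40212) (nat_lit 0) (p (nat_lit 0x28192) (nat_lit 0) (p (nat_lit 0x30092) (nat_lit 0) (p (nat_lit 0x18012) (nat_lit 0) pn))))))))))))))))))))))))))))) :=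
  Cl.node (nat_lit 0x2a8258000000000090888098a) (nat_lit 1) (by decide +kernel) (ClAll.succ ClAll.zero n19)

def n29 : Cl (O (nat_lit 4)) (R (nat_lit 6353))
    (p (nat_lit 0x2a8258000000000088807870a) (nat_lit 0) (p (nat_lit 0xb000c) (nat_lit 1) (p (nat_lit 0xb0004) (nat_lit 0) (p (nat_lit 0x111) (nat_lit 0) (p (nat_lit 0x200014) (nat_lit 0) (p (nat_lit 0xc9) (nat_lit 1) (p (nat_lit 0x81) (nat_lit 0) (p (nat_lit 0x101) (nat_lit 1) (p (nat_lit 0x119) (nat_lit 0) (p (nat_lit 0xd1) (nat_lit 0) (p (nat_lit 0x89) (nat_lit 0) (p (nat_lit 0x41) (nat_lit 0) (p (nat_lit 0x108090787089a) (nat_lit 0) (p (nat_lit 0x107888706861a) (nat_lit 0) (p (nat_lit 0x8000000000000070686078a) (nat_lit 0) (p (nat_lit 0x8000000000000068605850a) (nat_lit 0) (p (nat_lit 0x10705850682) (nat_lit 0) (p (nat_lit 0x10685048402) (nat_lit 0) (p (nat_lit 0x16000c) (nat_lit 0) (p (nat_lit 0x160004) (nat_lit 0) (p (nat_lit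 0x60592) (nat_lit 0) (p (nat_lit 0x48512) (nat_lit 0) (p (nat_lit 0x50392) (nat_lit 0) (p (nat_lit 0x38312) (nat_lit 0) (p (nat_lit 0x40212) (nat_lit 0) (p (nat_lit 0x28192) (nat_lit 0) (p (nat_lit 0x30092) (nat_lit 0) (p (nat_lit 0x18012) (nat_lit 0) pn)))))))))))))))))))))))))))) :=
  Cl.node (nat_lit 0x2a8258000000000090888098a) (nat_lit 1) (by decide +kernel) (ClAll.succ ClAll.zero n20)

def n30 : Cl (O (nat_lit 4)) (R (nat_lit 6353))
    (p (nat_lit 0x2a8258000000000088807870a) (nat_lit 0) (p (nat_lit 0xb000c) (nat_lit 1) (p (nat_lit 0xb0004) (nat_lit 0) (p (nat_lit 0x119) (nat_lit 0) (p (nat_lit 0x200014) (nat_lit 0) (p (nat_lit 0xc1) (nat_lit 0) (p (nat_lit 0x81) (nat_lit 1) (p (nat_lit 0x101) (nat_lit 1) (p (nat_lit 0x111) (nat_lit 0) (p (nat_lit 0xd1) (nat_lit 1) (p (nat_lit 0x89) (nat_lit 0) (p (nat_lit 0x41) (nat_lit 0) (p (nat_lit 0x108090787089a) (nat_lit 0) (p (nat_lit 0x107888706861a)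 (nat_lit 0) (p (nat_lit 0x8000000000000070686078a) (nat_lit 0) (p (nat_lit 0x8000000000000068605850a) (nat_lit 0) (p (nat_lit 0x10705850682) (nat_lit 0) (p (nat_lit 0x10685048402) (nat_lit 0) (p (nat_lit 0x16000c) (nat_lit 0) (p (nat_lit 0x160004) (nat_lit 0) (p (nat_lit 0x60592) (nat_lit 0) (p (nat_lit 0x48512) (nat_lit 0) (p (nat_lit 0x50392) (nat_lit 0) (p (nat_lit 0x38312) (nat_lit 0) (p (nat_lit 0x40212) (nat_lit 0) (p (nat_lit 0x28192) (nat_lit 0) (p (nat_lit 0x30092) (nat_lit 0) (p (nat_lit 0x18012) (nat_lit 0) pn)))))))))))))))))))))))))))) :=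
  Cl.node (nat_lit 0x2a8258000000000090888098a) (nat_lit 1) (by decide +kernel) (ClAll.succ ClAll.zero n21)

def n31 : Cl (O (nat_lit 4)) (R (nat_lit 6353))
    (p (nat_lit 0x2a8258000000000090888098a) (nat_lit 0) (p (nat_lit 0x2a8258000000000088807870a) (nat_lit 0) (p (nat_lit 0xb000c) (nat_lit 1) (p (nat_lit 0xb0004) (nat_lit 0) (p (nat_lit 0x200014) (nat_lit 0) (p (nat_lit 0x111) (nat_lit 1) (p (nat_lit 0xd1) (nat_lit 1) (p (nat_lit 0xc1) (nat_lit 0) (p (nat_lit 0x119) (nat_lit 1) (p (nat_lit 0xc9) (nat_lit 0) (p (nat_lit 0x89) (nat_lit 1) (p (nat_lit 0x41) (nat_lit 0) (p (nat_lit 0x108090787089a) (nat_lit 0) (p (nat_lit 0x107888706861a) (nat_lit 0) (p (nat_lit 0x8000000000000070686078a) (nat_lit 0) (p (nat_lit 0x8000000000000068605850a) (nat_lit 0) (p (nat_lit 0x10705850682) (nat_lit 0) (p (nat_lit 0x10685048402) (nat_lit 0) (p (nat_lit 0x16000c) (nat_lit 0) (p (nat_lit 0x160004)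 (nat_lit 0) (p (nat_lit 0x60592) (nat_lit 0) (p (nat_lit 0x48512) (nat_lit 0) (p (nat_lit 0x50392) (nat_lit 0) (p (nat_lit 0x38312) (nat_lit 0) (p (nat_lit 0x40212) (nat_lit 0) (p (nat_lit 0x28192) (nat_lit 0) (p (nat_lit 0x30092) (nat_lit 0) (p (nat_lit 0x18012) (nat_lit 0) pn)))))))))))))))))))))))))))) :=
  Cl.node (nat_lit 0x1098a8908881a) (nat_lit 1) (by decide +kernel) (ClAll.succ ClAll.zero n22)

def n32 : Cl (O (nat_lit 4)) (R (nat_lit 6353))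
    (p (nat_lit 0x2a8258000000000088807870a) (nat_lit 0) (p (nat_lit 0xb000c) (nat_lit 1) (p (nat_lit 0xb0004) (nat_lit 0) (p (nat_lit 0x200014) (nat_lit 0) (p (nat_lit 0xc9) (nat_lit 1) (p (nat_lit 0x89) (nat_lit 1) (p (nat_lit 0xc1) (nat_lit 0) (p (nat_lit 0x101) (nat_lit 1) (p (nat_lit 0x119) (nat_lit 0) (p (nat_lit 0xd1) (nat_lit 0) (p (nat_lit 0x81) (nat_lit 0) (p (nat_lit 0x41) (nat_lit 1) (p (nat_lit 0x108090787089a) (nat_lit 0) (p (nat_lit 0x107888706861a) (nat_lit 0) (p (nat_lit 0x8000000000000070686078a) (nat_lit 0) (p (nat_lit 0x8000000000000068605850a) (nat_lit 0) (p (nat_lit 0x10705850682) (nat_lit 0) (p (nat_lit 0x10685048402) (nat_lit 0) (p (nat_lit 0x16000c) (nat_lit 0) (p (nat_lit 0x160004) (nat_lit 0) (p (nat_lit 0x60592) (nat_lit 0) (p (nat_lit 0x48512) (nat_lit 0) (p (nat_lit 0x50392) (nat_lit 0) (p (nat_lit 0x38312) (nat_lit 0) (p (nat_lit 0x40212) (nat_lit 0) (p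 (nat_lit 0x28192) (nat_lit 0) (p (nat_lit 0x30092) (nat_lit 0) (p (nat_lit 0x18012) (nat_lit 0) pn)))))))))))))))))))))))))))) :=
  Cl.node (nat_lit 0x2a8258000000000090888098a) (nat_lit 1) (by decide +kernel) (ClAll.succ ClAll.zero n23)

def n33 : Cl (O (nat_lit 4)) (R (nat_lit 6353))
    (p (nat_lit 0x2a8258000000000090888098a) (nat_lit 0) (p (nat_lit 0x2a8258000000000088807870a) (nat_lit 0) (p (nat_lit 0xb000c) (nat_lit 1) (p (nat_lit 0xb0004) (nat_lit 0) (p (nat_lit 0x200014) (nat_lit 0) (p (nat_lit 0x89) (nat_lit 1) (p (nat_lit 0xc1) (nat_lit 1) (p (nat_lit 0x101) (nat_lit 1) (p (nat_lit 0x119) (nat_lit 0) (p (nat_lit 0xd1) (nat_lit 0) (p (nat_lit 0x81) (nat_lit 0) (p (nat_lit 0x41) (nat_lit 1) (p (nat_lit 0x108090787089a) (nat_lit 0) (p (nat_lit 0x107888706861a) (nat_lit 0) (p (nat_lit 0x8000000000000070686078a) (nat_lit 0) (p (nat_lit 0x8000000000000068605850a) (nat_lit 0) (p (nat_lit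 0x10705850682) (nat_lit 0) (p (nat_lit 0x10685048402) (nat_lit 0) (p (nat_lit 0x16000c) (nat_lit 0) (p (nat_lit 0x160004) (nat_lit 0) (p (nat_lit 0x60592) (nat_lit 0) (p (nat_lit 0x48512) (nat_lit 0) (p (nat_lit 0x50392) (nat_lit 0) (p (nat_lit 0x38312) (nat_lit 0) (p (nat_lit 0x40212) (nat_lit 0) (p (nat_lit 0x28192) (nat_lit 0) (p (nat_lit 0x30092) (nat_lit 0) (p (nat_lit 0x18012) (nat_lit 0) pn)))))))))))))))))))))))))))) :=
  Cl.node (nat_lit 0x1098a8908881a) (nat_lit 1) (by decide +kernel) (ClAll.succ ClAll.zero n24)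

def n34 : Cl (O (nat_lit 4)) (R (nat_lit 6353))
    (p (nat_lit 0x2a8258000000000088807870a) (nat_lit 0) (p (nat_lit 0xb000c) (nat_lit 1) (p (nat_lit 0xb0004) (nat_lit 0) (p (nat_lit 0x200014) (nat_lit 0) (p (nat_lit 0x109) (nat_lit 1) (p (nat_lit 0x89) (nat_lit 1) (p (nat_lit 0xc9) (nat_lit 1) (p (nat_lit 0xc1) (nat_lit 0) (p (nat_lit 0x119) (nat_lit 1) (p (nat_lit 0xd1) (nat_lit 0) (p (nat_lit 0x81) (nat_lit 0) (p (nat_lit 0x41) (nat_lit 1) (p (nat_lit 0x108090787089a) (nat_lit 0) (p (nat_lit 0x107888706861a) (nat_lit 0) (p (nat_lit 0x8000000000000070686078a) (nat_lit 0) (p (nat_lit 0x8000000000000068605850a) (nat_lit 0) (p (nat_lit 0x10705850682) (nat_lit 0) (p (nat_lit 0x10685048402) (nat_lit 0) (p (nat_lit 0x16000c) (nat_lit 0) (p (nat_lit 0x160004) (nat_lit 0) (p (nat_lit 0x60592) (nat_lit 0) (p (nat_lit 0x48512) (nat_lit 0) (p (nat_lit 0x50392) (nat_lit 0) (p (nat_lit 0x38312)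 (nat_lit 0) (p (nat_lit 0x40212) (nat_lit 0) (p (nat_lit 0x28192) (nat_lit 0) (p (nat_lit 0x30092) (nat_lit 0) (p (nat_lit 0x18012) (nat_lit 0) pn)))))))))))))))))))))))))))) :=
  Cl.node (nat_lit 0x2a8258000000000090888098a) (nat_lit 1) (by decide +kernel) (ClAll.succ ClAll.zero n25)

def n35 : Cl (O (nat_lit 4)) (R (nat_lit 6353))
    (p (nat_lit 0x2a8258000000000088807870a) (nat_lit 0) (p (nat_lit 0xb000c) (nat_lit 1) (p (nat_lit 0xb0004) (nat_lit 0) (p (nat_lit 0x200014) (nat_lit 0) (p (nat_lit 0x109) (nat_lit 1) (p (nat_lit 0x89) (nat_lit 1) (p (nat_lit 0x101) (nat_lit 0) (p (nat_lit 0xc1) (nat_lit 1) (p (nat_lit 0x119) (nat_lit 1) (p (nat_lit 0xd1) (nat_lit 0) (p (nat_lit 0x81) (nat_lit 0) (p (nat_lit 0x41) (nat_lit 1) (p (nat_lit 0x108090787089a) (nat_lit 0) (p (nat_lit 0x107888706861a) (nat_lit 0) (p (nat_lit 0x8000000000000070686078a) (nat_lit 0) (p (nat_lit 0x8000000000000068605850a)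 (nat_lit 0) (p (nat_lit 0x10705850682) (nat_lit 0) (p (nat_lit 0x10685048402) (nat_lit 0) (p (nat_lit 0x16000c) (nat_lit 0) (p (nat_lit 0x160004) (nat_lit 0) (p (nat_lit 0x60592) (nat_lit 0) (p (nat_lit 0x48512) (nat_lit 0) (p (nat_lit 0x50392) (nat_lit 0) (p (nat_lit 0x38312) (nat_lit 0) (p (nat_lit 0x40212) (nat_lit 0) (p (nat_lit 0x28192) (nat_lit 0) (p (nat_lit 0x30092) (nat_lit 0) (p (nat_lit 0x18012) (nat_lit 0) pn)))))))))))))))))))))))))))) :=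
  Cl.node (nat_lit 0x2a8258000000000090888098a) (nat_lit 1) (by decide +kernel) (ClAll.succ ClAll.zero n26)

def n36 : Cl (O (nat_lit 4)) (R (nat_lit 6353))
    (p (nat_lit 0x2a8258000000000090888098a) (nat_lit 0) (p (nat_lit 0x2a8258000000000088807870a) (nat_lit 0) (p (nat_lit 0xb000c) (nat_lit 1) (p (nat_lit 0xb0004) (nat_lit 0) (p (nat_lit 0x200014) (nat_lit 0) (p (nat_lit 0x89) (nat_lit 1) (p (nat_lit 0x101) (nat_lit 1) (p (nat_lit 0xc1) (nat_lit 1) (p (nat_lit 0x119) (nat_lit 1) (p (nat_lit 0xd1) (nat_lit 0) (p (nat_lit 0x81) (nat_lit 0) (p (nat_lit 0x41) (nat_lit 1) (p (nat_lit 0x108090787089a) (nat_lit 0) (p (nat_lit 0x107888706861a) (nat_lit 0) (p (nat_lit 0x8000000000000070686078a) (nat_lit 0) (p (nat_lit 0x8000000000000068605850a) (nat_lit 0) (p (nat_lit 0x10705850682) (nat_lit 0) (p (nat_lit 0x10685048402) (nat_lit 0) (p (nat_lit 0x16000c) (nat_lit 0) (p (nat_lit 0x160004)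 (nat_lit 0) (p (nat_lit 0x60592) (nat_lit 0) (p (nat_lit 0x48512) (nat_lit 0) (p (nat_lit 0x50392) (nat_lit 0) (p (nat_lit 0x38312) (nat_lit 0) (p (nat_lit 0x40212) (nat_lit 0) (p (nat_lit 0x28192) (nat_lit 0) (p (nat_lit 0x30092) (nat_lit 0) (p (nat_lit 0x18012) (nat_lit 0) pn)))))))))))))))))))))))))))) :=
  Cl.node (nat_lit 0x1098a8908881a) (nat_lit 1) (by decide +kernel) (ClAll.succ ClAll.zero n27)

def n37 : Cl (O (nat_lit 4)) (R (nat_lit 6353))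
    (p (nat_lit 0xb000c) (nat_lit 1) (p (nat_lit 0xb0004) (nat_lit 0) (p (nat_lit 0x119) (nat_lit 0) (p (nat_lit 0x200014) (nat_lit 0) (p (nat_lit 0xc9) (nat_lit 0) (p (nat_lit 0x89) (nat_lit 1) (p (nat_lit 0x109) (nat_lit 1) (p (nat_lit 0x101) (nat_lit 0) (p (nat_lit 0x111) (nat_lit 0) (p (nat_lit 0xd1) (nat_lit 1) (p (nat_lit 0x81) (nat_lit 0) (p (nat_lit 0x41) (nat_lit 1) (p (nat_lit 0x108090787089a) (nat_lit 0) (p (nat_lit 0x107888706861a) (nat_lit 0) (p (nat_lit 0x8000000000000070686078a) (nat_lit 0) (p (nat_lit 0x8000000000000068605850a) (nat_lit 0) (p (nat_lit 0x10705850682) (nat_lit 0) (p (nat_lit 0x10685048402) (nat_lit 0) (p (nat_lit 0x16000c) (nat_lit 0) (p (nat_lit 0x160004) (nat_lit 0) (p (nat_lit 0x60592) (nat_lit 0) (p (nat_lit 0x48512) (nat_lit 0) (p (nat_lit 0x50392) (nat_lit 0) (p (nat_lit 0x38312) (nat_lit 0) (p (nat_lit 0x40212) (nat_lit 0) (p (nat_lit 0x28192) (nat_lit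 0) (p (nat_lit 0x30092) (nat_lit 0) (p (nat_lit 0x18012) (nat_lit 0) pn)))))))))))))))))))))))))))) :=
  Cl.node (nat_lit 0x2a8258000000000088807870a) (nat_lit 1) (by decide +kernel) (ClAll.succ ClAll.zero n28)

def n38 : Cl (O (nat_lit 4)) (R (nat_lit 6353))
    (p (nat_lit 0xb000c) (nat_lit 1) (p (nat_lit 0xb0004) (nat_lit 0) (p (nat_lit 0x111) (nat_lit 0) (p (nat_lit 0x200014) (nat_lit 0) (p (nat_lit 0xc9) (nat_lit 1) (p (nat_lit 0x81) (nat_lit 0) (p (nat_lit 0x101) (nat_lit 1) (p (nat_lit 0x119) (nat_lit 0) (p (nat_lit 0xd1) (nat_lit 0) (p (nat_lit 0x89) (nat_lit 0) (p (nat_lit 0x41) (nat_lit 0) (p (nat_lit 0x108090787089a) (nat_lit 0) (p (nat_lit 0x107888706861a) (nat_lit 0) (p (nat_lit 0x8000000000000070686078a) (nat_lit 0) (p (nat_lit 0x8000000000000068605850a) (nat_lit 0) (p (nat_lit 0x10705850682) (nat_lit 0) (p (nat_lit 0x10685048402) (nat_lit 0) (p (nat_lit 0x16000c) (nat_lit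 0) (p (nat_lit 0x160004) (nat_lit 0) (p (nat_lit 0x60592) (nat_lit 0) (p (nat_lit 0x48512) (nat_lit 0) (p (nat_lit 0x50392) (nat_lit 0) (p (nat_lit 0x38312) (nat_lit 0) (p (nat_lit 0x40212) (nat_lit 0) (p (nat_lit 0x28192) (nat_lit 0) (p (nat_lit 0x30092) (nat_lit 0) (p (nat_lit 0x18012) (nat_lit 0) pn))))))))))))))))))))))))))) :=
  Cl.node (nat_lit 0x2a8258000000000088807870a) (nat_lit 1) (by decide +kernel) (ClAll.succ ClAll.zero n29)

def n39 : Cl (O (nat_lit 4)) (R (nat_lit 6353))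
    (p (nat_lit 0xb000c) (nat_lit 1) (p (nat_lit 0xb0004) (nat_lit 0) (p (nat_lit 0x119) (nat_lit 0) (p (nat_lit 0x200014) (nat_lit 0) (p (nat_lit 0xc1) (nat_lit 0) (p (nat_lit 0x81) (nat_lit 1) (p (nat_lit 0x101) (nat_lit 1) (p (nat_lit 0x111) (nat_lit 0) (p (nat_lit 0xd1) (nat_lit 1) (p (nat_lit 0x89) (nat_lit 0) (p (nat_lit 0x41) (nat_lit 0) (p (nat_lit 0x108090787089a) (nat_lit 0) (p (nat_lit 0x107888706861a) (nat_lit 0) (p (nat_lit 0x8000000000000070686078a) (nat_lit 0) (p (nat_lit 0x8000000000000068605850a) (nat_lit 0) (p (nat_lit 0x10705850682) (nat_lit 0) (p (nat_lit 0x10685048402) (nat_lit 0) (p (nat_lit 0x16000c) (nat_lit 0) (p (nat_lit 0x160004) (nat_lit 0) (p (nat_lit 0x60592) (nat_lit 0) (p (nat_lit 0x48512) (nat_lit 0) (p (nat_lit 0x50392) (nat_lit 0) (p (nat_lit 0x38312) (nat_lit 0) (p (nat_lit 0x40212) (nat_lit 0) (p (nat_lit 0x28192) (nat_lit 0) (p (nat_lit 0x30092) (nat_lit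 0) (p (nat_lit 0x18012) (nat_lit 0) pn))))))))))))))))))))))))))) :=
  Cl.node (nat_lit 0x2a8258000000000088807870a) (nat_lit 1) (by decide +kernel) (ClAll.succ ClAll.zero n30)

def n40 : Cl (O (nat_lit 4)) (R (nat_lit 6353))
    (p (nat_lit 0x2a8258000000000088807870a) (nat_lit 0) (p (nat_lit 0xb000c) (nat_lit 1) (p (nat_lit 0xb0004) (nat_lit 0) (p (nat_lit 0x200014) (nat_lit 0) (p (nat_lit 0x111) (nat_lit 1) (p (nat_lit 0xd1) (nat_lit 1) (p (nat_lit 0xc1) (nat_lit 0) (p (nat_lit 0x119) (nat_lit 1) (p (nat_lit 0xc9) (nat_lit 0) (p (nat_lit 0x89) (nat_lit 1) (p (nat_lit 0x41) (nat_lit 0) (p (nat_lit 0x108090787089a) (nat_lit 0) (p (nat_lit 0x107888706861a) (nat_lit 0) (p (nat_lit 0x8000000000000070686078a) (nat_lit 0) (p (nat_lit 0x8000000000000068605850a) (nat_lit 0) (p (nat_lit 0x10705850682) (nat_lit 0) (p (nat_lit 0x10685048402) (nat_lit 0) (p (nat_lit 0x16000c) (nat_lit 0) (p (nat_lit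 0x160004) (nat_lit 0) (p (nat_lit 0x60592) (nat_lit 0) (p (nat_lit 0x48512) (nat_lit 0) (p (nat_lit 0x50392) (nat_lit 0) (p (nat_lit 0x38312) (nat_lit 0) (p (nat_lit 0x40212) (nat_lit 0) (p (nat_lit 0x28192) (nat_lit 0) (p (nat_lit 0x30092) (nat_lit 0) (p (nat_lit 0x18012) (nat_lit 0) pn))))))))))))))))))))))))))) :=
  Cl.node (nat_lit 0x2a8258000000000090888098a) (nat_lit 1) (by decide +kernel) (ClAll.succ ClAll.zero n31)

def n41 : Cl (O (nat_lit 4)) (R (nat_lit 6353))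
    (p (nat_lit 0xb000c) (nat_lit 1) (p (nat_lit 0xb0004) (nat_lit 0) (p (nat_lit 0x200014) (nat_lit 0) (p (nat_lit 0xc9) (nat_lit 1) (p (nat_lit 0x89) (nat_lit 1) (p (nat_lit 0xc1) (nat_lit 0) (p (nat_lit 0x101) (nat_lit 1) (p (nat_lit 0x119) (nat_lit 0) (p (nat_lit 0xd1) (nat_lit 0) (p (nat_lit 0x81) (nat_lit 0) (p (nat_lit 0x41) (nat_lit 1) (p (nat_lit 0x108090787089a) (nat_lit 0) (p (nat_lit 0x107888706861a) (nat_lit 0) (p (nat_lit 0x8000000000000070686078a) (nat_lit 0) (p (nat_lit 0x8000000000000068605850a) (nat_lit 0) (p (nat_lit 0x10705850682) (nat_lit 0) (p (nat_lit 0x10685048402) (nat_lit 0) (p (nat_lit 0x16000c) (nat_lit 0) (p (nat_lit 0x160004) (nat_lit 0) (p (nat_lit 0x60592) (nat_lit 0) (p (nat_lit 0x48512) (nat_lit 0) (p (nat_lit 0x50392) (nat_lit 0) (p (nat_lit 0x38312) (nat_lit 0) (p (nat_lit 0x40212) (nat_lit 0) (p (nat_lit 0x28192) (nat_lit 0) (p (nat_lit 0x30092) (nat_lit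 0) (p (nat_lit 0x18012) (nat_lit 0) pn))))))))))))))))))))))))))) :=
  Cl.node (nat_lit 0x2a8258000000000088807870a) (nat_lit 1) (by decide +kernel) (ClAll.succ ClAll.zero n32)

def n42 : Cl (O (nat_lit 4)) (R (nat_lit 6353))
    (p (nat_lit 0x2a8258000000000088807870a) (nat_lit 0) (p (nat_lit 0xb000c) (nat_lit 1) (p (nat_lit 0xb0004) (nat_lit 0) (p (nat_lit 0x200014) (nat_lit 0) (p (nat_lit 0x89) (nat_lit 1) (p (nat_lit 0xc1) (nat_lit 1) (p (nat_lit 0x101) (nat_lit 1) (p (nat_lit 0x119) (nat_lit 0) (p (nat_lit 0xd1) (nat_lit 0) (p (nat_lit 0x81) (nat_lit 0) (p (nat_lit 0x41) (nat_lit 1) (p (nat_lit 0x108090787089a) (nat_lit 0) (p (nat_lit 0x107888706861a) (nat_lit 0) (p (nat_lit 0x8000000000000070686078a) (nat_lit 0) (p (nat_lit 0x8000000000000068605850a) (nat_lit 0) (p (nat_lit 0x10705850682) (nat_lit 0) (p (nat_lit 0x10685048402) (nat_lit 0) (p (nat_lit 0x16000c) (nat_lit 0) (p (nat_lit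 0x160004) (nat_lit 0) (p (nat_lit 0x60592) (nat_lit 0) (p (nat_lit 0x48512) (nat_lit 0) (p (nat_lit 0x50392) (nat_lit 0) (p (nat_lit 0x38312) (nat_lit 0) (p (nat_lit 0x40212) (nat_lit 0) (p (nat_lit 0x28192) (nat_lit 0) (p (nat_lit 0x30092) (nat_lit 0) (p (nat_lit 0x18012) (nat_lit 0) pn))))))))))))))))))))))))))) :=
  Cl.node (nat_lit 0x2a8258000000000090888098a) (nat_lit 1) (by decide +kernel) (ClAll.succ ClAll.zero n33)

def n43 : Cl (O (nat_lit 4)) (R (nat_lit 6353))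
    (p (nat_lit 0xb000c) (nat_lit 1) (p (nat_lit 0xb0004) (nat_lit 0) (p (nat_lit 0x200014) (nat_lit 0) (p (nat_lit 0x109) (nat_lit 1) (p (nat_lit 0x89) (nat_lit 1) (p (nat_lit 0xc9) (nat_lit 1) (p (nat_lit 0xc1) (nat_lit 0) (p (nat_lit 0x119) (nat_lit 1) (p (nat_lit 0xd1) (nat_lit 0) (p (nat_lit 0x81) (nat_lit 0) (p (nat_lit 0x41) (nat_lit 1) (p (nat_lit 0x108090787089a) (nat_lit 0) (p (nat_lit 0x107888706861a) (nat_lit 0) (p (nat_lit 0x8000000000000070686078a) (nat_lit 0) (p (nat_lit 0x8000000000000068605850a) (nat_lit 0) (p (nat_lit 0x10705850682) (nat_lit 0) (p (nat_lit 0x10685048402) (nat_lit 0) (p (nat_lit 0x16000c) (nat_lit 0) (p (nat_lit 0x160004) (nat_lit 0) (p (nat_lit 0x60592) (nat_lit 0) (p (nat_lit 0x48512) (nat_lit 0) (p (nat_lit 0x50392) (nat_lit 0) (p (nat_lit 0x38312) (nat_lit 0) (p (nat_lit 0x40212) (nat_lit 0) (p (nat_lit 0x28192) (nat_lit 0) (p (nat_lit 0x30092) (nat_lit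 0) (p (nat_lit 0x18012) (nat_lit 0) pn))))))))))))))))))))))))))) :=
  Cl.node (nat_lit 0x2a8258000000000088807870a) (nat_lit 1) (by decide +kernel) (ClAll.succ ClAll.zero n34)

def n44 : Cl (O (nat_lit 4)) (R (nat_lit 6353))
    (p (nat_lit 0xb000c) (nat_lit 1) (p (nat_lit 0xb0004) (nat_lit 0) (p (nat_lit 0x200014) (nat_lit 0) (p (nat_lit 0x109) (nat_lit 1) (p (nat_lit 0x89) (nat_lit 1) (p (nat_lit 0x101) (nat_lit 0) (p (nat_lit 0xc1) (nat_lit 1) (p (nat_lit 0x119) (nat_lit 1) (p (nat_lit 0xd1) (nat_lit 0) (p (nat_lit 0x81) (nat_lit 0) (p (nat_lit 0x41) (nat_lit 1) (p (nat_lit 0x108090787089a) (nat_lit 0) (p (nat_lit 0x107888706861a) (nat_lit 0) (p (nat_lit 0x8000000000000070686078a) (nat_lit 0) (p (nat_lit 0x8000000000000068605850a) (nat_lit 0) (p (nat_lit 0x10705850682) (nat_lit 0) (p (nat_lit 0x10685048402) (nat_lit 0) (p (nat_lit 0x16000c) (nat_lit 0) (p (nat_lit 0x160004) (nat_lit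 0) (p (nat_lit 0x60592) (nat_lit 0) (p (nat_lit 0x48512) (nat_lit 0) (p (nat_lit 0x50392) (nat_lit 0) (p (nat_lit 0x38312) (nat_lit 0) (p (nat_lit 0x40212) (nat_lit 0) (p (nat_lit 0x28192) (nat_lit 0) (p (nat_lit 0x30092) (nat_lit 0) (p (nat_lit 0x18012) (nat_lit 0) pn))))))))))))))))))))))))))) :=
  Cl.node (nat_lit 0x2a8258000000000088807870a) (nat_lit 1) (by decide +kernel) (ClAll.succ ClAll.zero n35)

def n45 : Cl (O (nat_lit 4)) (R (nat_lit 6353))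
    (p (nat_lit 0x2a8258000000000088807870a) (nat_lit 0) (p (nat_lit 0xb000c) (nat_lit 1) (p (nat_lit 0xb0004) (nat_lit 0) (p (nat_lit 0x200014) (nat_lit 0) (p (nat_lit 0x89) (nat_lit 1) (p (nat_lit 0x101) (nat_lit 1) (p (nat_lit 0xc1) (nat_lit 1) (p (nat_lit 0x119) (nat_lit 1) (p (nat_lit 0xd1) (nat_lit 0) (p (nat_lit 0x81) (nat_lit 0) (p (nat_lit 0x41) (nat_lit 1) (p (nat_lit 0x108090787089a) (nat_lit 0) (p (nat_lit 0x107888706861a) (nat_lit 0) (p (nat_lit 0x8000000000000070686078a) (nat_lit 0) (p (nat_lit 0x8000000000000068605850a) (nat_lit 0) (p (nat_lit 0x10705850682) (nat_lit 0) (p (nat_lit 0x10685048402) (nat_lit 0) (p (nat_lit 0x16000c) (nat_lit 0) (p (nat_lit 0x160004) (nat_lit 0) (p (nat_lit 0x60592) (nat_lit 0) (p (nat_lit 0x48512) (nat_lit 0) (p (nat_lit 0x50392) (nat_lit 0) (p (nat_lit 0x38312) (nat_lit 0) (p (nat_lit 0x40212) (nat_lit 0) (p (nat_lit 0x28192) (nat_lit 0)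 (p (nat_lit 0x30092) (nat_lit 0) (p (nat_lit 0x18012) (nat_lit 0) pn))))))))))))))))))))))))))) :=
  Cl.node (nat_lit 0x2a8258000000000090888098a) (nat_lit 1) (by decide +kernel) (ClAll.succ ClAll.zero n36)

def n46 : Cl (O (nat_lit 4)) (R (nat_lit 6353))
    (p (nat_lit 0xb0004) (nat_lit 0) (p (nat_lit 0x119) (nat_lit 0) (p (nat_lit 0x200014) (nat_lit 0) (p (nat_lit 0xc9) (nat_lit 0) (p (nat_lit 0x89) (nat_lit 1) (p (nat_lit 0x109) (nat_lit 1) (p (nat_lit 0x101) (nat_lit 0) (p (nat_lit 0x111) (nat_lit 0) (p (nat_lit 0xd1) (nat_lit 1) (p (nat_lit 0x81) (nat_lit 0) (p (nat_lit 0x41) (nat_lit 1) (p (nat_lit 0x108090787089a) (nat_lit 0) (p (nat_lit 0x107888706861a) (nat_lit 0) (p (nat_lit 0x8000000000000070686078a) (nat_lit 0) (p (nat_lit 0x8000000000000068605850a) (nat_lit 0) (p (nat_lit 0x10705850682) (nat_lit 0) (p (nat_lit 0x10685048402) (nat_lit 0) (p (nat_lit 0x16000c) (nat_lit 0)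 (p (nat_lit 0x160004) (nat_lit 0) (p (nat_lit 0x60592) (nat_lit 0) (p (nat_lit 0x48512) (nat_lit 0) (p (nat_lit 0x50392) (nat_lit 0) (p (nat_lit 0x38312) (nat_lit 0) (p (nat_lit 0x40212) (nat_lit 0) (p (nat_lit 0x28192) (nat_lit 0) (p (nat_lit 0x30092) (nat_lit 0) (p (nat_lit 0x18012) (nat_lit 0) pn))))))))))))))))))))))))))) :=
  Cl.node (nat_lit 0xb000c) (nat_lit 2) (by decide +kernel) (ClAll.succ (ClAll.succ ClAll.zero s132) n37)

def n47 : Cl (O (nat_lit 4)) (R (nat_lit 6353))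
    (p (nat_lit 0xb0004) (nat_lit 0) (p (nat_lit 0x119) (nat_lit 1) (p (nat_lit 0x200014) (nat_lit 0) (p (nat_lit 0xc9) (nat_lit 0) (p (nat_lit 0x89) (nat_lit 1) (p (nat_lit 0x109) (nat_lit 1) (p (nat_lit 0x101) (nat_lit 0) (p (nat_lit 0x111) (nat_lit 0) (p (nat_lit 0xd1) (nat_lit 1) (p (nat_lit 0x81) (nat_lit 0) (p (nat_lit 0x41) (nat_lit 1) (p (nat_lit 0x108090787089a) (nat_lit 0) (p (nat_lit 0x107888706861a) (nat_lit 0) (p (nat_lit 0x8000000000000070686078a) (nat_lit 0) (p (nat_lit 0x8000000000000068605850a) (nat_lit 0) (p (nat_lit 0x10705850682) (nat_lit 0) (p (nat_lit 0x10685048402) (nat_lit 0) (p (nat_lit 0x16000c) (nat_lit 0) (p (nat_lit 0x160004) (nat_lit 0) (p (nat_lit 0x60592) (nat_lit 0) (p (nat_lit 0x48512) (nat_lit 0) (p (nat_lit 0x50392) (nat_lit 0) (p (nat_lit 0x38312) (nat_lit 0) (p (nat_lit 0x40212) (nat_lit 0) (p (nat_lit 0x28192) (nat_lit 0) (p (nat_lit 0x30092) (nat_lit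 0) (p (nat_lit 0x18012) (nat_lit 0) pn))))))))))))))))))))))))))) :=
  Cl.node (nat_lit 0xb000c) (nat_lit 2) (by decide +kernel) (ClAll.succ (ClAll.succ ClAll.zero s136) s137)

def n48 : Cl (O (nat_lit 4)) (R (nat_lit 6353))
    (p (nat_lit 0xb0004) (nat_lit 0) (p (nat_lit 0x111) (nat_lit 0) (p (nat_lit 0x200014) (nat_lit 0) (p (nat_lit 0xc9) (nat_lit 1) (p (nat_lit 0x81) (nat_lit 0) (p (nat_lit 0x101) (nat_lit 1) (p (nat_lit 0x119) (nat_lit 0) (p (nat_lit 0xd1) (nat_lit 0) (p (nat_lit 0x89) (nat_lit 0) (p (nat_lit 0x41) (nat_lit 0) (p (nat_lit 0x108090787089a) (nat_lit 0) (p (nat_lit 0x107888706861a) (nat_lit 0) (p (nat_lit 0x8000000000000070686078a) (nat_lit 0) (p (nat_lit 0x8000000000000068605850a) (nat_lit 0) (p (nat_lit 0x10705850682) (nat_lit 0) (p (nat_lit 0x10685048402) (nat_lit 0) (p (nat_lit 0x16000c) (nat_lit 0) (p (nat_lit 0x160004) (nat_lit 0) (p (nat_lit 0x60592) (nat_lit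 0) (p (nat_lit 0x48512) (nat_lit 0) (p (nat_lit 0x50392) (nat_lit 0) (p (nat_lit 0x38312) (nat_lit 0) (p (nat_lit 0x40212) (nat_lit 0) (p (nat_lit 0x28192) (nat_lit 0) (p (nat_lit 0x30092) (nat_lit 0) (p (nat_lit 0x18012) (nat_lit 0) pn)))))))))))))))))))))))))) :=
  Cl.node (nat_lit 0xb000c) (nat_lit 2) (by decide +kernel) (ClAll.succ (ClAll.succ ClAll.zero s6) n38)

def n49 : Cl (O (nat_lit 4)) (R (nat_lit 6353))
    (p (nat_lit 0xb0004) (nat_lit 0) (p (nat_lit 0x200014) (nat_lit 0) (p (nat_lit 0xc9) (nat_lit 0) (p (nat_lit 0xc1) (nat_lit 0) (p (nat_lit 0x81) (nat_lit 1) (p (nat_lit 0x101) (nat_lit 1) (p (nat_lit 0x119) (nat_lit 0) (p (nat_lit 0xd1) (nat_lit 0) (p (nat_lit 0x89) (nat_lit 0) (p (nat_lit 0x41) (nat_lit 0) (p (nat_lit 0x108090787089a) (nat_lit 0) (p (nat_lit 0x107888706861a) (nat_lit 0) (p (nat_lit 0x8000000000000070686078a) (nat_lit 0) (p (nat_lit 0x8000000000000068605850a)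 (nat_lit 0) (p (nat_lit 0x10705850682) (nat_lit 0) (p (nat_lit 0x10685048402) (nat_lit 0) (p (nat_lit 0x16000c) (nat_lit 0) (p (nat_lit 0x160004) (nat_lit 0) (p (nat_lit 0x60592) (nat_lit 0) (p (nat_lit 0x48512) (nat_lit 0) (p (nat_lit 0x50392) (nat_lit 0) (p (nat_lit 0x38312) (nat_lit 0) (p (nat_lit 0x40212) (nat_lit 0) (p (nat_lit 0x28192) (nat_lit 0) (p (nat_lit 0x30092) (nat_lit 0) (p (nat_lit 0x18012) (nat_lit 0) pn)))))))))))))))))))))))))) :=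
  Cl.node (nat_lit 0xb000c) (nat_lit 2) (by decide +kernel) (ClAll.succ (ClAll.succ ClAll.zero s12) s13)

def n50 : Cl (O (nat_lit 4)) (R (nat_lit 6353))
    (p (nat_lit 0xb0004) (nat_lit 0) (p (nat_lit 0x200014) (nat_lit 0) (p (nat_lit 0xc9) (nat_lit 1) (p (nat_lit 0xc1) (nat_lit 0) (p (nat_lit 0x81) (nat_lit 1) (p (nat_lit 0x101) (nat_lit 1) (p (nat_lit 0x119) (nat_lit 0) (p (nat_lit 0xd1) (nat_lit 0) (p (nat_lit 0x89) (nat_lit 0) (p (nat_lit 0x41) (nat_lit 0) (p (nat_lit 0x108090787089a) (nat_lit 0) (p (nat_lit 0x107888706861a) (nat_lit 0) (p (nat_lit 0x8000000000000070686078a) (nat_lit 0) (p (nat_lit 0x8000000000000068605850a) (nat_lit 0) (p (nat_lit 0x10705850682) (nat_lit 0) (p (nat_lit 0x10685048402) (nat_lit 0) (p (nat_lit 0x16000c) (nat_lit 0) (p (nat_lit 0x160004) (nat_lit 0) (p (nat_lit 0x60592) (nat_lit 0) (p (nat_lit 0x48512) (nat_lit 0) (p (nat_lit 0x50392) (nat_lit 0) (p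 (nat_lit 0x38312) (nat_lit 0) (p (nat_lit 0x40212) (nat_lit 0) (p (nat_lit 0x28192) (nat_lit 0) (p (nat_lit 0x30092) (nat_lit 0) (p (nat_lit 0x18012) (nat_lit 0) pn)))))))))))))))))))))))))) :=
  Cl.node (nat_lit 0xb000c) (nat_lit 2) (by decide +kernel) (ClAll.succ (ClAll.succ ClAll.zero s16) s17)

def n51 : Cl (O (nat_lit 4)) (R (nat_lit 6353))
    (p (nat_lit 0xb0004) (nat_lit 0) (p (nat_lit 0x200014) (nat_lit 0) (p (nat_lit 0x109) (nat_lit 1) (p (nat_lit 0x101) (nat_lit 0) (p (nat_lit 0x81) (nat_lit 1) (p (nat_lit 0xc1) (nat_lit 1) (p (nat_lit 0x119) (nat_lit 1) (p (nat_lit 0xd1) (nat_lit 0) (p (nat_lit 0x89) (nat_lit 0) (p (nat_lit 0x41) (nat_lit 0) (p (nat_lit 0x108090787089a) (nat_lit 0) (p (nat_lit 0x107888706861a) (nat_lit 0) (p (nat_lit 0x8000000000000070686078a) (nat_lit 0) (p (nat_lit 0x8000000000000068605850a) (nat_lit 0) (p (nat_lit 0x10705850682) (nat_lit 0) (p (nat_lit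 0x10685048402) (nat_lit 0) (p (nat_lit 0x16000c) (nat_lit 0) (p (nat_lit 0x160004) (nat_lit 0) (p (nat_lit 0x60592) (nat_lit 0) (p (nat_lit 0x48512) (nat_lit 0) (p (nat_lit 0x50392) (nat_lit 0) (p (nat_lit 0x38312) (nat_lit 0) (p (nat_lit 0x40212) (nat_lit 0) (p (nat_lit 0x28192) (nat_lit 0) (p (nat_lit 0x30092) (nat_lit 0) (p (nat_lit 0x18012) (nat_lit 0) pn)))))))))))))))))))))))))) :=
  Cl.node (nat_lit 0xb000c) (nat_lit 2) (by decide +kernel) (ClAll.succ (ClAll.succ ClAll.zero s33) s34)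

def n52 : Cl (O (nat_lit 4)) (R (nat_lit 6353))
    (p (nat_lit 0xb0004) (nat_lit 0) (p (nat_lit 0x119) (nat_lit 0) (p (nat_lit 0x200014) (nat_lit 0) (p (nat_lit 0xc1) (nat_lit 0) (p (nat_lit 0x81) (nat_lit 1) (p (nat_lit 0x101) (nat_lit 1) (p (nat_lit 0x111) (nat_lit 0) (p (nat_lit 0xd1) (nat_lit 1) (p (nat_lit 0x89) (nat_lit 0) (p (nat_lit 0x41) (nat_lit 0) (p (nat_lit 0x108090787089a) (nat_lit 0) (p (nat_lit 0x107888706861a) (nat_lit 0) (p (nat_lit 0x8000000000000070686078a) (nat_lit 0) (p (nat_lit 0x8000000000000068605850a) (nat_lit 0) (p (nat_lit 0x10705850682) (nat_lit 0) (p (nat_lit 0x10685048402) (nat_lit 0) (p (nat_lit 0x16000c) (nat_lit 0) (p (nat_lit 0x160004) (nat_lit 0) (p (nat_lit 0x60592) (nat_lit 0) (p (nat_lit 0x48512) (nat_lit 0) (p (nat_lit 0x50392) (nat_lit 0) (p (nat_lit 0x38312) (nat_lit 0) (p (nat_lit 0x40212) (nat_lit 0) (p (nat_lit 0x28192) (nat_lit 0) (p (nat_lit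 0x30092) (nat_lit 0) (p (nat_lit 0x18012) (nat_lit 0) pn)))))))))))))))))))))))))) :=
  Cl.node (nat_lit 0xb000c) (nat_lit 2) (by decide +kernel) (ClAll.succ (ClAll.succ ClAll.zero s43) n39)

def n53 : Cl (O (nat_lit 4)) (R (nat_lit 6353))
    (p (nat_lit 0xb000c) (nat_lit 1) (p (nat_lit 0xb0004) (nat_lit 0) (p (nat_lit 0x200014) (nat_lit 0) (p (nat_lit 0x111) (nat_lit 1) (p (nat_lit 0xd1) (nat_lit 1) (p (nat_lit 0xc1) (nat_lit 0) (p (nat_lit 0x119) (nat_lit 1) (p (nat_lit 0xc9) (nat_lit 0) (p (nat_lit 0x89) (nat_lit 1) (p (nat_lit 0x41) (nat_lit 0) (p (nat_lit 0x108090787089a) (nat_lit 0) (p (nat_lit 0x107888706861a) (nat_lit 0) (p (nat_lit 0x8000000000000070686078a) (nat_lit 0) (p (nat_lit 0x8000000000000068605850a) (nat_lit 0) (p (nat_lit 0x10705850682) (nat_lit 0) (p (nat_lit 0x10685048402) (nat_lit 0) (p (nat_lit 0x16000c) (nat_lit 0) (p (nat_lit 0x160004) (nat_lit 0) (p (nat_lit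 0x60592) (nat_lit 0) (p (nat_lit 0x48512) (nat_lit 0) (p (nat_lit 0x50392) (nat_lit 0) (p (nat_lit 0x38312) (nat_lit 0) (p (nat_lit 0x40212) (nat_lit 0) (p (nat_lit 0x28192) (nat_lit 0) (p (nat_lit 0x30092) (nat_lit 0) (p (nat_lit 0x18012) (nat_lit 0) pn)))))))))))))))))))))))))) :=
  Cl.node (nat_lit 0x2a8258000000000088807870a) (nat_lit 1) (by decide +kernel) (ClAll.succ ClAll.zero n40)

def n54 : Cl (O (nat_lit 4)) (R (nat_lit 6353))
    (p (nat_lit 0xb0004) (nat_lit 0) (p (nat_lit 0x111) (nat_lit 0) (p (nat_lit 0x200014) (nat_lit 0) (p (nat_lit 0x89) (nat_lit 0) (p (nat_lit 0x109) (nat_lit 1) (p (nat_lit 0x101) (nat_lit 0) (p (nat_lit 0x119) (nat_lit 0) (p (nat_lit 0xd1) (nat_lit 0) (p (nat_lit 0x81) (nat_lit 0) (p (nat_lit 0x41) (nat_lit 1) (p (nat_lit 0x108090787089a) (nat_lit 0) (p (nat_lit 0x107888706861a) (nat_lit 0) (p (nat_lit 0x8000000000000070686078a) (nat_lit 0) (p (nat_lit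 0x8000000000000068605850a) (nat_lit 0) (p (nat_lit 0x10705850682) (nat_lit 0) (p (nat_lit 0x10685048402) (nat_lit 0) (p (nat_lit 0x16000c) (nat_lit 0) (p (nat_lit 0x160004) (nat_lit 0) (p (nat_lit 0x60592) (nat_lit 0) (p (nat_lit 0x48512) (nat_lit 0) (p (nat_lit 0x50392) (nat_lit 0) (p (nat_lit 0x38312) (nat_lit 0) (p (nat_lit 0x40212) (nat_lit 0) (p (nat_lit 0x28192) (nat_lit 0) (p (nat_lit 0x30092) (nat_lit 0) (p (nat_lit 0x18012) (nat_lit 0) pn)))))))))))))))))))))))))) :=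
  Cl.node (nat_lit 0xb000c) (nat_lit 2) (by decide +kernel) (ClAll.succ (ClAll.succ ClAll.zero s77) s78)

def n55 : Cl (O (nat_lit 4)) (R (nat_lit 6353))
    (p (nat_lit 0xb0004) (nat_lit 0) (p (nat_lit 0x200014) (nat_lit 0) (p (nat_lit 0xc9) (nat_lit 0) (p (nat_lit 0x89) (nat_lit 1) (p (nat_lit 0x109) (nat_lit 1) (p (nat_lit 0x101) (nat_lit 0) (p (nat_lit 0x119) (nat_lit 0) (p (nat_lit 0xd1) (nat_lit 0) (p (nat_lit 0x81) (nat_lit 0) (p (nat_lit 0x41) (nat_lit 1) (p (nat_lit 0x108090787089a) (nat_lit 0) (p (nat_lit 0x107888706861a) (nat_lit 0) (p (nat_lit 0x8000000000000070686078a) (nat_lit 0) (p (nat_lit 0x8000000000000068605850a) (nat_lit 0) (p (nat_lit 0x10705850682) (nat_lit 0) (p (nat_lit 0x10685048402) (nat_lit 0) (p (nat_lit 0x16000c) (nat_lit 0) (p (nat_lit 0x160004) (nat_lit 0) (p (nat_lit 0x60592) (nat_lit 0) (p (nat_lit 0x48512) (nat_lit 0) (p (nat_lit 0x50392) (nat_lit 0)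 (p (nat_lit 0x38312) (nat_lit 0) (p (nat_lit 0x40212) (nat_lit 0) (p (nat_lit 0x28192) (nat_lit 0) (p (nat_lit 0x30092) (nat_lit 0) (p (nat_lit 0x18012) (nat_lit 0) pn)))))))))))))))))))))))))) :=
  Cl.node (nat_lit 0xb000c) (nat_lit 2) (by decide +kernel) (ClAll.succ (ClAll.succ ClAll.zero s82) s83)

def n56 : Cl (O (nat_lit 4)) (R (nat_lit 6353))
    (p (nat_lit 0xb0004) (nat_lit 0) (p (nat_lit 0x200014) (nat_lit 0) (p (nat_lit 0xc9) (nat_lit 1) (p (nat_lit 0x89) (nat_lit 1) (p (nat_lit 0xc1) (nat_lit 0) (p (nat_lit 0x101) (nat_lit 1) (p (nat_lit 0x119) (nat_lit 0) (p (nat_lit 0xd1) (nat_lit 0) (p (nat_lit 0x81) (nat_lit 0) (p (nat_lit 0x41) (nat_lit 1) (p (nat_lit 0x108090787089a) (nat_lit 0) (p (nat_lit 0x107888706861a) (nat_lit 0) (p (nat_lit 0x8000000000000070686078a) (nat_lit 0) (p (nat_lit 0x8000000000000068605850a) (nat_lit 0) (p (nat_lit 0x10705850682) (nat_lit 0) (p (nat_lit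 0x10685048402) (nat_lit 0) (p (nat_lit 0x16000c) (nat_lit 0) (p (nat_lit 0x160004) (nat_lit 0) (p (nat_lit 0x60592) (nat_lit 0) (p (nat_lit 0x48512) (nat_lit 0) (p (nat_lit 0x50392) (nat_lit 0) (p (nat_lit 0x38312) (nat_lit 0) (p (nat_lit 0x40212) (nat_lit 0) (p (nat_lit 0x28192) (nat_lit 0) (p (nat_lit 0x30092) (nat_lit 0) (p (nat_lit 0x18012) (nat_lit 0) pn)))))))))))))))))))))))))) :=
  Cl.node (nat_lit 0xb000c) (nat_lit 2) (by decide +kernel) (ClAll.succ (ClAll.succ ClAll.zero s91) n41)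

def n57 : Cl (O (nat_lit 4)) (R (nat_lit 6353))
    (p (nat_lit 0xb000c) (nat_lit 0) (p (nat_lit 0xb0004) (nat_lit 0) (p (nat_lit 0x200014) (nat_lit 0) (p (nat_lit 0x89) (nat_lit 1) (p (nat_lit 0xc1) (nat_lit 1) (p (nat_lit 0x101) (nat_lit 1) (p (nat_lit 0x119) (nat_lit 0) (p (nat_lit 0xd1) (nat_lit 0) (p (nat_lit 0x81) (nat_lit 0) (p (nat_lit 0x41) (nat_lit 1) (p (nat_lit 0x108090787089a) (nat_lit 0) (p (nat_lit 0x107888706861a) (nat_lit 0) (p (nat_lit 0x8000000000000070686078a) (nat_lit 0) (p (nat_lit 0x8000000000000068605850a) (nat_lit 0) (p (nat_lit 0x10705850682) (nat_lit 0) (p (nat_lit 0x10685048402) (nat_lit 0) (p (nat_lit 0x16000c) (nat_lit 0) (p (nat_lit 0x160004) (nat_lit 0) (p (nat_lit 0x60592) (nat_lit 0) (p (nat_lit 0x48512) (nat_lit 0) (p (nat_lit 0x50392) (nat_lit 0) (p (nat_lit 0x38312) (nat_lit 0) (p (nat_lit 0x40212) (nat_lit 0) (p (nat_lit 0x28192) (nat_lit 0) (p (nat_lit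 0x30092) (nat_lit 0) (p (nat_lit 0x18012) (nat_lit 0) pn)))))))))))))))))))))))))) :=
  Cl.node (nat_lit 0x109) (nat_lit 2) (by decide +kernel) (ClAll.succ (ClAll.succ ClAll.zero s98) s99)

def n58 : Cl (O (nat_lit 4)) (R (nat_lit 6353))
    (p (nat_lit 0xb000c) (nat_lit 1) (p (nat_lit 0xb0004) (nat_lit 0) (p (nat_lit 0x200014) (nat_lit 0) (p (nat_lit 0x89) (nat_lit 1) (p (nat_lit 0xc1) (nat_lit 1) (p (nat_lit 0x101) (nat_lit 1) (p (nat_lit 0x119) (nat_lit 0) (p (nat_lit 0xd1) (nat_lit 0) (p (nat_lit 0x81) (nat_lit 0) (p (nat_lit 0x41) (nat_lit 1) (p (nat_lit 0x108090787089a) (nat_lit 0) (p (nat_lit 0x107888706861a) (nat_lit 0) (p (nat_lit 0x8000000000000070686078a) (nat_lit 0) (p (nat_lit 0x8000000000000068605850a) (nat_lit 0) (p (nat_lit 0x10705850682) (nat_lit 0) (p (nat_lit 0x10685048402) (nat_lit 0) (p (nat_lit 0x16000c) (nat_lit 0) (p (nat_lit 0x160004) (nat_lit 0) (p (nat_lit 0x60592)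 (nat_lit 0) (p (nat_lit 0x48512) (nat_lit 0) (p (nat_lit 0x50392) (nat_lit 0) (p (nat_lit 0x38312) (nat_lit 0) (p (nat_lit 0x40212) (nat_lit 0) (p (nat_lit 0x28192) (nat_lit 0) (p (nat_lit 0x30092) (nat_lit 0) (p (nat_lit 0x18012) (nat_lit 0) pn)))))))))))))))))))))))))) :=
  Cl.node (nat_lit 0x2a8258000000000088807870a) (nat_lit 1) (by decide +kernel) (ClAll.succ ClAll.zero n42)

def n59 : Cl (O (nat_lit 4)) (R (nat_lit 6353))
    (p (nat_lit 0xb0004) (nat_lit 0) (p (nat_lit 0x200014) (nat_lit 0) (p (nat_lit 0x109) (nat_lit 1) (p (nat_lit 0x89) (nat_lit 1) (p (nat_lit 0xc9) (nat_lit 1) (p (nat_lit 0xc1) (nat_lit 0) (p (nat_lit 0x119) (nat_lit 1) (p (nat_lit 0xd1) (nat_lit 0) (p (nat_lit 0x81) (nat_lit 0) (p (nat_lit 0x41) (nat_lit 1) (p (nat_lit 0x108090787089a) (nat_lit 0) (p (nat_lit 0x107888706861a) (nat_lit 0) (p (nat_lit 0x8000000000000070686078a) (nat_lit 0) (p (nat_lit 0x8000000000000068605850a)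 (nat_lit 0) (p (nat_lit 0x10705850682) (nat_lit 0) (p (nat_lit 0x10685048402) (nat_lit 0) (p (nat_lit 0x16000c) (nat_lit 0) (p (nat_lit 0x160004) (nat_lit 0) (p (nat_lit 0x60592) (nat_lit 0) (p (nat_lit 0x48512) (nat_lit 0) (p (nat_lit 0x50392) (nat_lit 0) (p (nat_lit 0x38312) (nat_lit 0) (p (nat_lit 0x40212) (nat_lit 0) (p (nat_lit 0x28192) (nat_lit 0) (p (nat_lit 0x30092) (nat_lit 0) (p (nat_lit 0x18012) (nat_lit 0) pn)))))))))))))))))))))))))) :=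
  Cl.node (nat_lit 0xb000c) (nat_lit 2) (by decide +kernel) (ClAll.succ (ClAll.succ ClAll.zero s109) n43)

def n60 : Cl (O (nat_lit 4)) (R (nat_lit 6353))
    (p (nat_lit 0xb0004) (nat_lit 0) (p (nat_lit 0x200014) (nat_lit 0) (p (nat_lit 0x109) (nat_lit 1) (p (nat_lit 0x89) (nat_lit 1) (p (nat_lit 0x101) (nat_lit 0) (p (nat_lit 0xc1) (nat_lit 1) (p (nat_lit 0x119) (nat_lit 1) (p (nat_lit 0xd1) (nat_lit 0) (p (nat_lit 0x81) (nat_lit 0) (p (nat_lit 0x41) (nat_lit 1) (p (nat_lit 0x108090787089a) (nat_lit 0) (p (nat_lit 0x107888706861a) (nat_lit 0) (p (nat_lit 0x8000000000000070686078a) (nat_lit 0) (p (nat_lit 0x8000000000000068605850a) (nat_lit 0) (p (nat_lit 0x10705850682) (nat_lit 0) (p (nat_lit 0x10685048402) (nat_lit 0) (p (nat_lit 0x16000c) (nat_lit 0) (p (nat_lit 0x160004) (nat_lit 0) (p (nat_lit 0x60592) (nat_lit 0) (p (nat_lit 0x48512) (nat_lit 0) (p (nat_lit 0x50392) (nat_lit 0)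 (p (nat_lit 0x38312) (nat_lit 0) (p (nat_lit 0x40212) (nat_lit 0) (p (nat_lit 0x28192) (nat_lit 0) (p (nat_lit 0x30092) (nat_lit 0) (p (nat_lit 0x18012) (nat_lit 0) pn)))))))))))))))))))))))))) :=
  Cl.node (nat_lit 0xb000c) (nat_lit 2) (by decide +kernel) (ClAll.succ (ClAll.succ ClAll.zero s117) n44)

def n61 : Cl (O (nat_lit 4)) (R (nat_lit 6353))
    (p (nat_lit 0xb000c) (nat_lit 0) (p (nat_lit 0xb0004) (nat_lit 0) (p (nat_lit 0x200014) (nat_lit 0) (p (nat_lit 0x89) (nat_lit 1) (p (nat_lit 0x101) (nat_lit 1) (p (nat_lit 0xc1) (nat_lit 1) (p (nat_lit 0x119) (nat_lit 1) (p (nat_lit 0xd1) (nat_lit 0) (p (nat_lit 0x81) (nat_lit 0) (p (nat_lit 0x41) (nat_lit 1) (p (nat_lit 0x108090787089a) (nat_lit 0) (p (nat_lit 0x107888706861a) (nat_lit 0) (p (nat_lit 0x8000000000000070686078a) (nat_lit 0) (p (nat_lit 0x8000000000000068605850a) (nat_lit 0) (p (nat_lit 0x10705850682) (nat_lit 0) (p (nat_lit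 0x10685048402) (nat_lit 0) (p (nat_lit 0x16000c) (nat_lit 0) (p (nat_lit 0x160004) (nat_lit 0) (p (nat_lit 0x60592) (nat_lit 0) (p (nat_lit 0x48512) (nat_lit 0) (p (nat_lit 0x50392) (nat_lit 0) (p (nat_lit 0x38312) (nat_lit 0) (p (nat_lit 0x40212) (nat_lit 0) (p (nat_lit 0x28192) (nat_lit 0) (p (nat_lit 0x30092) (nat_lit 0) (p (nat_lit 0x18012) (nat_lit 0) pn)))))))))))))))))))))))))) :=
  Cl.node (nat_lit 0xc9) (nat_lit 2) (by decide +kernel) (ClAll.succ (ClAll.succ ClAll.zero s123) s124)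

def n62 : Cl (O (nat_lit 4)) (R (nat_lit 6353))
    (p (nat_lit 0xb000c) (nat_lit 1) (p (nat_lit 0xb0004) (nat_lit 0) (p (nat_lit 0x200014) (nat_lit 0) (p (nat_lit 0x89) (nat_lit 1) (p (nat_lit 0x101) (nat_lit 1) (p (nat_lit 0xc1) (nat_lit 1) (p (nat_lit 0x119) (nat_lit 1) (p (nat_lit 0xd1) (nat_lit 0) (p (nat_lit 0x81) (nat_lit 0) (p (nat_lit 0x41) (nat_lit 1) (p (nat_lit 0x108090787089a) (nat_lit 0) (p (nat_lit 0x107888706861a) (nat_lit 0) (p (nat_lit 0x8000000000000070686078a) (nat_lit 0) (p (nat_lit 0x8000000000000068605850a) (nat_lit 0) (p (nat_lit 0x10705850682) (nat_lit 0) (p (nat_lit 0x10685048402) (nat_lit 0) (p (nat_lit 0x16000c) (nat_lit 0) (p (nat_lit 0x160004) (nat_lit 0) (p (nat_lit 0x60592) (nat_lit 0) (p (nat_lit 0x48512) (nat_lit 0) (p (nat_lit 0x50392) (nat_lit 0) (p (nat_lit 0x38312) (nat_lit 0) (p (nat_lit 0x40212) (nat_lit 0) (p (nat_lit 0x28192) (nat_lit 0) (p (nat_lit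 0x30092) (nat_lit 0) (p (nat_lit 0x18012) (nat_lit 0) pn)))))))))))))))))))))))))) :=
  Cl.node (nat_lit 0x2a8258000000000088807870a) (nat_lit 1) (by decide +kernel) (ClAll.succ ClAll.zero n45)

def n63 : Cl (O (nat_lit 4)) (R (nat_lit 6353))
    (p (nat_lit 0x119) (nat_lit 0) (p (nat_lit 0x200014) (nat_lit 0) (p (nat_lit 0xc9) (nat_lit 0) (p (nat_lit 0x89) (nat_lit 1) (p (nat_lit 0x109) (nat_lit 1) (p (nat_lit 0x101) (nat_lit 0) (p (nat_lit 0x111) (nat_lit 0) (p (nat_lit 0xd1) (nat_lit 1) (p (nat_lit 0x81) (nat_lit 0) (p (nat_lit 0x41) (nat_lit 1) (p (nat_lit 0x108090787089a) (nat_lit 0) (p (nat_lit 0x107888706861a) (nat_lit 0) (p (nat_lit 0x8000000000000070686078a) (nat_lit 0) (p (nat_lit 0x8000000000000068605850a) (nat_lit 0) (p (nat_lit 0x10705850682) (nat_lit 0) (p (nat_lit 0x10685048402) (nat_lit 0) (p (nat_lit 0x16000c) (nat_lit 0) (p (nat_lit 0x160004) (nat_lit 0) (p (nat_lit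 0x60592) (nat_lit 0) (p (nat_lit 0x48512) (nat_lit 0) (p (nat_lit 0x50392) (nat_lit 0) (p (nat_lit 0x38312) (nat_lit 0) (p (nat_lit 0x40212) (nat_lit 0) (p (nat_lit 0x28192) (nat_lit 0) (p (nat_lit 0x30092) (nat_lit 0) (p (nat_lit 0x18012) (nat_lit 0) pn)))))))))))))))))))))))))) :=
  Cl.node (nat_lit 0xb0004) (nat_lit 2) (by decide +kernel) (ClAll.succ (ClAll.succ ClAll.zero n46) s135)

def n64 : Cl (O (nat_lit 4)) (R (nat_lit 6353))
    (p (nat_lit 0x119) (nat_lit 1) (p (nat_lit 0x200014) (nat_lit 0) (p (nat_lit 0xc9) (nat_lit 0) (p (nat_lit 0x89) (nat_lit 1) (p (nat_lit 0x109) (nat_lit 1) (p (nat_lit 0x101) (nat_lit 0) (p (nat_lit 0x111) (nat_lit 0) (p (nat_lit 0xd1) (nat_lit 1) (p (nat_lit 0x81) (nat_lit 0) (p (nat_lit 0x41) (nat_lit 1) (p (nat_lit 0x108090787089a) (nat_lit 0) (p (nat_lit 0x107888706861a) (nat_lit 0) (p (nat_lit 0x8000000000000070686078a) (nat_lit 0) (p (nat_lit 0x8000000000000068605850a)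 (nat_lit 0) (p (nat_lit 0x10705850682) (nat_lit 0) (p (nat_lit 0x10685048402) (nat_lit 0) (p (nat_lit 0x16000c) (nat_lit 0) (p (nat_lit 0x160004) (nat_lit 0) (p (nat_lit 0x60592) (nat_lit 0) (p (nat_lit 0x48512) (nat_lit 0) (p (nat_lit 0x50392) (nat_lit 0) (p (nat_lit 0x38312) (nat_lit 0) (p (nat_lit 0x40212) (nat_lit 0) (p (nat_lit 0x28192) (nat_lit 0) (p (nat_lit 0x30092) (nat_lit 0) (p (nat_lit 0x18012) (nat_lit 0) pn)))))))))))))))))))))))))) :=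
  Cl.node (nat_lit 0xb0004) (nat_lit 2) (by decide +kernel) (ClAll.succ (ClAll.succ ClAll.zero n47) s138)

def n65 : Cl (O (nat_lit 4)) (R (nat_lit 6353))
    (p (nat_lit 0x111) (nat_lit 0) (p (nat_lit 0x200014) (nat_lit 0) (p (nat_lit 0xc9) (nat_lit 0) (p (nat_lit 0x81) (nat_lit 0) (p (nat_lit 0x101) (nat_lit 1) (p (nat_lit 0x119) (nat_lit 0) (p (nat_lit 0xd1) (nat_lit 0) (p (nat_lit 0x89) (nat_lit 0) (p (nat_lit 0x41) (nat_lit 0) (p (nat_lit 0x108090787089a) (nat_lit 0) (p (nat_lit 0x107888706861a) (nat_lit 0) (p (nat_lit 0x8000000000000070686078a) (nat_lit 0) (p (nat_lit 0x8000000000000068605850a) (nat_lit 0) (p (nat_lit 0x10705850682) (nat_lit 0) (p (nat_lit 0x10685048402) (nat_lit 0) (p (nat_lit 0x16000c) (nat_lit 0) (p (nat_lit 0x160004) (nat_lit 0) (p (nat_lit 0x60592) (nat_lit 0) (p (nat_lit 0x48512) (nat_lit 0) (p (nat_lit 0x50392) (nat_lit 0) (p (nat_lit 0x38312) (nat_lit 0)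 (p (nat_lit 0x40212) (nat_lit 0) (p (nat_lit 0x28192) (nat_lit 0) (p (nat_lit 0x30092) (nat_lit 0) (p (nat_lit 0x18012) (nat_lit 0) pn))))))))))))))))))))))))) :=
  Cl.node (nat_lit 0xb0004) (nat_lit 2) (by decide +kernel) (ClAll.succ (ClAll.succ ClAll.zero s2) s3)

def n66 : Cl (O (nat_lit 4)) (R (nat_lit 6353))
    (p (nat_lit 0x111) (nat_lit 0) (p (nat_lit 0x200014) (nat_lit 0) (p (nat_lit 0xc9) (nat_lit 1) (p (nat_lit 0x81) (nat_lit 0) (p (nat_lit 0x101) (nat_lit 1) (p (nat_lit 0x119) (nat_lit 0) (p (nat_lit 0xd1) (nat_lit 0) (p (nat_lit 0x89) (nat_lit 0) (p (nat_lit 0x41) (nat_lit 0) (p (nat_lit 0x108090787089a) (nat_lit 0) (p (nat_lit 0x107888706861a) (nat_lit 0) (p (nat_lit 0x8000000000000070686078a) (nat_lit 0) (p (nat_lit 0x8000000000000068605850a) (nat_lit 0) (p (nat_lit 0x10705850682) (nat_lit 0) (p (nat_lit 0x10685048402) (nat_lit 0) (p (nat_lit 0x16000c) (nat_lit 0) (p (nat_lit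 0x160004) (nat_lit 0) (p (nat_lit 0x60592) (nat_lit 0) (p (nat_lit 0x48512) (nat_lit 0) (p (nat_lit 0x50392) (nat_lit 0) (p (nat_lit 0x38312) (nat_lit 0) (p (nat_lit 0x40212) (nat_lit 0) (p (nat_lit 0x28192) (nat_lit 0) (p (nat_lit 0x30092) (nat_lit 0) (p (nat_lit 0x18012) (nat_lit 0) pn))))))))))))))))))))))))) :=
  Cl.node (nat_lit 0xb0004) (nat_lit 2) (by decide +kernel) (ClAll.succ (ClAll.succ ClAll.zero n48) s9)

def n67 : Cl (O (nat_lit 4)) (R (nat_lit 6353))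
    (p (nat_lit 0x200014) (nat_lit 0) (p (nat_lit 0xc9) (nat_lit 0) (p (nat_lit 0xc1) (nat_lit 0) (p (nat_lit 0x81) (nat_lit 1) (p (nat_lit 0x101) (nat_lit 1) (p (nat_lit 0x119) (nat_lit 0) (p (nat_lit 0xd1) (nat_lit 0) (p (nat_lit 0x89) (nat_lit 0) (p (nat_lit 0x41) (nat_lit 0) (p (nat_lit 0x108090787089a) (nat_lit 0) (p (nat_lit 0x107888706861a) (nat_lit 0) (p (nat_lit 0x8000000000000070686078a) (nat_lit 0) (p (nat_lit 0x8000000000000068605850a) (nat_lit 0) (p (nat_lit 0x10705850682) (nat_lit 0) (p (nat_lit 0x10685048402) (nat_lit 0) (p (nat_lit 0x16000c) (nat_lit 0) (p (nat_lit 0x160004) (nat_lit 0) (p (nat_lit 0x60592) (nat_lit 0) (p (nat_lit 0x48512) (nat_lit 0) (p (nat_lit 0x50392) (nat_lit 0) (p (nat_lit 0x38312) (nat_lit 0) (p (nat_lit 0x40212) (nat_lit 0) (p (nat_lit 0x28192) (nat_lit 0) (p (nat_lit 0x30092) (nat_lit 0) (p (nat_lit 0x18012) (nat_lit 0) pn)))))))))))))))))))))))))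 :=
  Cl.node (nat_lit 0xb0004) (nat_lit 2) (by decide +kernel) (ClAll.succ (ClAll.succ ClAll.zero n49) s14)

def n68 : Cl (O (nat_lit 4)) (R (nat_lit 6353))
    (p (nat_lit 0x200014) (nat_lit 0) (p (nat_lit 0xc9) (nat_lit 1) (p (nat_lit 0xc1) (nat_lit 0) (p (nat_lit 0x81) (nat_lit 1) (p (nat_lit 0x101) (nat_lit 1) (p (nat_lit 0x119) (nat_lit 0) (p (nat_lit 0xd1) (nat_lit 0) (p (nat_lit 0x89) (nat_lit 0) (p (nat_lit 0x41) (nat_lit 0) (p (nat_lit 0x108090787089a) (nat_lit 0) (p (nat_lit 0x107888706861a) (nat_lit 0) (p (nat_lit 0x8000000000000070686078a) (nat_lit 0) (p (nat_lit 0x8000000000000068605850a) (nat_lit 0) (p (nat_lit 0x10705850682) (nat_lit 0) (p (nat_lit 0x10685048402) (nat_lit 0) (p (nat_lit 0x16000c) (nat_lit 0) (p (nat_lit 0x160004) (nat_lit 0) (p (nat_lit 0x60592) (nat_lit 0) (p (nat_lit 0x48512) (nat_lit 0) (p (nat_lit 0x50392) (nat_lit 0) (p (nat_lit 0x38312) (nat_lit 0)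 (p (nat_lit 0x40212) (nat_lit 0) (p (nat_lit 0x28192) (nat_lit 0) (p (nat_lit 0x30092) (nat_lit 0) (p (nat_lit 0x18012) (nat_lit 0) pn))))))))))))))))))))))))) :=
  Cl.node (nat_lit 0xb0004) (nat_lit 2) (by decide +kernel) (ClAll.succ (ClAll.succ ClAll.zero n50) s18)

def n69 : Cl (O (nat_lit 4)) (R (nat_lit 6353))
    (p (nat_lit 0xb0004) (nat_lit 0) (p (nat_lit 0x200014) (nat_lit 0) (p (nat_lit 0x109) (nat_lit 1) (p (nat_lit 0xc9) (nat_lit 1) (p (nat_lit 0xc1) (nat_lit 0) (p (nat_lit 0x119) (nat_lit 1) (p (nat_lit 0xd1) (nat_lit 0) (p (nat_lit 0x89) (nat_lit 0) (p (nat_lit 0x41) (nat_lit 0) (p (nat_lit 0x108090787089a) (nat_lit 0) (p (nat_lit 0x107888706861a) (nat_lit 0) (p (nat_lit 0x8000000000000070686078a) (nat_lit 0) (p (nat_lit 0x8000000000000068605850a) (nat_lit 0) (p (nat_lit 0x10705850682) (nat_lit 0) (p (nat_lit 0x10685048402) (nat_lit 0) (p (nat_lit 0x16000c) (nat_lit 0) (p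 (nat_lit 0x160004) (nat_lit 0) (p (nat_lit 0x60592) (nat_lit 0) (p (nat_lit 0x48512) (nat_lit 0) (p (nat_lit 0x50392) (nat_lit 0) (p (nat_lit 0x38312) (nat_lit 0) (p (nat_lit 0x40212) (nat_lit 0) (p (nat_lit 0x28192) (nat_lit 0) (p (nat_lit 0x30092) (nat_lit 0) (p (nat_lit 0x18012) (nat_lit 0) pn))))))))))))))))))))))))) :=
  Cl.node (nat_lit 0xb000c) (nat_lit 2) (by decide +kernel) (ClAll.succ (ClAll.succ ClAll.zero s23) s24)

def n70 : Cl (O (nat_lit 4)) (R (nat_lit 6353))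
    (p (nat_lit 0x200014) (nat_lit 0) (p (nat_lit 0x109) (nat_lit 1) (p (nat_lit 0x101) (nat_lit 0) (p (nat_lit 0x81) (nat_lit 1) (p (nat_lit 0xc1) (nat_lit 1) (p (nat_lit 0x119) (nat_lit 1) (p (nat_lit 0xd1) (nat_lit 0) (p (nat_lit 0x89) (nat_lit 0) (p (nat_lit 0x41) (nat_lit 0) (p (nat_lit 0x108090787089a) (nat_lit 0) (p (nat_lit 0x107888706861a) (nat_lit 0) (p (nat_lit 0x8000000000000070686078a) (nat_lit 0) (p (nat_lit 0x8000000000000068605850a) (nat_lit 0) (p (nat_lit 0x10705850682) (nat_lit 0) (p (nat_lit 0x10685048402) (nat_lit 0) (p (nat_lit 0x16000c) (nat_lit 0) (p (nat_lit 0x160004) (nat_lit 0) (p (nat_lit 0x60592) (nat_lit 0) (p (nat_lit 0x48512) (nat_lit 0) (p (nat_lit 0x50392) (nat_lit 0) (p (nat_lit 0x38312) (nat_lit 0) (p (nat_lit 0x40212) (nat_lit 0) (p (nat_lit 0x28192) (nat_lit 0) (p (nat_lit 0x30092) (nat_lit 0) (p (nat_lit 0x18012) (nat_lit 0) pn)))))))))))))))))))))))))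 :=
  Cl.node (nat_lit 0xb0004) (nat_lit 2) (by decide +kernel) (ClAll.succ (ClAll.succ ClAll.zero n51) s35)

def n71 : Cl (O (nat_lit 4)) (R (nat_lit 6353))
    (p (nat_lit 0xb0004) (nat_lit 0) (p (nat_lit 0x200014) (nat_lit 0) (p (nat_lit 0x101) (nat_lit 1) (p (nat_lit 0x81) (nat_lit 1) (p (nat_lit 0xc1) (nat_lit 1) (p (nat_lit 0x119) (nat_lit 1) (p (nat_lit 0xd1) (nat_lit 0) (p (nat_lit 0x89) (nat_lit 0) (p (nat_lit 0x41) (nat_lit 0) (p (nat_lit 0x108090787089a) (nat_lit 0) (p (nat_lit 0x107888706861a) (nat_lit 0) (p (nat_lit 0x8000000000000070686078a) (nat_lit 0) (p (nat_lit 0x8000000000000068605850a) (nat_lit 0) (p (nat_lit 0x10705850682) (nat_lit 0) (p (nat_lit 0x10685048402) (nat_lit 0) (p (nat_lit 0x16000c) (nat_lit 0) (p (nat_lit 0x160004) (nat_lit 0) (p (nat_lit 0x60592) (nat_lit 0) (p (nat_lit 0x48512) (nat_lit 0) (p (nat_lit 0x50392) (nat_lit 0) (p (nat_lit 0x38312) (nat_lit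 0) (p (nat_lit 0x40212) (nat_lit 0) (p (nat_lit 0x28192) (nat_lit 0) (p (nat_lit 0x30092) (nat_lit 0) (p (nat_lit 0x18012) (nat_lit 0) pn))))))))))))))))))))))))) :=
  Cl.node (nat_lit 0xb000c) (nat_lit 2) (by decide +kernel) (ClAll.succ (ClAll.succ ClAll.zero s37) s38)

def n72 : Cl (O (nat_lit 4)) (R (nat_lit 6353))
    (p (nat_lit 0x119) (nat_lit 0) (p (nat_lit 0x200014) (nat_lit 0) (p (nat_lit 0xc1) (nat_lit 0) (p (nat_lit 0x81) (nat_lit 1) (p (nat_lit 0x101) (nat_lit 1) (p (nat_lit 0x111) (nat_lit 0) (p (nat_lit 0xd1) (nat_lit 1) (p (nat_lit 0x89) (nat_lit 0) (p (nat_lit 0x41) (nat_lit 0) (p (nat_lit 0x108090787089a) (nat_lit 0) (p (nat_lit 0x107888706861a) (nat_lit 0) (p (nat_lit 0x8000000000000070686078a) (nat_lit 0) (p (nat_lit 0x8000000000000068605850a) (nat_lit 0) (p (nat_lit 0x10705850682) (nat_lit 0) (p (nat_lit 0x10685048402) (nat_lit 0) (p (nat_lit 0x16000c) (nat_lit 0)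 (p (nat_lit 0x160004) (nat_lit 0) (p (nat_lit 0x60592) (nat_lit 0) (p (nat_lit 0x48512) (nat_lit 0) (p (nat_lit 0x50392) (nat_lit 0) (p (nat_lit 0x38312) (nat_lit 0) (p (nat_lit 0x40212) (nat_lit 0) (p (nat_lit 0x28192) (nat_lit 0) (p (nat_lit 0x30092) (nat_lit 0) (p (nat_lit 0x18012) (nat_lit 0) pn))))))))))))))))))))))))) :=
  Cl.node (nat_lit 0xb0004) (nat_lit 2) (by decide +kernel) (ClAll.succ (ClAll.succ ClAll.zero n52) s47)

def n73 : Cl (O (nat_lit 4)) (R (nat_lit 6353))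
    (p (nat_lit 0x119) (nat_lit 1) (p (nat_lit 0x200014) (nat_lit 0) (p (nat_lit 0xc1) (nat_lit 0) (p (nat_lit 0x81) (nat_lit 1) (p (nat_lit 0x101) (nat_lit 1) (p (nat_lit 0x111) (nat_lit 0) (p (nat_lit 0xd1) (nat_lit 1) (p (nat_lit 0x89) (nat_lit 0) (p (nat_lit 0x41) (nat_lit 0) (p (nat_lit 0x108090787089a) (nat_lit 0) (p (nat_lit 0x107888706861a) (nat_lit 0) (p (nat_lit 0x8000000000000070686078a) (nat_lit 0) (p (nat_lit 0x8000000000000068605850a) (nat_lit 0) (p (nat_lit 0x10705850682) (nat_lit 0) (p (nat_lit 0x10685048402) (nat_lit 0) (p (nat_lit 0x16000c) (nat_lit 0) (p (nat_lit 0x160004) (nat_lit 0) (p (nat_lit 0x60592) (nat_lit 0) (p (nat_lit 0x48512) (nat_lit 0) (p (nat_lit 0x50392) (nat_lit 0) (p (nat_lit 0x38312) (nat_lit 0) (p (nat_lit 0x40212) (nat_lit 0) (p (nat_lit 0x28192) (nat_lit 0) (p (nat_lit 0x30092) (nat_lit 0) (p (nat_lit 0x18012) (nat_lit 0) pn)))))))))))))))))))))))))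 :=
  Cl.node (nat_lit 0xb0004) (nat_lit 2) (by decide +kernel) (ClAll.succ (ClAll.succ ClAll.zero s48) s49)

def n74 : Cl (O (nat_lit 4)) (R (nat_lit 6353))
    (p (nat_lit 0xb0004) (nat_lit 0) (p (nat_lit 0x200014) (nat_lit 0) (p (nat_lit 0x111) (nat_lit 1) (p (nat_lit 0xd1) (nat_lit 1) (p (nat_lit 0xc1) (nat_lit 0) (p (nat_lit 0x119) (nat_lit 1) (p (nat_lit 0xc9) (nat_lit 0) (p (nat_lit 0x89) (nat_lit 1) (p (nat_lit 0x41) (nat_lit 0) (p (nat_lit 0x108090787089a) (nat_lit 0) (p (nat_lit 0x107888706861a) (nat_lit 0) (p (nat_lit 0x8000000000000070686078a) (nat_lit 0) (p (nat_lit 0x8000000000000068605850a) (nat_lit 0) (p (nat_lit 0x10705850682) (nat_lit 0) (p (nat_lit 0x10685048402) (nat_lit 0) (p (nat_lit 0x16000c) (nat_lit 0) (p (nat_lit 0x160004) (nat_lit 0) (p (nat_lit 0x60592) (nat_lit 0) (p (nat_lit 0x48512) (nat_lit 0) (p (nat_lit 0x50392) (nat_lit 0) (p (nat_lit 0x38312) (nat_lit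 0) (p (nat_lit 0x40212) (nat_lit 0) (p (nat_lit 0x28192) (nat_lit 0) (p (nat_lit 0x30092) (nat_lit 0) (p (nat_lit 0x18012) (nat_lit 0) pn))))))))))))))))))))))))) :=
  Cl.node (nat_lit 0xb000c) (nat_lit 2) (by decide +kernel) (ClAll.succ (ClAll.succ ClAll.zero s65) n53)

def n75 : Cl (O (nat_lit 4)) (R (nat_lit 6353))
    (p (nat_lit 0x111) (nat_lit 0) (p (nat_lit 0x200014) (nat_lit 0) (p (nat_lit 0x89) (nat_lit 0) (p (nat_lit 0x109) (nat_lit 1) (p (nat_lit 0x101) (nat_lit 0) (p (nat_lit 0x119) (nat_lit 0) (p (nat_lit 0xd1) (nat_lit 0) (p (nat_lit 0x81) (nat_lit 0) (p (nat_lit 0x41) (nat_lit 1) (p (nat_lit 0x108090787089a) (nat_lit 0) (p (nat_lit 0x107888706861a) (nat_lit 0) (p (nat_lit 0x8000000000000070686078a) (nat_lit 0) (p (nat_lit 0x8000000000000068605850a) (nat_lit 0) (p (nat_lit 0x10705850682) (nat_lit 0) (p (nat_lit 0x10685048402) (nat_lit 0) (p (nat_lit 0x16000c) (nat_lit 0)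 (p (nat_lit 0x160004) (nat_lit 0) (p (nat_lit 0x60592) (nat_lit 0) (p (nat_lit 0x48512) (nat_lit 0) (p (nat_lit 0x50392) (nat_lit 0) (p (nat_lit 0x38312) (nat_lit 0) (p (nat_lit 0x40212) (nat_lit 0) (p (nat_lit 0x28192) (nat_lit 0) (p (nat_lit 0x30092) (nat_lit 0) (p (nat_lit 0x18012) (nat_lit 0) pn))))))))))))))))))))))))) :=
  Cl.node (nat_lit 0xb0004) (nat_lit 2) (by decide +kernel) (ClAll.succ (ClAll.succ ClAll.zero n54) s79)

def n76 : Cl (O (nat_lit 4)) (R (nat_lit 6353))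
    (p (nat_lit 0x200014) (nat_lit 0) (p (nat_lit 0xc9) (nat_lit 0) (p (nat_lit 0x89) (nat_lit 1) (p (nat_lit 0x109) (nat_lit 1) (p (nat_lit 0x101) (nat_lit 0) (p (nat_lit 0x119) (nat_lit 0) (p (nat_lit 0xd1) (nat_lit 0) (p (nat_lit 0x81) (nat_lit 0) (p (nat_lit 0x41) (nat_lit 1) (p (nat_lit 0x108090787089a) (nat_lit 0) (p (nat_lit 0x107888706861a) (nat_lit 0) (p (nat_lit 0x8000000000000070686078a) (nat_lit 0) (p (nat_lit 0x8000000000000068605850a) (nat_lit 0) (p (nat_lit 0x10705850682) (nat_lit 0) (p (nat_lit 0x10685048402) (nat_lit 0) (p (nat_lit 0x16000c) (nat_lit 0) (p (nat_lit 0x160004) (nat_lit 0) (p (nat_lit 0x60592) (nat_lit 0) (p (nat_lit 0x48512) (nat_lit 0) (p (nat_lit 0x50392) (nat_lit 0) (p (nat_lit 0x38312) (nat_lit 0) (p (nat_lit 0x40212) (nat_lit 0) (p (nat_lit 0x28192) (nat_lit 0) (p (nat_lit 0x30092) (nat_lit 0) (p (nat_lit 0x18012) (nat_lit 0) pn)))))))))))))))))))))))))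 :=
  Cl.node (nat_lit 0xb0004) (nat_lit 2) (by decide +kernel) (ClAll.succ (ClAll.succ ClAll.zero n55) s84)

def n77 : Cl (O (nat_lit 4)) (R (nat_lit 6353))
    (p (nat_lit 0x200014) (nat_lit 0) (p (nat_lit 0xc9) (nat_lit 0) (p (nat_lit 0x89) (nat_lit 1) (p (nat_lit 0xc1) (nat_lit 0) (p (nat_lit 0x101) (nat_lit 1) (p (nat_lit 0x119) (nat_lit 0) (p (nat_lit 0xd1) (nat_lit 0) (p (nat_lit 0x81) (nat_lit 0) (p (nat_lit 0x41) (nat_lit 1) (p (nat_lit 0x108090787089a) (nat_lit 0) (p (nat_lit 0x107888706861a) (nat_lit 0) (p (nat_lit 0x8000000000000070686078a) (nat_lit 0) (p (nat_lit 0x8000000000000068605850a) (nat_lit 0) (p (nat_lit 0x10705850682) (nat_lit 0) (p (nat_lit 0x10685048402) (nat_lit 0) (p (nat_lit 0x16000c) (nat_lit 0) (p (nat_lit 0x160004) (nat_lit 0) (p (nat_lit 0x60592) (nat_lit 0) (p (nat_lit 0x48512) (nat_lit 0) (p (nat_lit 0x50392) (nat_lit 0) (p (nat_lit 0x38312) (nat_lit 0)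 (p (nat_lit 0x40212) (nat_lit 0) (p (nat_lit 0x28192) (nat_lit 0) (p (nat_lit 0x30092) (nat_lit 0) (p (nat_lit 0x18012) (nat_lit 0) pn))))))))))))))))))))))))) :=
  Cl.node (nat_lit 0xb0004) (nat_lit 2) (by decide +kernel) (ClAll.succ (ClAll.succ ClAll.zero s88) s89)

def n78 : Cl (O (nat_lit 4)) (R (nat_lit 6353))
    (p (nat_lit 0x200014) (nat_lit 0) (p (nat_lit 0xc9) (nat_lit 1) (p (nat_lit 0x89) (nat_lit 1) (p (nat_lit 0xc1) (nat_lit 0) (p (nat_lit 0x101) (nat_lit 1) (p (nat_lit 0x119) (nat_lit 0) (p (nat_lit 0xd1) (nat_lit 0) (p (nat_lit 0x81) (nat_lit 0) (p (nat_lit 0x41) (nat_lit 1) (p (nat_lit 0x108090787089a) (nat_lit 0) (p (nat_lit 0x107888706861a) (nat_lit 0) (p (nat_lit 0x8000000000000070686078a) (nat_lit 0) (p (nat_lit 0x8000000000000068605850a) (nat_lit 0) (p (nat_lit 0x10705850682) (nat_lit 0) (p (nat_lit 0x10685048402) (nat_lit 0) (p (nat_lit 0x16000c) (nat_lit 0) (p (nat_lit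 0x160004) (nat_lit 0) (p (nat_lit 0x60592) (nat_lit 0) (p (nat_lit 0x48512) (nat_lit 0) (p (nat_lit 0x50392) (nat_lit 0) (p (nat_lit 0x38312) (nat_lit 0) (p (nat_lit 0x40212) (nat_lit 0) (p (nat_lit 0x28192) (nat_lit 0) (p (nat_lit 0x30092) (nat_lit 0) (p (nat_lit 0x18012) (nat_lit 0) pn))))))))))))))))))))))))) :=
  Cl.node (nat_lit 0xb0004) (nat_lit 2) (by decide +kernel) (ClAll.succ (ClAll.succ ClAll.zero n56) s95)

def n79 : Cl (O (nat_lit 4)) (R (nat_lit 6353))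
    (p (nat_lit 0xb0004) (nat_lit 0) (p (nat_lit 0x200014) (nat_lit 0) (p (nat_lit 0x89) (nat_lit 1) (p (nat_lit 0xc1) (nat_lit 1) (p (nat_lit 0x101) (nat_lit 1) (p (nat_lit 0x119) (nat_lit 0) (p (nat_lit 0xd1) (nat_lit 0) (p (nat_lit 0x81) (nat_lit 0) (p (nat_lit 0x41) (nat_lit 1) (p (nat_lit 0x108090787089a) (nat_lit 0) (p (nat_lit 0x107888706861a) (nat_lit 0) (p (nat_lit 0x8000000000000070686078a) (nat_lit 0) (p (nat_lit 0x8000000000000068605850a) (nat_lit 0) (p (nat_lit 0x10705850682) (nat_lit 0) (p (nat_lit 0x10685048402) (nat_lit 0) (p (nat_lit 0x16000c) (nat_lit 0) (p (nat_lit 0x160004) (nat_lit 0) (p (nat_lit 0x60592) (nat_lit 0) (p (nat_lit 0x48512) (nat_lit 0) (p (nat_lit 0x50392) (nat_lit 0) (p (nat_lit 0x38312) (nat_lit 0) (p (nat_lit 0x40212) (nat_lit 0) (p (nat_lit 0x28192) (nat_lit 0) (p (nat_lit 0x30092) (nat_lit 0) (p (nat_lit 0x18012) (nat_lit 0) pn)))))))))))))))))))))))))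 :=
  Cl.node (nat_lit 0xb000c) (nat_lit 2) (by decide +kernel) (ClAll.succ (ClAll.succ ClAll.zero n57) n58)

def n80 : Cl (O (nat_lit 4)) (R (nat_lit 6353))
    (p (nat_lit 0x200014) (nat_lit 0) (p (nat_lit 0x109) (nat_lit 1) (p (nat_lit 0x89) (nat_lit 1) (p (nat_lit 0xc9) (nat_lit 1) (p (nat_lit 0xc1) (nat_lit 0) (p (nat_lit 0x119) (nat_lit 1) (p (nat_lit 0xd1) (nat_lit 0) (p (nat_lit 0x81) (nat_lit 0) (p (nat_lit 0x41) (nat_lit 1) (p (nat_lit 0x108090787089a) (nat_lit 0) (p (nat_lit 0x107888706861a) (nat_lit 0) (p (nat_lit 0x8000000000000070686078a) (nat_lit 0) (p (nat_lit 0x8000000000000068605850a) (nat_lit 0) (p (nat_lit 0x10705850682) (nat_lit 0) (p (nat_lit 0x10685048402) (nat_lit 0) (p (nat_lit 0x16000c) (nat_lit 0) (p (nat_lit 0x160004) (nat_lit 0) (p (nat_lit 0x60592) (nat_lit 0) (p (nat_lit 0x48512) (nat_lit 0) (p (nat_lit 0x50392) (nat_lit 0) (p (nat_lit 0x38312) (nat_lit 0)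 (p (nat_lit 0x40212) (nat_lit 0) (p (nat_lit 0x28192) (nat_lit 0) (p (nat_lit 0x30092) (nat_lit 0) (p (nat_lit 0x18012) (nat_lit 0) pn))))))))))))))))))))))))) :=
  Cl.node (nat_lit 0xb0004) (nat_lit 2) (by decide +kernel) (ClAll.succ (ClAll.succ ClAll.zero n59) s112)

def n81 : Cl (O (nat_lit 4)) (R (nat_lit 6353))
    (p (nat_lit 0x200014) (nat_lit 0) (p (nat_lit 0x109) (nat_lit 1) (p (nat_lit 0x89) (nat_lit 1) (p (nat_lit 0x101) (nat_lit 0) (p (nat_lit 0xc1) (nat_lit 1) (p (nat_lit 0x119) (nat_lit 1) (p (nat_lit 0xd1) (nat_lit 0) (p (nat_lit 0x81) (nat_lit 0) (p (nat_lit 0x41) (nat_lit 1) (p (nat_lit 0x108090787089a) (nat_lit 0) (p (nat_lit 0x107888706861a) (nat_lit 0) (p (nat_lit 0x8000000000000070686078a) (nat_lit 0) (p (nat_lit 0x8000000000000068605850a) (nat_lit 0) (p (nat_lit 0x10705850682) (nat_lit 0) (p (nat_lit 0x10685048402) (nat_lit 0) (p (nat_lit 0x16000c) (nat_lit 0) (p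 (nat_lit 0x160004) (nat_lit 0) (p (nat_lit 0x60592) (nat_lit 0) (p (nat_lit 0x48512) (nat_lit 0) (p (nat_lit 0x50392) (nat_lit 0) (p (nat_lit 0x38312) (nat_lit 0) (p (nat_lit 0x40212) (nat_lit 0) (p (nat_lit 0x28192) (nat_lit 0) (p (nat_lit 0x30092) (nat_lit 0) (p (nat_lit 0x18012) (nat_lit 0) pn))))))))))))))))))))))))) :=
  Cl.node (nat_lit 0xb0004) (nat_lit 2) (by decide +kernel) (ClAll.succ (ClAll.succ ClAll.zero n60) s120)

def n82 : Cl (O (nat_lit 4)) (R (nat_lit 6353))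
    (p (nat_lit 0xb0004) (nat_lit 0) (p (nat_lit 0x200014) (nat_lit 0) (p (nat_lit 0x89) (nat_lit 1) (p (nat_lit 0x101) (nat_lit 1) (p (nat_lit 0xc1) (nat_lit 1) (p (nat_lit 0x119) (nat_lit 1) (p (nat_lit 0xd1) (nat_lit 0) (p (nat_lit 0x81) (nat_lit 0) (p (nat_lit 0x41) (nat_lit 1) (p (nat_lit 0x108090787089a) (nat_lit 0) (p (nat_lit 0x107888706861a) (nat_lit 0) (p (nat_lit 0x8000000000000070686078a) (nat_lit 0) (p (nat_lit 0x8000000000000068605850a) (nat_lit 0) (p (nat_lit 0x10705850682) (nat_lit 0) (p (nat_lit 0x10685048402) (nat_lit 0) (p (nat_lit 0x16000c) (nat_lit 0) (p (nat_lit 0x160004) (nat_lit 0) (p (nat_lit 0x60592) (nat_lit 0) (p (nat_lit 0x48512) (nat_lit 0) (p (nat_lit 0x50392) (nat_lit 0) (p (nat_lit 0x38312) (nat_lit 0) (p (nat_lit 0x40212) (nat_lit 0) (p (nat_lit 0x28192) (nat_lit 0) (p (nat_lit 0x30092) (nat_lit 0) (p (nat_lit 0x18012) (nat_lit 0) pn)))))))))))))))))))))))))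 :=
  Cl.node (nat_lit 0xb000c) (nat_lit 2) (by decide +kernel) (ClAll.succ (ClAll.succ ClAll.zero n61) n62)

def n83 : Cl (O (nat_lit 4)) (R (nat_lit 6353))
    (p (nat_lit 0x200014) (nat_lit 0) (p (nat_lit 0xc9) (nat_lit 0) (p (nat_lit 0x89) (nat_lit 1) (p (nat_lit 0x109) (nat_lit 1) (p (nat_lit 0x101) (nat_lit 0) (p (nat_lit 0x111) (nat_lit 0) (p (nat_lit 0xd1) (nat_lit 1) (p (nat_lit 0x81) (nat_lit 0) (p (nat_lit 0x41) (nat_lit 1) (p (nat_lit 0x108090787089a) (nat_lit 0) (p (nat_lit 0x107888706861a) (nat_lit 0) (p (nat_lit 0x8000000000000070686078a) (nat_lit 0) (p (nat_lit 0x8000000000000068605850a) (nat_lit 0) (p (nat_lit 0x10705850682) (nat_lit 0) (p (nat_lit 0x10685048402) (nat_lit 0) (p (nat_lit 0x16000c) (nat_lit 0) (p (nat_lit 0x160004) (nat_lit 0) (p (nat_lit 0x60592) (nat_lit 0) (p (nat_lit 0x48512) (nat_lit 0) (p (nat_lit 0x50392) (nat_lit 0) (p (nat_lit 0x38312) (nat_lit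 0) (p (nat_lit 0x40212) (nat_lit 0) (p (nat_lit 0x28192) (nat_lit 0) (p (nat_lit 0x30092) (nat_lit 0) (p (nat_lit 0x18012) (nat_lit 0) pn))))))))))))))))))))))))) :=
  Cl.node (nat_lit 0x119) (nat_lit 2) (by decide +kernel) (ClAll.succ (ClAll.succ ClAll.zero n63) n64)

def n84 : Cl (O (nat_lit 4)) (R (nat_lit 6353))
    (p (nat_lit 0xb0004) (nat_lit 0) (p (nat_lit 0x200014) (nat_lit 0) (p (nat_lit 0x109) (nat_lit 1) (p (nat_lit 0xc9) (nat_lit 1) (p (nat_lit 0x89) (nat_lit 1) (p (nat_lit 0x111) (nat_lit 1) (p (nat_lit 0xd1) (nat_lit 1) (p (nat_lit 0x81) (nat_lit 0) (p (nat_lit 0x41) (nat_lit 1) (p (nat_lit 0x108090787089a) (nat_lit 0) (p (nat_lit 0x107888706861a) (nat_lit 0) (p (nat_lit 0x8000000000000070686078a) (nat_lit 0) (p (nat_lit 0x8000000000000068605850a) (nat_lit 0) (p (nat_lit 0x10705850682) (nat_lit 0) (p (nat_lit 0x10685048402) (nat_lit 0) (p (nat_lit 0x16000c) (nat_lit 0)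 (p (nat_lit 0x160004) (nat_lit 0) (p (nat_lit 0x60592) (nat_lit 0) (p (nat_lit 0x48512) (nat_lit 0) (p (nat_lit 0x50392) (nat_lit 0) (p (nat_lit 0x38312) (nat_lit 0) (p (nat_lit 0x40212) (nat_lit 0) (p (nat_lit 0x28192) (nat_lit 0) (p (nat_lit 0x30092) (nat_lit 0) (p (nat_lit 0x18012) (nat_lit 0) pn))))))))))))))))))))))))) :=
  Cl.node (nat_lit 0xb000c) (nat_lit 2) (by decide +kernel) (ClAll.succ (ClAll.succ ClAll.zero s150) s151)

def n85 : Cl (O (nat_lit 4)) (R (nat_lit 6353))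
    (p (nat_lit 0xb0004) (nat_lit 0) (p (nat_lit 0x200014) (nat_lit 0) (p (nat_lit 0x111) (nat_lit 1) (p (nat_lit 0xd1) (nat_lit 1) (p (nat_lit 0xc9) (nat_lit 0) (p (nat_lit 0x119) (nat_lit 1) (p (nat_lit 0xc1) (nat_lit 0) (p (nat_lit 0x81) (nat_lit 1) (p (nat_lit 0x41) (nat_lit 1) (p (nat_lit 0x108090787089a) (nat_lit 0) (p (nat_lit 0x107888706861a) (nat_lit 0) (p (nat_lit 0x8000000000000070686078a) (nat_lit 0) (p (nat_lit 0x8000000000000068605850a) (nat_lit 0) (p (nat_lit 0x10705850682) (nat_lit 0) (p (nat_lit 0x10685048402) (nat_lit 0) (p (nat_lit 0x16000c) (nat_lit 0) (p (nat_lit 0x160004) (nat_lit 0) (p (nat_lit 0x60592) (nat_lit 0) (p (nat_lit 0x48512) (nat_lit 0) (p (nat_lit 0x50392) (nat_lit 0) (p (nat_lit 0x38312) (nat_lit 0) (p (nat_lit 0x40212) (nat_lit 0) (p (nat_lit 0x28192) (nat_lit 0) (p (nat_lit 0x30092) (nat_lit 0) (p (nat_lit 0x18012) (nat_lit 0) pn)))))))))))))))))))))))))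 :=
  Cl.node (nat_lit 0xb000c) (nat_lit 2) (by decide +kernel) (ClAll.succ (ClAll.succ ClAll.zero s161) s162)

def n86 : Cl (O (nat_lit 4)) (R (nat_lit 6353))
    (p (nat_lit 0x200014) (nat_lit 0) (p (nat_lit 0xc9) (nat_lit 0) (p (nat_lit 0x81) (nat_lit 0) (p (nat_lit 0x101) (nat_lit 1) (p (nat_lit 0x119) (nat_lit 0) (p (nat_lit 0xd1) (nat_lit 0) (p (nat_lit 0x89) (nat_lit 0) (p (nat_lit 0x41) (nat_lit 0) (p (nat_lit 0x108090787089a) (nat_lit 0) (p (nat_lit 0x107888706861a) (nat_lit 0) (p (nat_lit 0x8000000000000070686078a) (nat_lit 0) (p (nat_lit 0x8000000000000068605850a) (nat_lit 0) (p (nat_lit 0x10705850682) (nat_lit 0) (p (nat_lit 0x10685048402) (nat_lit 0) (p (nat_lit 0x16000c) (nat_lit 0) (p (nat_lit 0x160004) (nat_lit 0) (p (nat_lit 0x60592) (nat_lit 0) (p (nat_lit 0x48512) (nat_lit 0) (p (nat_lit 0x50392) (nat_lit 0) (p (nat_lit 0x38312) (nat_lit 0) (p (nat_lit 0x40212) (nat_lit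 0) (p (nat_lit 0x28192) (nat_lit 0) (p (nat_lit 0x30092) (nat_lit 0) (p (nat_lit 0x18012) (nat_lit 0) pn)))))))))))))))))))))))) :=
  Cl.node (nat_lit 0x111) (nat_lit 2) (by decide +kernel) (ClAll.succ (ClAll.succ ClAll.zero n65) s4)

def n87 : Cl (O (nat_lit 4)) (R (nat_lit 6353))
    (p (nat_lit 0x200014) (nat_lit 0) (p (nat_lit 0xc9) (nat_lit 1) (p (nat_lit 0x81) (nat_lit 0) (p (nat_lit 0x101) (nat_lit 1) (p (nat_lit 0x119) (nat_lit 0) (p (nat_lit 0xd1) (nat_lit 0) (p (nat_lit 0x89) (nat_lit 0) (p (nat_lit 0x41) (nat_lit 0) (p (nat_lit 0x108090787089a) (nat_lit 0) (p (nat_lit 0x107888706861a) (nat_lit 0) (p (nat_lit 0x8000000000000070686078a) (nat_lit 0) (p (nat_lit 0x8000000000000068605850a) (nat_lit 0) (p (nat_lit 0x10705850682) (nat_lit 0) (p (nat_lit 0x10685048402) (nat_lit 0) (p (nat_lit 0x16000c) (nat_lit 0) (p (nat_lit 0x160004) (nat_lit 0) (p (nat_lit 0x60592) (nat_lit 0) (p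 (nat_lit 0x48512) (nat_lit 0) (p (nat_lit 0x50392) (nat_lit 0) (p (nat_lit 0x38312) (nat_lit 0) (p (nat_lit 0x40212) (nat_lit 0) (p (nat_lit 0x28192) (nat_lit 0) (p (nat_lit 0x30092) (nat_lit 0) (p (nat_lit 0x18012) (nat_lit 0) pn)))))))))))))))))))))))) :=
  Cl.node (nat_lit 0x111) (nat_lit 2) (by decide +kernel) (ClAll.succ (ClAll.succ ClAll.zero n66) s10)

def n88 : Cl (O (nat_lit 4)) (R (nat_lit 6353))
    (p (nat_lit 0xc9) (nat_lit 0) (p (nat_lit 0xc1) (nat_lit 0) (p (nat_lit 0x81) (nat_lit 1) (p (nat_lit 0x101) (nat_lit 1) (p (nat_lit 0x119) (nat_lit 0) (p (nat_lit 0xd1) (nat_lit 0) (p (nat_lit 0x89) (nat_lit 0) (p (nat_lit 0x41) (nat_lit 0) (p (nat_lit 0x108090787089a) (nat_lit 0) (p (nat_lit 0x107888706861a) (nat_lit 0) (p (nat_lit 0x8000000000000070686078a) (nat_lit 0) (p (nat_lit 0x8000000000000068605850a) (nat_lit 0) (p (nat_lit 0x10705850682) (nat_lit 0) (p (nat_lit 0x10685048402)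 (nat_lit 0) (p (nat_lit 0x16000c) (nat_lit 0) (p (nat_lit 0x160004) (nat_lit 0) (p (nat_lit 0x60592) (nat_lit 0) (p (nat_lit 0x48512) (nat_lit 0) (p (nat_lit 0x50392) (nat_lit 0) (p (nat_lit 0x38312) (nat_lit 0) (p (nat_lit 0x40212) (nat_lit 0) (p (nat_lit 0x28192) (nat_lit 0) (p (nat_lit 0x30092) (nat_lit 0) (p (nat_lit 0x18012) (nat_lit 0) pn)))))))))))))))))))))))) :=
  Cl.node (nat_lit 0x200014) (nat_lit 2) (by decide +kernel) (ClAll.succ (ClAll.succ ClAll.zero n67) s15)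

def n89 : Cl (O (nat_lit 4)) (R (nat_lit 6353))
    (p (nat_lit 0xc9) (nat_lit 1) (p (nat_lit 0xc1) (nat_lit 0) (p (nat_lit 0x81) (nat_lit 1) (p (nat_lit 0x101) (nat_lit 1) (p (nat_lit 0x119) (nat_lit 0) (p (nat_lit 0xd1) (nat_lit 0) (p (nat_lit 0x89) (nat_lit 0) (p (nat_lit 0x41) (nat_lit 0) (p (nat_lit 0x108090787089a) (nat_lit 0) (p (nat_lit 0x107888706861a) (nat_lit 0) (p (nat_lit 0x8000000000000070686078a) (nat_lit 0) (p (nat_lit 0x8000000000000068605850a) (nat_lit 0) (p (nat_lit 0x10705850682) (nat_lit 0) (p (nat_lit 0x10685048402) (nat_lit 0) (p (nat_lit 0x16000c) (nat_lit 0) (p (nat_lit 0x160004) (nat_lit 0) (p (nat_lit 0x60592) (nat_lit 0) (p (nat_lit 0x48512) (nat_lit 0) (p (nat_lit 0x50392) (nat_lit 0) (p (nat_lit 0x38312) (nat_lit 0) (p (nat_lit 0x40212) (nat_lit 0) (p (nat_lit 0x28192) (nat_lit 0) (p (nat_lit 0x30092) (nat_lit 0) (p (nat_lit 0x18012) (nat_lit 0) pn))))))))))))))))))))))))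 :=
  Cl.node (nat_lit 0x200014) (nat_lit 2) (by decide +kernel) (ClAll.succ (ClAll.succ ClAll.zero n68) s19)

def n90 : Cl (O (nat_lit 4)) (R (nat_lit 6353))
    (p (nat_lit 0x200014) (nat_lit 0) (p (nat_lit 0x109) (nat_lit 1) (p (nat_lit 0xc9) (nat_lit 1) (p (nat_lit 0xc1) (nat_lit 0) (p (nat_lit 0x119) (nat_lit 1) (p (nat_lit 0xd1) (nat_lit 0) (p (nat_lit 0x89) (nat_lit 0) (p (nat_lit 0x41) (nat_lit 0) (p (nat_lit 0x108090787089a) (nat_lit 0) (p (nat_lit 0x107888706861a) (nat_lit 0) (p (nat_lit 0x8000000000000070686078a) (nat_lit 0) (p (nat_lit 0x8000000000000068605850a) (nat_lit 0) (p (nat_lit 0x10705850682) (nat_lit 0) (p (nat_lit 0x10685048402) (nat_lit 0) (p (nat_lit 0x16000c) (nat_lit 0) (p (nat_lit 0x160004) (nat_lit 0) (p (nat_lit 0x60592) (nat_lit 0) (p (nat_lit 0x48512) (nat_lit 0) (p (nat_lit 0x50392) (nat_lit 0) (p (nat_lit 0x38312) (nat_lit 0) (p (nat_lit 0x40212) (nat_lit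 0) (p (nat_lit 0x28192) (nat_lit 0) (p (nat_lit 0x30092) (nat_lit 0) (p (nat_lit 0x18012) (nat_lit 0) pn)))))))))))))))))))))))) :=
  Cl.node (nat_lit 0xb0004) (nat_lit 2) (by decide +kernel) (ClAll.succ (ClAll.succ ClAll.zero n69) s25)

def n91 : Cl (O (nat_lit 4)) (R (nat_lit 6353))
    (p (nat_lit 0x200014) (nat_lit 0) (p (nat_lit 0x109) (nat_lit 1) (p (nat_lit 0x81) (nat_lit 0) (p (nat_lit 0xc1) (nat_lit 1) (p (nat_lit 0x119) (nat_lit 1) (p (nat_lit 0xd1) (nat_lit 0) (p (nat_lit 0x89) (nat_lit 0) (p (nat_lit 0x41) (nat_lit 0) (p (nat_lit 0x108090787089a) (nat_lit 0) (p (nat_lit 0x107888706861a) (nat_lit 0) (p (nat_lit 0x8000000000000070686078a) (nat_lit 0) (p (nat_lit 0x8000000000000068605850a) (nat_lit 0) (p (nat_lit 0x10705850682) (nat_lit 0) (p (nat_lit 0x10685048402) (nat_lit 0) (p (nat_lit 0x16000c) (nat_lit 0) (p (nat_lit 0x160004) (nat_lit 0) (p (nat_lit 0x60592) (nat_lit 0)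 (p (nat_lit 0x48512) (nat_lit 0) (p (nat_lit 0x50392) (nat_lit 0) (p (nat_lit 0x38312) (nat_lit 0) (p (nat_lit 0x40212) (nat_lit 0) (p (nat_lit 0x28192) (nat_lit 0) (p (nat_lit 0x30092) (nat_lit 0) (p (nat_lit 0x18012) (nat_lit 0) pn)))))))))))))))))))))))) :=
  Cl.node (nat_lit 0xb0004) (nat_lit 2) (by decide +kernel) (ClAll.succ (ClAll.succ ClAll.zero s28) s29)

def n92 : Cl (O (nat_lit 4)) (R (nat_lit 6353))
    (p (nat_lit 0x109) (nat_lit 0) (p (nat_lit 0x101) (nat_lit 0) (p (nat_lit 0x81) (nat_lit 1) (p (nat_lit 0xc1) (nat_lit 1) (p (nat_lit 0x119) (nat_lit 1) (p (nat_lit 0xd1) (nat_lit 0) (p (nat_lit 0x89) (nat_lit 0) (p (nat_lit 0x41) (nat_lit 0) (p (nat_lit 0x108090787089a) (nat_lit 0) (p (nat_lit 0x107888706861a) (nat_lit 0) (p (nat_lit 0x8000000000000070686078a) (nat_lit 0) (p (nat_lit 0x8000000000000068605850a) (nat_lit 0) (p (nat_lit 0x10705850682) (nat_lit 0) (p (nat_lit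 0x10685048402) (nat_lit 0) (p (nat_lit 0x16000c) (nat_lit 0) (p (nat_lit 0x160004) (nat_lit 0) (p (nat_lit 0x60592) (nat_lit 0) (p (nat_lit 0x48512) (nat_lit 0) (p (nat_lit 0x50392) (nat_lit 0) (p (nat_lit 0x38312) (nat_lit 0) (p (nat_lit 0x40212) (nat_lit 0) (p (nat_lit 0x28192) (nat_lit 0) (p (nat_lit 0x30092) (nat_lit 0) (p (nat_lit 0x18012) (nat_lit 0) pn)))))))))))))))))))))))) :=
  Cl.node (nat_lit 0x200014) (nat_lit 2) (by decide +kernel) (ClAll.succ (ClAll.succ ClAll.zero s31) s32)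

def n93 : Cl (O (nat_lit 4)) (R (nat_lit 6353))
    (p (nat_lit 0x109) (nat_lit 1) (p (nat_lit 0x101) (nat_lit 0) (p (nat_lit 0x81) (nat_lit 1) (p (nat_lit 0xc1) (nat_lit 1) (p (nat_lit 0x119) (nat_lit 1) (p (nat_lit 0xd1) (nat_lit 0) (p (nat_lit 0x89) (nat_lit 0) (p (nat_lit 0x41) (nat_lit 0) (p (nat_lit 0x108090787089a) (nat_lit 0) (p (nat_lit 0x107888706861a) (nat_lit 0) (p (nat_lit 0x8000000000000070686078a) (nat_lit 0) (p (nat_lit 0x8000000000000068605850a) (nat_lit 0) (p (nat_lit 0x10705850682) (nat_lit 0) (p (nat_lit 0x10685048402) (nat_lit 0) (p (nat_lit 0x16000c) (nat_lit 0) (p (nat_lit 0x160004) (nat_lit 0) (p (nat_lit 0x60592) (nat_lit 0) (p (nat_lit 0x48512) (nat_lit 0) (p (nat_lit 0x50392) (nat_lit 0) (p (nat_lit 0x38312) (nat_lit 0) (p (nat_lit 0x40212) (nat_lit 0) (p (nat_lit 0x28192) (nat_lit 0) (p (nat_lit 0x30092) (nat_lit 0) (p (nat_lit 0x18012) (nat_lit 0) pn))))))))))))))))))))))))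 :=
  Cl.node (nat_lit 0x200014) (nat_lit 2) (by decide +kernel) (ClAll.succ (ClAll.succ ClAll.zero n70) s36)

def n94 : Cl (O (nat_lit 4)) (R (nat_lit 6353))
    (p (nat_lit 0x200014) (nat_lit 0) (p (nat_lit 0x101) (nat_lit 1) (p (nat_lit 0x81) (nat_lit 1) (p (nat_lit 0xc1) (nat_lit 1) (p (nat_lit 0x119) (nat_lit 1) (p (nat_lit 0xd1) (nat_lit 0) (p (nat_lit 0x89) (nat_lit 0) (p (nat_lit 0x41) (nat_lit 0) (p (nat_lit 0x108090787089a) (nat_lit 0) (p (nat_lit 0x107888706861a) (nat_lit 0) (p (nat_lit 0x8000000000000070686078a) (nat_lit 0) (p (nat_lit 0x8000000000000068605850a) (nat_lit 0) (p (nat_lit 0x10705850682) (nat_lit 0) (p (nat_lit 0x10685048402) (nat_lit 0) (p (nat_lit 0x16000c) (nat_lit 0) (p (nat_lit 0x160004) (nat_lit 0) (p (nat_lit 0x60592) (nat_lit 0) (p (nat_lit 0x48512) (nat_lit 0) (p (nat_lit 0x50392) (nat_lit 0) (p (nat_lit 0x38312) (nat_lit 0) (p (nat_lit 0x40212) (nat_lit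 0) (p (nat_lit 0x28192) (nat_lit 0) (p (nat_lit 0x30092) (nat_lit 0) (p (nat_lit 0x18012) (nat_lit 0) pn)))))))))))))))))))))))) :=
  Cl.node (nat_lit 0xb0004) (nat_lit 2) (by decide +kernel) (ClAll.succ (ClAll.succ ClAll.zero n71) s39)

def n95 : Cl (O (nat_lit 4)) (R (nat_lit 6353))
    (p (nat_lit 0x200014) (nat_lit 0) (p (nat_lit 0xc1) (nat_lit 0) (p (nat_lit 0x81) (nat_lit 1) (p (nat_lit 0x101) (nat_lit 1) (p (nat_lit 0x111) (nat_lit 0) (p (nat_lit 0xd1) (nat_lit 1) (p (nat_lit 0x89) (nat_lit 0) (p (nat_lit 0x41) (nat_lit 0) (p (nat_lit 0x108090787089a) (nat_lit 0) (p (nat_lit 0x107888706861a) (nat_lit 0) (p (nat_lit 0x8000000000000070686078a) (nat_lit 0) (p (nat_lit 0x8000000000000068605850a) (nat_lit 0) (p (nat_lit 0x10705850682) (nat_lit 0) (p (nat_lit 0x10685048402) (nat_lit 0) (p (nat_lit 0x16000c) (nat_lit 0) (p (nat_lit 0x160004) (nat_lit 0) (p (nat_lit 0x60592) (nat_lit 0)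 (p (nat_lit 0x48512) (nat_lit 0) (p (nat_lit 0x50392) (nat_lit 0) (p (nat_lit 0x38312) (nat_lit 0) (p (nat_lit 0x40212) (nat_lit 0) (p (nat_lit 0x28192) (nat_lit 0) (p (nat_lit 0x30092) (nat_lit 0) (p (nat_lit 0x18012) (nat_lit 0) pn)))))))))))))))))))))))) :=
  Cl.node (nat_lit 0x119) (nat_lit 2) (by decide +kernel) (ClAll.succ (ClAll.succ ClAll.zero n72) n73)

def n96 : Cl (O (nat_lit 4)) (R (nat_lit 6353))
    (p (nat_lit 0x200014) (nat_lit 0) (p (nat_lit 0x111) (nat_lit 1) (p (nat_lit 0xd1) (nat_lit 1) (p (nat_lit 0xc1) (nat_lit 0) (p (nat_lit 0x119) (nat_lit 1) (p (nat_lit 0xc9) (nat_lit 0) (p (nat_lit 0x89) (nat_lit 1) (p (nat_lit 0x41) (nat_lit 0) (p (nat_lit 0x108090787089a) (nat_lit 0) (p (nat_lit 0x107888706861a) (nat_lit 0) (p (nat_lit 0x8000000000000070686078a) (nat_lit 0) (p (nat_lit 0x8000000000000068605850a) (nat_lit 0) (p (nat_lit 0x10705850682) (nat_lit 0) (p (nat_lit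 0x10685048402) (nat_lit 0) (p (nat_lit 0x16000c) (nat_lit 0) (p (nat_lit 0x160004) (nat_lit 0) (p (nat_lit 0x60592) (nat_lit 0) (p (nat_lit 0x48512) (nat_lit 0) (p (nat_lit 0x50392) (nat_lit 0) (p (nat_lit 0x38312) (nat_lit 0) (p (nat_lit 0x40212) (nat_lit 0) (p (nat_lit 0x28192) (nat_lit 0) (p (nat_lit 0x30092) (nat_lit 0) (p (nat_lit 0x18012) (nat_lit 0) pn)))))))))))))))))))))))) :=
  Cl.node (nat_lit 0xb0004) (nat_lit 2) (by decide +kernel) (ClAll.succ (ClAll.succ ClAll.zero n74) s68)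

def n97 : Cl (O (nat_lit 4)) (R (nat_lit 6353))
    (p (nat_lit 0x200014) (nat_lit 0) (p (nat_lit 0x89) (nat_lit 0) (p (nat_lit 0x109) (nat_lit 1) (p (nat_lit 0x101) (nat_lit 0) (p (nat_lit 0x119) (nat_lit 0) (p (nat_lit 0xd1) (nat_lit 0) (p (nat_lit 0x81) (nat_lit 0) (p (nat_lit 0x41) (nat_lit 1) (p (nat_lit 0x108090787089a) (nat_lit 0) (p (nat_lit 0x107888706861a) (nat_lit 0) (p (nat_lit 0x8000000000000070686078a) (nat_lit 0) (p (nat_lit 0x8000000000000068605850a) (nat_lit 0) (p (nat_lit 0x10705850682) (nat_lit 0) (p (nat_lit 0x10685048402) (nat_lit 0) (p (nat_lit 0x16000c) (nat_lit 0) (p (nat_lit 0x160004) (nat_lit 0) (p (nat_lit 0x60592) (nat_lit 0) (p (nat_lit 0x48512) (nat_lit 0) (p (nat_lit 0x50392) (nat_lit 0) (p (nat_lit 0x38312) (nat_lit 0) (p (nat_lit 0x40212) (nat_lit 0) (p (nat_lit 0x28192) (nat_lit 0) (p (nat_lit 0x30092) (nat_lit 0) (p (nat_lit 0x18012) (nat_lit 0) pn))))))))))))))))))))))))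 :=
  Cl.node (nat_lit 0x111) (nat_lit 2) (by decide +kernel) (ClAll.succ (ClAll.succ ClAll.zero n75) s80)

def n98 : Cl (O (nat_lit 4)) (R (nat_lit 6353))
    (p (nat_lit 0xc9) (nat_lit 0) (p (nat_lit 0x89) (nat_lit 1) (p (nat_lit 0x109) (nat_lit 1) (p (nat_lit 0x101) (nat_lit 0) (p (nat_lit 0x119) (nat_lit 0) (p (nat_lit 0xd1) (nat_lit 0) (p (nat_lit 0x81) (nat_lit 0) (p (nat_lit 0x41) (nat_lit 1) (p (nat_lit 0x108090787089a) (nat_lit 0) (p (nat_lit 0x107888706861a) (nat_lit 0) (p (nat_lit 0x8000000000000070686078a) (nat_lit 0) (p (nat_lit 0x8000000000000068605850a) (nat_lit 0) (p (nat_lit 0x10705850682) (nat_lit 0) (p (nat_lit 0x10685048402) (nat_lit 0) (p (nat_lit 0x16000c) (nat_lit 0) (p (nat_lit 0x160004) (nat_lit 0) (p (nat_lit 0x60592) (nat_lit 0) (p (nat_lit 0x48512) (nat_lit 0) (p (nat_lit 0x50392) (nat_lit 0) (p (nat_lit 0x38312) (nat_lit 0) (p (nat_lit 0x40212) (nat_lit 0)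 (p (nat_lit 0x28192) (nat_lit 0) (p (nat_lit 0x30092) (nat_lit 0) (p (nat_lit 0x18012) (nat_lit 0) pn)))))))))))))))))))))))) :=
  Cl.node (nat_lit 0x200014) (nat_lit 2) (by decide +kernel) (ClAll.succ (ClAll.succ ClAll.zero n76) s85)

def n99 : Cl (O (nat_lit 4)) (R (nat_lit 6353))
    (p (nat_lit 0xc9) (nat_lit 0) (p (nat_lit 0x89) (nat_lit 1) (p (nat_lit 0xc1) (nat_lit 0) (p (nat_lit 0x101) (nat_lit 1) (p (nat_lit 0x119) (nat_lit 0) (p (nat_lit 0xd1) (nat_lit 0) (p (nat_lit 0x81) (nat_lit 0) (p (nat_lit 0x41) (nat_lit 1) (p (nat_lit 0x108090787089a) (nat_lit 0) (p (nat_lit 0x107888706861a) (nat_lit 0) (p (nat_lit 0x8000000000000070686078a) (nat_lit 0) (p (nat_lit 0x8000000000000068605850a) (nat_lit 0) (p (nat_lit 0x10705850682) (nat_lit 0) (p (nat_lit 0x10685048402) (nat_lit 0) (p (nat_lit 0x16000c) (nat_lit 0) (p (nat_lit 0x160004) (nat_lit 0) (p (nat_lit 0x60592) (nat_lit 0) (p (nat_lit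 0x48512) (nat_lit 0) (p (nat_lit 0x50392) (nat_lit 0) (p (nat_lit 0x38312) (nat_lit 0) (p (nat_lit 0x40212) (nat_lit 0) (p (nat_lit 0x28192) (nat_lit 0) (p (nat_lit 0x30092) (nat_lit 0) (p (nat_lit 0x18012) (nat_lit 0) pn)))))))))))))))))))))))) :=
  Cl.node (nat_lit 0x200014) (nat_lit 2) (by decide +kernel) (ClAll.succ (ClAll.succ ClAll.zero n77) s90)

def n100 : Cl (O (nat_lit 4)) (R (nat_lit 6353))
    (p (nat_lit 0xc9) (nat_lit 1) (p (nat_lit 0x89) (nat_lit 1) (p (nat_lit 0xc1) (nat_lit 0) (p (nat_lit 0x101) (nat_lit 1) (p (nat_lit 0x119) (nat_lit 0) (p (nat_lit 0xd1) (nat_lit 0) (p (nat_lit 0x81) (nat_lit 0) (p (nat_lit 0x41) (nat_lit 1) (p (nat_lit 0x108090787089a) (nat_lit 0) (p (nat_lit 0x107888706861a) (nat_lit 0) (p (nat_lit 0x8000000000000070686078a) (nat_lit 0) (p (nat_lit 0x8000000000000068605850a) (nat_lit 0) (p (nat_lit 0x10705850682) (nat_lit 0) (p (nat_lit 0x10685048402)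 (nat_lit 0) (p (nat_lit 0x16000c) (nat_lit 0) (p (nat_lit 0x160004) (nat_lit 0) (p (nat_lit 0x60592) (nat_lit 0) (p (nat_lit 0x48512) (nat_lit 0) (p (nat_lit 0x50392) (nat_lit 0) (p (nat_lit 0x38312) (nat_lit 0) (p (nat_lit 0x40212) (nat_lit 0) (p (nat_lit 0x28192) (nat_lit 0) (p (nat_lit 0x30092) (nat_lit 0) (p (nat_lit 0x18012) (nat_lit 0) pn)))))))))))))))))))))))) :=
  Cl.node (nat_lit 0x200014) (nat_lit 2) (by decide +kernel) (ClAll.succ (ClAll.succ ClAll.zero n78) s96)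

def n101 : Cl (O (nat_lit 4)) (R (nat_lit 6353))
    (p (nat_lit 0x200014) (nat_lit 0) (p (nat_lit 0x89) (nat_lit 1) (p (nat_lit 0xc1) (nat_lit 1) (p (nat_lit 0x101) (nat_lit 1) (p (nat_lit 0x119) (nat_lit 0) (p (nat_lit 0xd1) (nat_lit 0) (p (nat_lit 0x81) (nat_lit 0) (p (nat_lit 0x41) (nat_lit 1) (p (nat_lit 0x108090787089a) (nat_lit 0) (p (nat_lit 0x107888706861a) (nat_lit 0) (p (nat_lit 0x8000000000000070686078a) (nat_lit 0) (p (nat_lit 0x8000000000000068605850a) (nat_lit 0) (p (nat_lit 0x10705850682) (nat_lit 0) (p (nat_lit 0x10685048402) (nat_lit 0) (p (nat_lit 0x16000c) (nat_lit 0) (p (nat_lit 0x160004) (nat_lit 0) (p (nat_lit 0x60592) (nat_lit 0) (p (nat_lit 0x48512) (nat_lit 0) (p (nat_lit 0x50392) (nat_lit 0) (p (nat_lit 0x38312) (nat_lit 0) (p (nat_lit 0x40212) (nat_lit 0) (p (nat_lit 0x28192) (nat_lit 0) (p (nat_lit 0x30092) (nat_lit 0) (p (nat_lit 0x18012) (nat_lit 0) pn))))))))))))))))))))))))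 :=
  Cl.node (nat_lit 0xb0004) (nat_lit 2) (by decide +kernel) (ClAll.succ (ClAll.succ ClAll.zero n79) s103)

def n102 : Cl (O (nat_lit 4)) (R (nat_lit 6353))
    (p (nat_lit 0x109) (nat_lit 0) (p (nat_lit 0x89) (nat_lit 1) (p (nat_lit 0xc9) (nat_lit 1) (p (nat_lit 0xc1) (nat_lit 0) (p (nat_lit 0x119) (nat_lit 1) (p (nat_lit 0xd1) (nat_lit 0) (p (nat_lit 0x81) (nat_lit 0) (p (nat_lit 0x41) (nat_lit 1) (p (nat_lit 0x108090787089a) (nat_lit 0) (p (nat_lit 0x107888706861a) (nat_lit 0) (p (nat_lit 0x8000000000000070686078a) (nat_lit 0) (p (nat_lit 0x8000000000000068605850a) (nat_lit 0) (p (nat_lit 0x10705850682) (nat_lit 0) (p (nat_lit 0x10685048402) (nat_lit 0) (p (nat_lit 0x16000c) (nat_lit 0) (p (nat_lit 0x160004) (nat_lit 0) (p (nat_lit 0x60592) (nat_lit 0) (p (nat_lit 0x48512) (nat_lit 0) (p (nat_lit 0x50392) (nat_lit 0) (p (nat_lit 0x38312) (nat_lit 0) (p (nat_lit 0x40212) (nat_lit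 0) (p (nat_lit 0x28192) (nat_lit 0) (p (nat_lit 0x30092) (nat_lit 0) (p (nat_lit 0x18012) (nat_lit 0) pn)))))))))))))))))))))))) :=
  Cl.node (nat_lit 0x200014) (nat_lit 2) (by decide +kernel) (ClAll.succ (ClAll.succ ClAll.zero s107) s108)

def n103 : Cl (O (nat_lit 4)) (R (nat_lit 6353))
    (p (nat_lit 0x109) (nat_lit 1) (p (nat_lit 0x89) (nat_lit 1) (p (nat_lit 0xc9) (nat_lit 1) (p (nat_lit 0xc1) (nat_lit 0) (p (nat_lit 0x119) (nat_lit 1) (p (nat_lit 0xd1) (nat_lit 0) (p (nat_lit 0x81) (nat_lit 0) (p (nat_lit 0x41) (nat_lit 1) (p (nat_lit 0x108090787089a) (nat_lit 0) (p (nat_lit 0x107888706861a) (nat_lit 0) (p (nat_lit 0x8000000000000070686078a) (nat_lit 0) (p (nat_lit 0x8000000000000068605850a) (nat_lit 0) (p (nat_lit 0x10705850682) (nat_lit 0) (p (nat_lit 0x10685048402) (nat_lit 0) (p (nat_lit 0x16000c) (nat_lit 0) (p (nat_lit 0x160004) (nat_lit 0) (p (nat_lit 0x60592) (nat_lit 0)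 (p (nat_lit 0x48512) (nat_lit 0) (p (nat_lit 0x50392) (nat_lit 0) (p (nat_lit 0x38312) (nat_lit 0) (p (nat_lit 0x40212) (nat_lit 0) (p (nat_lit 0x28192) (nat_lit 0) (p (nat_lit 0x30092) (nat_lit 0) (p (nat_lit 0x18012) (nat_lit 0) pn)))))))))))))))))))))))) :=
  Cl.node (nat_lit 0x200014) (nat_lit 2) (by decide +kernel) (ClAll.succ (ClAll.succ ClAll.zero n80) s113)

def n104 : Cl (O (nat_lit 4)) (R (nat_lit 6353))
    (p (nat_lit 0x109) (nat_lit 0) (p (nat_lit 0x89) (nat_lit 1) (p (nat_lit 0x101) (nat_lit 0) (p (nat_lit 0xc1) (nat_lit 1) (p (nat_lit 0x119) (nat_lit 1) (p (nat_lit 0xd1) (nat_lit 0) (p (nat_lit 0x81) (nat_lit 0) (p (nat_lit 0x41) (nat_lit 1) (p (nat_lit 0x108090787089a) (nat_lit 0) (p (nat_lit 0x107888706861a) (nat_lit 0) (p (nat_lit 0x8000000000000070686078a) (nat_lit 0) (p (nat_lit 0x8000000000000068605850a) (nat_lit 0) (p (nat_lit 0x10705850682) (nat_lit 0) (p (nat_lit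 0x10685048402) (nat_lit 0) (p (nat_lit 0x16000c) (nat_lit 0) (p (nat_lit 0x160004) (nat_lit 0) (p (nat_lit 0x60592) (nat_lit 0) (p (nat_lit 0x48512) (nat_lit 0) (p (nat_lit 0x50392) (nat_lit 0) (p (nat_lit 0x38312) (nat_lit 0) (p (nat_lit 0x40212) (nat_lit 0) (p (nat_lit 0x28192) (nat_lit 0) (p (nat_lit 0x30092) (nat_lit 0) (p (nat_lit 0x18012) (nat_lit 0) pn)))))))))))))))))))))))) :=
  Cl.node (nat_lit 0x200014) (nat_lit 2) (by decide +kernel) (ClAll.succ (ClAll.succ ClAll.zero s115) s116)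

def n105 : Cl (O (nat_lit 4)) (R (nat_lit 6353))
    (p (nat_lit 0x109) (nat_lit 1) (p (nat_lit 0x89) (nat_lit 1) (p (nat_lit 0x101) (nat_lit 0) (p (nat_lit 0xc1) (nat_lit 1) (p (nat_lit 0x119) (nat_lit 1) (p (nat_lit 0xd1) (nat_lit 0) (p (nat_lit 0x81) (nat_lit 0) (p (nat_lit 0x41) (nat_lit 1) (p (nat_lit 0x108090787089a) (nat_lit 0) (p (nat_lit 0x107888706861a) (nat_lit 0) (p (nat_lit 0x8000000000000070686078a) (nat_lit 0) (p (nat_lit 0x8000000000000068605850a) (nat_lit 0) (p (nat_lit 0x10705850682) (nat_lit 0) (p (nat_lit 0x10685048402) (nat_lit 0) (p (nat_lit 0x16000c) (nat_lit 0) (p (nat_lit 0x160004) (nat_lit 0) (p (nat_lit 0x60592) (nat_lit 0) (p (nat_lit 0x48512) (nat_lit 0) (p (nat_lit 0x50392) (nat_lit 0) (p (nat_lit 0x38312) (nat_lit 0) (p (nat_lit 0x40212) (nat_lit 0) (p (nat_lit 0x28192) (nat_lit 0) (p (nat_lit 0x30092) (nat_lit 0) (p (nat_lit 0x18012) (nat_lit 0) pn))))))))))))))))))))))))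 :=
  Cl.node (nat_lit 0x200014) (nat_lit 2) (by decide +kernel) (ClAll.succ (ClAll.succ ClAll.zero n81) s121)

def n106 : Cl (O (nat_lit 4)) (R (nat_lit 6353))
    (p (nat_lit 0x200014) (nat_lit 0) (p (nat_lit 0x89) (nat_lit 1) (p (nat_lit 0x101) (nat_lit 1) (p (nat_lit 0xc1) (nat_lit 1) (p (nat_lit 0x119) (nat_lit 1) (p (nat_lit 0xd1) (nat_lit 0) (p (nat_lit 0x81) (nat_lit 0) (p (nat_lit 0x41) (nat_lit 1) (p (nat_lit 0x108090787089a) (nat_lit 0) (p (nat_lit 0x107888706861a) (nat_lit 0) (p (nat_lit 0x8000000000000070686078a) (nat_lit 0) (p (nat_lit 0x8000000000000068605850a) (nat_lit 0) (p (nat_lit 0x10705850682) (nat_lit 0) (p (nat_lit 0x10685048402) (nat_lit 0) (p (nat_lit 0x16000c) (nat_lit 0) (p (nat_lit 0x160004) (nat_lit 0) (p (nat_lit 0x60592) (nat_lit 0) (p (nat_lit 0x48512) (nat_lit 0) (p (nat_lit 0x50392) (nat_lit 0) (p (nat_lit 0x38312) (nat_lit 0) (p (nat_lit 0x40212) (nat_lit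 0) (p (nat_lit 0x28192) (nat_lit 0) (p (nat_lit 0x30092) (nat_lit 0) (p (nat_lit 0x18012) (nat_lit 0) pn)))))))))))))))))))))))) :=
  Cl.node (nat_lit 0xb0004) (nat_lit 2) (by decide +kernel) (ClAll.succ (ClAll.succ ClAll.zero n82) s128)

def n107 : Cl (O (nat_lit 4)) (R (nat_lit 6353))
    (p (nat_lit 0xc9) (nat_lit 0) (p (nat_lit 0x89) (nat_lit 1) (p (nat_lit 0x109) (nat_lit 1) (p (nat_lit 0x101) (nat_lit 0) (p (nat_lit 0x111) (nat_lit 0) (p (nat_lit 0xd1) (nat_lit 1) (p (nat_lit 0x81) (nat_lit 0) (p (nat_lit 0x41) (nat_lit 1) (p (nat_lit 0x108090787089a) (nat_lit 0) (p (nat_lit 0x107888706861a) (nat_lit 0) (p (nat_lit 0x8000000000000070686078a) (nat_lit 0) (p (nat_lit 0x8000000000000068605850a) (nat_lit 0) (p (nat_lit 0x10705850682) (nat_lit 0) (p (nat_lit 0x10685048402) (nat_lit 0) (p (nat_lit 0x16000c) (nat_lit 0) (p (nat_lit 0x160004) (nat_lit 0) (p (nat_lit 0x60592) (nat_lit 0)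 (p (nat_lit 0x48512) (nat_lit 0) (p (nat_lit 0x50392) (nat_lit 0) (p (nat_lit 0x38312) (nat_lit 0) (p (nat_lit 0x40212) (nat_lit 0) (p (nat_lit 0x28192) (nat_lit 0) (p (nat_lit 0x30092) (nat_lit 0) (p (nat_lit 0x18012) (nat_lit 0) pn)))))))))))))))))))))))) :=
  Cl.node (nat_lit 0x200014) (nat_lit 2) (by decide +kernel) (ClAll.succ (ClAll.succ ClAll.zero n83) s139)

def n108 : Cl (O (nat_lit 4)) (R (nat_lit 6353))
    (p (nat_lit 0x200014) (nat_lit 0) (p (nat_lit 0xc9) (nat_lit 0) (p (nat_lit 0x89) (nat_lit 1) (p (nat_lit 0x101) (nat_lit 1) (p (nat_lit 0x111) (nat_lit 0) (p (nat_lit 0xd1) (nat_lit 1) (p (nat_lit 0x81) (nat_lit 0) (p (nat_lit 0x41) (nat_lit 1) (p (nat_lit 0x108090787089a) (nat_lit 0) (p (nat_lit 0x107888706861a) (nat_lit 0) (p (nat_lit 0x8000000000000070686078a) (nat_lit 0) (p (nat_lit 0x8000000000000068605850a) (nat_lit 0) (p (nat_lit 0x10705850682) (nat_lit 0) (p (nat_lit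 0x10685048402) (nat_lit 0) (p (nat_lit 0x16000c) (nat_lit 0) (p (nat_lit 0x160004) (nat_lit 0) (p (nat_lit 0x60592) (nat_lit 0) (p (nat_lit 0x48512) (nat_lit 0) (p (nat_lit 0x50392) (nat_lit 0) (p (nat_lit 0x38312) (nat_lit 0) (p (nat_lit 0x40212) (nat_lit 0) (p (nat_lit 0x28192) (nat_lit 0) (p (nat_lit 0x30092) (nat_lit 0) (p (nat_lit 0x18012) (nat_lit 0) pn)))))))))))))))))))))))) :=
  Cl.node (nat_lit 0xb0004) (nat_lit 2) (by decide +kernel) (ClAll.succ (ClAll.succ ClAll.zero s142) s143)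

def n109 : Cl (O (nat_lit 4)) (R (nat_lit 6353))
    (p (nat_lit 0x200014) (nat_lit 0) (p (nat_lit 0x109) (nat_lit 1) (p (nat_lit 0xc9) (nat_lit 1) (p (nat_lit 0x89) (nat_lit 1) (p (nat_lit 0x111) (nat_lit 1) (p (nat_lit 0xd1) (nat_lit 1) (p (nat_lit 0x81) (nat_lit 0) (p (nat_lit 0x41) (nat_lit 1) (p (nat_lit 0x108090787089a) (nat_lit 0) (p (nat_lit 0x107888706861a) (nat_lit 0) (p (nat_lit 0x8000000000000070686078a) (nat_lit 0) (p (nat_lit 0x8000000000000068605850a) (nat_lit 0) (p (nat_lit 0x10705850682) (nat_lit 0) (p (nat_lit 0x10685048402) (nat_lit 0) (p (nat_lit 0x16000c) (nat_lit 0) (p (nat_lit 0x160004) (nat_lit 0) (p (nat_lit 0x60592) (nat_lit 0) (p (nat_lit 0x48512) (nat_lit 0) (p (nat_lit 0x50392) (nat_lit 0) (p (nat_lit 0x38312) (nat_lit 0) (p (nat_lit 0x40212) (nat_lit 0) (p (nat_lit 0x28192) (nat_lit 0) (p (nat_lit 0x30092) (nat_lit 0) (p (nat_lit 0x18012) (nat_lit 0) pn))))))))))))))))))))))))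 :=
  Cl.node (nat_lit 0xb0004) (nat_lit 2) (by decide +kernel) (ClAll.succ (ClAll.succ ClAll.zero n84) s152)

def n110 : Cl (O (nat_lit 4)) (R (nat_lit 6353))
    (p (nat_lit 0x200014) (nat_lit 0) (p (nat_lit 0x111) (nat_lit 1) (p (nat_lit 0xd1) (nat_lit 1) (p (nat_lit 0xc9) (nat_lit 0) (p (nat_lit 0x119) (nat_lit 1) (p (nat_lit 0xc1) (nat_lit 0) (p (nat_lit 0x81) (nat_lit 1) (p (nat_lit 0x41) (nat_lit 1) (p (nat_lit 0x108090787089a) (nat_lit 0) (p (nat_lit 0x107888706861a) (nat_lit 0) (p (nat_lit 0x8000000000000070686078a) (nat_lit 0) (p (nat_lit 0x8000000000000068605850a) (nat_lit 0) (p (nat_lit 0x10705850682) (nat_lit 0) (p (nat_lit 0x10685048402) (nat_lit 0) (p (nat_lit 0x16000c) (nat_lit 0) (p (nat_lit 0x160004) (nat_lit 0) (p (nat_lit 0x60592) (nat_lit 0) (p (nat_lit 0x48512) (nat_lit 0) (p (nat_lit 0x50392) (nat_lit 0) (p (nat_lit 0x38312) (nat_lit 0) (p (nat_lit 0x40212) (nat_lit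 0) (p (nat_lit 0x28192) (nat_lit 0) (p (nat_lit 0x30092) (nat_lit 0) (p (nat_lit 0x18012) (nat_lit 0) pn)))))))))))))))))))))))) :=
  Cl.node (nat_lit 0xb0004) (nat_lit 2) (by decide +kernel) (ClAll.succ (ClAll.succ ClAll.zero n85) s163)

def n111 : Cl (O (nat_lit 4)) (R (nat_lit 6353))
    (p (nat_lit 0x200014) (nat_lit 0) (p (nat_lit 0x111) (nat_lit 1) (p (nat_lit 0x109) (nat_lit 0) (p (nat_lit 0xc9) (nat_lit 1) (p (nat_lit 0x119) (nat_lit 1) (p (nat_lit 0xc1) (nat_lit 0) (p (nat_lit 0x81) (nat_lit 1) (p (nat_lit 0x41) (nat_lit 1) (p (nat_lit 0x108090787089a) (nat_lit 0) (p (nat_lit 0x107888706861a) (nat_lit 0) (p (nat_lit 0x8000000000000070686078a) (nat_lit 0) (p (nat_lit 0x8000000000000068605850a) (nat_lit 0) (p (nat_lit 0x10705850682) (nat_lit 0) (p (nat_lit 0x10685048402) (nat_lit 0) (p (nat_lit 0x16000c) (nat_lit 0) (p (nat_lit 0x160004) (nat_lit 0) (p (nat_lit 0x60592) (nat_lit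 0) (p (nat_lit 0x48512) (nat_lit 0) (p (nat_lit 0x50392) (nat_lit 0) (p (nat_lit 0x38312) (nat_lit 0) (p (nat_lit 0x40212) (nat_lit 0) (p (nat_lit 0x28192) (nat_lit 0) (p (nat_lit 0x30092) (nat_lit 0) (p (nat_lit 0x18012) (nat_lit 0) pn)))))))))))))))))))))))) :=
  Cl.node (nat_lit 0xb0004) (nat_lit 2) (by decide +kernel) (ClAll.succ (ClAll.succ ClAll.zero s166) s167)

def n112 : Cl (O (nat_lit 4)) (R (nat_lit 6353))
    (p (nat_lit 0xc9) (nat_lit 0) (p (nat_lit 0x81) (nat_lit 0) (p (nat_lit 0x101) (nat_lit 1) (p (nat_lit 0x119) (nat_lit 0) (p (nat_lit 0xd1) (nat_lit 0) (p (nat_lit 0x89) (nat_lit 0) (p (nat_lit 0x41) (nat_lit 0) (p (nat_lit 0x108090787089a) (nat_lit 0) (p (nat_lit 0x107888706861a) (nat_lit 0) (p (nat_lit 0x8000000000000070686078a) (nat_lit 0) (p (nat_lit 0x8000000000000068605850a) (nat_lit 0) (p (nat_lit 0x10705850682) (nat_lit 0) (p (nat_lit 0x10685048402) (nat_lit 0)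 (p (nat_lit 0x16000c) (nat_lit 0) (p (nat_lit 0x160004) (nat_lit 0) (p (nat_lit 0x60592) (nat_lit 0) (p (nat_lit 0x48512) (nat_lit 0) (p (nat_lit 0x50392) (nat_lit 0) (p (nat_lit 0x38312) (nat_lit 0) (p (nat_lit 0x40212) (nat_lit 0) (p (nat_lit 0x28192) (nat_lit 0) (p (nat_lit 0x30092) (nat_lit 0) (p (nat_lit 0x18012) (nat_lit 0) pn))))))))))))))))))))))) :=
  Cl.node (nat_lit 0x200014) (nat_lit 2) (by decide +kernel) (ClAll.succ (ClAll.succ ClAll.zero n86) s5)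

def n113 : Cl (O (nat_lit 4)) (R (nat_lit 6353))
    (p (nat_lit 0xc9) (nat_lit 1) (p (nat_lit 0x81) (nat_lit 0) (p (nat_lit 0x101) (nat_lit 1) (p (nat_lit 0x119) (nat_lit 0) (p (nat_lit 0xd1) (nat_lit 0) (p (nat_lit 0x89) (nat_lit 0) (p (nat_lit 0x41) (nat_lit 0) (p (nat_lit 0x108090787089a) (nat_lit 0) (p (nat_lit 0x107888706861a) (nat_lit 0) (p (nat_lit 0x8000000000000070686078a) (nat_lit 0) (p (nat_lit 0x8000000000000068605850a) (nat_lit 0) (p (nat_lit 0x10705850682) (nat_lit 0) (p (nat_lit 0x10685048402) (nat_lit 0) (p (nat_lit 0x16000c) (nat_lit 0) (p (nat_lit 0x160004) (nat_lit 0) (p (nat_lit 0x60592) (nat_lit 0) (p (nat_lit 0x48512) (nat_lit 0) (p (nat_lit 0x50392) (nat_lit 0) (p (nat_lit 0x38312) (nat_lit 0) (p (nat_lit 0x40212) (nat_lit 0) (p (nat_lit 0x28192) (nat_lit 0) (p (nat_lit 0x30092) (nat_lit 0) (p (nat_lit 0x18012) (nat_lit 0) pn))))))))))))))))))))))) :=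
  Cl.node (nat_lit 0x200014) (nat_lit 2) (by decide +kernel) (ClAll.succ (ClAll.succ ClAll.zero n87) s11)

def n114 : Cl (O (nat_lit 4)) (R (nat_lit 6353))
    (p (nat_lit 0xc1) (nat_lit 0) (p (nat_lit 0x81) (nat_lit 1) (p (nat_lit 0x101) (nat_lit 1) (p (nat_lit 0x119) (nat_lit 0) (p (nat_lit 0xd1) (nat_lit 0) (p (nat_lit 0x89) (nat_lit 0) (p (nat_lit 0x41) (nat_lit 0) (p (nat_lit 0x108090787089a) (nat_lit 0) (p (nat_lit 0x107888706861a) (nat_lit 0) (p (nat_lit 0x8000000000000070686078a) (nat_lit 0) (p (nat_lit 0x8000000000000068605850a) (nat_lit 0) (p (nat_lit 0x10705850682) (nat_lit 0) (p (nat_lit 0x10685048402) (nat_lit 0) (p (nat_lit 0x16000c) (nat_lit 0) (p (nat_lit 0x160004) (nat_lit 0) (p (nat_lit 0x60592) (nat_lit 0) (p (nat_lit 0x48512) (nat_lit 0) (p (nat_lit 0x50392) (nat_lit 0) (p (nat_lit 0x38312) (nat_lit 0) (p (nat_lit 0x40212) (nat_lit 0) (p (nat_lit 0x28192) (nat_lit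 0) (p (nat_lit 0x30092) (nat_lit 0) (p (nat_lit 0x18012) (nat_lit 0) pn))))))))))))))))))))))) :=
  Cl.node (nat_lit 0xc9) (nat_lit 2) (by decide +kernel) (ClAll.succ (ClAll.succ ClAll.zero n88) n89)

def n115 : Cl (O (nat_lit 4)) (R (nat_lit 6353))
    (p (nat_lit 0x109) (nat_lit 1) (p (nat_lit 0xc9) (nat_lit 1) (p (nat_lit 0xc1) (nat_lit 0) (p (nat_lit 0x119) (nat_lit 1) (p (nat_lit 0xd1) (nat_lit 0) (p (nat_lit 0x89) (nat_lit 0) (p (nat_lit 0x41) (nat_lit 0) (p (nat_lit 0x108090787089a) (nat_lit 0) (p (nat_lit 0x107888706861a) (nat_lit 0) (p (nat_lit 0x8000000000000070686078a) (nat_lit 0) (p (nat_lit 0x8000000000000068605850a) (nat_lit 0) (p (nat_lit 0x10705850682) (nat_lit 0) (p (nat_lit 0x10685048402) (nat_lit 0) (p (nat_lit 0x16000c) (nat_lit 0) (p (nat_lit 0x160004) (nat_lit 0) (p (nat_lit 0x60592) (nat_lit 0) (p (nat_lit 0x48512) (nat_lit 0) (p (nat_lit 0x50392) (nat_lit 0) (p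 (nat_lit 0x38312) (nat_lit 0) (p (nat_lit 0x40212) (nat_lit 0) (p (nat_lit 0x28192) (nat_lit 0) (p (nat_lit 0x30092) (nat_lit 0) (p (nat_lit 0x18012) (nat_lit 0) pn))))))))))))))))))))))) :=
  Cl.node (nat_lit 0x200014) (nat_lit 2) (by decide +kernel) (ClAll.succ (ClAll.succ ClAll.zero n90) s26)

def n116 : Cl (O (nat_lit 4)) (R (nat_lit 6353))
    (p (nat_lit 0x109) (nat_lit 1) (p (nat_lit 0x81) (nat_lit 0) (p (nat_lit 0xc1) (nat_lit 1) (p (nat_lit 0x119) (nat_lit 1) (p (nat_lit 0xd1) (nat_lit 0) (p (nat_lit 0x89) (nat_lit 0) (p (nat_lit 0x41) (nat_lit 0) (p (nat_lit 0x108090787089a) (nat_lit 0) (p (nat_lit 0x107888706861a) (nat_lit 0) (p (nat_lit 0x8000000000000070686078a) (nat_lit 0) (p (nat_lit 0x8000000000000068605850a) (nat_lit 0) (p (nat_lit 0x10705850682) (nat_lit 0) (p (nat_lit 0x10685048402) (nat_lit 0) (p (nat_lit 0x16000c) (nat_lit 0) (p (nat_lit 0x160004) (nat_lit 0) (p (nat_lit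 0x60592) (nat_lit 0) (p (nat_lit 0x48512) (nat_lit 0) (p (nat_lit 0x50392) (nat_lit 0) (p (nat_lit 0x38312) (nat_lit 0) (p (nat_lit 0x40212) (nat_lit 0) (p (nat_lit 0x28192) (nat_lit 0) (p (nat_lit 0x30092) (nat_lit 0) (p (nat_lit 0x18012) (nat_lit 0) pn))))))))))))))))))))))) :=
  Cl.node (nat_lit 0x200014) (nat_lit 2) (by decide +kernel) (ClAll.succ (ClAll.succ ClAll.zero n91) s30)

def n117 : Cl (O (nat_lit 4)) (R (nat_lit 6353))
    (p (nat_lit 0x101) (nat_lit 0) (p (nat_lit 0x81) (nat_lit 1) (p (nat_lit 0xc1) (nat_lit 1) (p (nat_lit 0x119) (nat_lit 1) (p (nat_lit 0xd1) (nat_lit 0) (p (nat_lit 0x89) (nat_lit 0) (p (nat_lit 0x41) (nat_lit 0) (p (nat_lit 0x108090787089a) (nat_lit 0) (p (nat_lit 0x107888706861a) (nat_lit 0) (p (nat_lit 0x8000000000000070686078a) (nat_lit 0) (p (nat_lit 0x8000000000000068605850a) (nat_lit 0) (p (nat_lit 0x10705850682) (nat_lit 0) (p (nat_lit 0x10685048402)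 (nat_lit 0) (p (nat_lit 0x16000c) (nat_lit 0) (p (nat_lit 0x160004) (nat_lit 0) (p (nat_lit 0x60592) (nat_lit 0) (p (nat_lit 0x48512) (nat_lit 0) (p (nat_lit 0x50392) (nat_lit 0) (p (nat_lit 0x38312) (nat_lit 0) (p (nat_lit 0x40212) (nat_lit 0) (p (nat_lit 0x28192) (nat_lit 0) (p (nat_lit 0x30092) (nat_lit 0) (p (nat_lit 0x18012) (nat_lit 0) pn))))))))))))))))))))))) :=
  Cl.node (nat_lit 0x109) (nat_lit 2) (by decide +kernel) (ClAll.succ (ClAll.succ ClAll.zero n92) n93)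

def n118 : Cl (O (nat_lit 4)) (R (nat_lit 6353))
    (p (nat_lit 0x101) (nat_lit 1) (p (nat_lit 0x81) (nat_lit 1) (p (nat_lit 0xc1) (nat_lit 1) (p (nat_lit 0x119) (nat_lit 1) (p (nat_lit 0xd1) (nat_lit 0) (p (nat_lit 0x89) (nat_lit 0) (p (nat_lit 0x41) (nat_lit 0) (p (nat_lit 0x108090787089a) (nat_lit 0) (p (nat_lit 0x107888706861a) (nat_lit 0) (p (nat_lit 0x8000000000000070686078a) (nat_lit 0) (p (nat_lit 0x8000000000000068605850a) (nat_lit 0) (p (nat_lit 0x10705850682) (nat_lit 0) (p (nat_lit 0x10685048402) (nat_lit 0) (p (nat_lit 0x16000c) (nat_lit 0) (p (nat_lit 0x160004) (nat_lit 0) (p (nat_lit 0x60592) (nat_lit 0) (p (nat_lit 0x48512) (nat_lit 0) (p (nat_lit 0x50392) (nat_lit 0) (p (nat_lit 0x38312) (nat_lit 0) (p (nat_lit 0x40212) (nat_lit 0) (p (nat_lit 0x28192) (nat_lit 0) (p (nat_lit 0x30092) (nat_lit 0) (p (nat_lit 0x18012) (nat_lit 0) pn))))))))))))))))))))))) :=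
  Cl.node (nat_lit 0x200014) (nat_lit 2) (by decide +kernel) (ClAll.succ (ClAll.succ ClAll.zero n94) s40)

def n119 : Cl (O (nat_lit 4)) (R (nat_lit 6353))
    (p (nat_lit 0xc1) (nat_lit 0) (p (nat_lit 0x81) (nat_lit 1) (p (nat_lit 0x101) (nat_lit 1) (p (nat_lit 0x111) (nat_lit 0) (p (nat_lit 0xd1) (nat_lit 1) (p (nat_lit 0x89) (nat_lit 0) (p (nat_lit 0x41) (nat_lit 0) (p (nat_lit 0x108090787089a) (nat_lit 0) (p (nat_lit 0x107888706861a) (nat_lit 0) (p (nat_lit 0x8000000000000070686078a) (nat_lit 0) (p (nat_lit 0x8000000000000068605850a) (nat_lit 0) (p (nat_lit 0x10705850682) (nat_lit 0) (p (nat_lit 0x10685048402) (nat_lit 0) (p (nat_lit 0x16000c) (nat_lit 0) (p (nat_lit 0x160004) (nat_lit 0) (p (nat_lit 0x60592) (nat_lit 0) (p (nat_lit 0x48512) (nat_lit 0) (p (nat_lit 0x50392) (nat_lit 0) (p (nat_lit 0x38312) (nat_lit 0) (p (nat_lit 0x40212) (nat_lit 0) (p (nat_lit 0x28192) (nat_lit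 0) (p (nat_lit 0x30092) (nat_lit 0) (p (nat_lit 0x18012) (nat_lit 0) pn))))))))))))))))))))))) :=
  Cl.node (nat_lit 0x200014) (nat_lit 2) (by decide +kernel) (ClAll.succ (ClAll.succ ClAll.zero n95) s50)

def n120 : Cl (O (nat_lit 4)) (R (nat_lit 6353))
    (p (nat_lit 0x101) (nat_lit 1) (p (nat_lit 0xc1) (nat_lit 1) (p (nat_lit 0x81) (nat_lit 1) (p (nat_lit 0x111) (nat_lit 1) (p (nat_lit 0xd1) (nat_lit 1) (p (nat_lit 0x89) (nat_lit 0) (p (nat_lit 0x41) (nat_lit 0) (p (nat_lit 0x108090787089a) (nat_lit 0) (p (nat_lit 0x107888706861a) (nat_lit 0) (p (nat_lit 0x8000000000000070686078a) (nat_lit 0) (p (nat_lit 0x8000000000000068605850a) (nat_lit 0) (p (nat_lit 0x10705850682) (nat_lit 0) (p (nat_lit 0x10685048402) (nat_lit 0) (p (nat_lit 0x16000c) (nat_lit 0) (p (nat_lit 0x160004) (nat_lit 0) (p (nat_lit 0x60592) (nat_lit 0) (p (nat_lit 0x48512) (nat_lit 0) (p (nat_lit 0x50392) (nat_lit 0)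 (p (nat_lit 0x38312) (nat_lit 0) (p (nat_lit 0x40212) (nat_lit 0) (p (nat_lit 0x28192) (nat_lit 0) (p (nat_lit 0x30092) (nat_lit 0) (p (nat_lit 0x18012) (nat_lit 0) pn))))))))))))))))))))))) :=
  Cl.node (nat_lit 0x200014) (nat_lit 2) (by decide +kernel) (ClAll.succ (ClAll.succ ClAll.zero s55) s56)

def n121 : Cl (O (nat_lit 4)) (R (nat_lit 6353))
    (p (nat_lit 0xd1) (nat_lit 0) (p (nat_lit 0xc1) (nat_lit 0) (p (nat_lit 0x101) (nat_lit 1) (p (nat_lit 0x119) (nat_lit 0) (p (nat_lit 0xc9) (nat_lit 0) (p (nat_lit 0x89) (nat_lit 1) (p (nat_lit 0x41) (nat_lit 0) (p (nat_lit 0x108090787089a) (nat_lit 0) (p (nat_lit 0x107888706861a) (nat_lit 0) (p (nat_lit 0x8000000000000070686078a) (nat_lit 0) (p (nat_lit 0x8000000000000068605850a) (nat_lit 0) (p (nat_lit 0x10705850682) (nat_lit 0) (p (nat_lit 0x10685048402) (nat_lit 0) (p (nat_lit 0x16000c) (nat_lit 0) (p (nat_lit 0x160004) (nat_lit 0) (p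 (nat_lit 0x60592) (nat_lit 0) (p (nat_lit 0x48512) (nat_lit 0) (p (nat_lit 0x50392) (nat_lit 0) (p (nat_lit 0x38312) (nat_lit 0) (p (nat_lit 0x40212) (nat_lit 0) (p (nat_lit 0x28192) (nat_lit 0) (p (nat_lit 0x30092) (nat_lit 0) (p (nat_lit 0x18012) (nat_lit 0) pn))))))))))))))))))))))) :=
  Cl.node (nat_lit 0x200014) (nat_lit 2) (by decide +kernel) (ClAll.succ (ClAll.succ ClAll.zero s59) s60)

def n122 : Cl (O (nat_lit 4)) (R (nat_lit 6353))
    (p (nat_lit 0x111) (nat_lit 1) (p (nat_lit 0xd1) (nat_lit 1) (p (nat_lit 0xc1) (nat_lit 0) (p (nat_lit 0x119) (nat_lit 1) (p (nat_lit 0xc9) (nat_lit 0) (p (nat_lit 0x89) (nat_lit 1) (p (nat_lit 0x41) (nat_lit 0) (p (nat_lit 0x108090787089a) (nat_lit 0) (p (nat_lit 0x107888706861a) (nat_lit 0) (p (nat_lit 0x8000000000000070686078a) (nat_lit 0) (p (nat_lit 0x8000000000000068605850a) (nat_lit 0) (p (nat_lit 0x10705850682) (nat_lit 0) (p (nat_lit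 0x10685048402) (nat_lit 0) (p (nat_lit 0x16000c) (nat_lit 0) (p (nat_lit 0x160004) (nat_lit 0) (p (nat_lit 0x60592) (nat_lit 0) (p (nat_lit 0x48512) (nat_lit 0) (p (nat_lit 0x50392) (nat_lit 0) (p (nat_lit 0x38312) (nat_lit 0) (p (nat_lit 0x40212) (nat_lit 0) (p (nat_lit 0x28192) (nat_lit 0) (p (nat_lit 0x30092) (nat_lit 0) (p (nat_lit 0x18012) (nat_lit 0) pn))))))))))))))))))))))) :=
  Cl.node (nat_lit 0x200014) (nat_lit 2) (by decide +kernel) (ClAll.succ (ClAll.succ ClAll.zero n96) s69)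

def n123 : Cl (O (nat_lit 4)) (R (nat_lit 6353))
    (p (nat_lit 0x111) (nat_lit 1) (p (nat_lit 0x101) (nat_lit 0) (p (nat_lit 0xc1) (nat_lit 1) (p (nat_lit 0x119) (nat_lit 1) (p (nat_lit 0xc9) (nat_lit 0) (p (nat_lit 0x89) (nat_lit 1) (p (nat_lit 0x41) (nat_lit 0) (p (nat_lit 0x108090787089a) (nat_lit 0) (p (nat_lit 0x107888706861a) (nat_lit 0) (p (nat_lit 0x8000000000000070686078a) (nat_lit 0) (p (nat_lit 0x8000000000000068605850a) (nat_lit 0) (p (nat_lit 0x10705850682) (nat_lit 0) (p (nat_lit 0x10685048402) (nat_lit 0) (p (nat_lit 0x16000c) (nat_lit 0) (p (nat_lit 0x160004) (nat_lit 0) (p (nat_lit 0x60592) (nat_lit 0) (p (nat_lit 0x48512) (nat_lit 0) (p (nat_lit 0x50392) (nat_lit 0) (p (nat_lit 0x38312) (nat_lit 0) (p (nat_lit 0x40212) (nat_lit 0) (p (nat_lit 0x28192) (nat_lit 0) (p (nat_lit 0x30092) (nat_lit 0) (p (nat_lit 0x18012) (nat_lit 0) pn))))))))))))))))))))))) :=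
  Cl.node (nat_lit 0x200014) (nat_lit 2) (by decide +kernel) (ClAll.succ (ClAll.succ ClAll.zero s71) s72)

def n124 : Cl (O (nat_lit 4)) (R (nat_lit 6353))
    (p (nat_lit 0x89) (nat_lit 0) (p (nat_lit 0x109) (nat_lit 1) (p (nat_lit 0x101) (nat_lit 0) (p (nat_lit 0x119) (nat_lit 0) (p (nat_lit 0xd1) (nat_lit 0) (p (nat_lit 0x81) (nat_lit 0) (p (nat_lit 0x41) (nat_lit 1) (p (nat_lit 0x108090787089a) (nat_lit 0) (p (nat_lit 0x107888706861a) (nat_lit 0) (p (nat_lit 0x8000000000000070686078a) (nat_lit 0) (p (nat_lit 0x8000000000000068605850a) (nat_lit 0) (p (nat_lit 0x10705850682) (nat_lit 0) (p (nat_lit 0x10685048402) (nat_lit 0) (p (nat_lit 0x16000c) (nat_lit 0) (p (nat_lit 0x160004) (nat_lit 0) (p (nat_lit 0x60592) (nat_lit 0) (p (nat_lit 0x48512) (nat_lit 0) (p (nat_lit 0x50392) (nat_lit 0) (p (nat_lit 0x38312) (nat_lit 0) (p (nat_lit 0x40212) (nat_lit 0) (p (nat_lit 0x28192) (nat_lit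 0) (p (nat_lit 0x30092) (nat_lit 0) (p (nat_lit 0x18012) (nat_lit 0) pn))))))))))))))))))))))) :=
  Cl.node (nat_lit 0x200014) (nat_lit 2) (by decide +kernel) (ClAll.succ (ClAll.succ ClAll.zero n97) s81)

def n125 : Cl (O (nat_lit 4)) (R (nat_lit 6353))
    (p (nat_lit 0x89) (nat_lit 1) (p (nat_lit 0x109) (nat_lit 1) (p (nat_lit 0x101) (nat_lit 0) (p (nat_lit 0x119) (nat_lit 0) (p (nat_lit 0xd1) (nat_lit 0) (p (nat_lit 0x81) (nat_lit 0) (p (nat_lit 0x41) (nat_lit 1) (p (nat_lit 0x108090787089a) (nat_lit 0) (p (nat_lit 0x107888706861a) (nat_lit 0) (p (nat_lit 0x8000000000000070686078a) (nat_lit 0) (p (nat_lit 0x8000000000000068605850a) (nat_lit 0) (p (nat_lit 0x10705850682) (nat_lit 0) (p (nat_lit 0x10685048402) (nat_lit 0) (p (nat_lit 0x16000c) (nat_lit 0) (p (nat_lit 0x160004) (nat_lit 0) (p (nat_lit 0x60592) (nat_lit 0) (p (nat_lit 0x48512) (nat_lit 0) (p (nat_lit 0x50392) (nat_lit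 0) (p (nat_lit 0x38312) (nat_lit 0) (p (nat_lit 0x40212) (nat_lit 0) (p (nat_lit 0x28192) (nat_lit 0) (p (nat_lit 0x30092) (nat_lit 0) (p (nat_lit 0x18012) (nat_lit 0) pn))))))))))))))))))))))) :=
  Cl.node (nat_lit 0xc9) (nat_lit 2) (by decide +kernel) (ClAll.succ (ClAll.succ ClAll.zero n98) s86)

def n126 : Cl (O (nat_lit 4)) (R (nat_lit 6353))
    (p (nat_lit 0x89) (nat_lit 1) (p (nat_lit 0xc1) (nat_lit 0) (p (nat_lit 0x101) (nat_lit 1) (p (nat_lit 0x119) (nat_lit 0) (p (nat_lit 0xd1) (nat_lit 0) (p (nat_lit 0x81) (nat_lit 0) (p (nat_lit 0x41) (nat_lit 1) (p (nat_lit 0x108090787089a) (nat_lit 0) (p (nat_lit 0x107888706861a) (nat_lit 0) (p (nat_lit 0x8000000000000070686078a) (nat_lit 0) (p (nat_lit 0x8000000000000068605850a) (nat_lit 0) (p (nat_lit 0x10705850682) (nat_lit 0) (p (nat_lit 0x10685048402) (nat_lit 0) (p (nat_lit 0x16000c) (nat_lit 0) (p (nat_lit 0x160004) (nat_lit 0) (p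 (nat_lit 0x60592) (nat_lit 0) (p (nat_lit 0x48512) (nat_lit 0) (p (nat_lit 0x50392) (nat_lit 0) (p (nat_lit 0x38312) (nat_lit 0) (p (nat_lit 0x40212) (nat_lit 0) (p (nat_lit 0x28192) (nat_lit 0) (p (nat_lit 0x30092) (nat_lit 0) (p (nat_lit 0x18012) (nat_lit 0) pn))))))))))))))))))))))) :=
  Cl.node (nat_lit 0xc9) (nat_lit 2) (by decide +kernel) (ClAll.succ (ClAll.succ ClAll.zero n99) n100)

def n127 : Cl (O (nat_lit 4)) (R (nat_lit 6353))
    (p (nat_lit 0x89) (nat_lit 1) (p (nat_lit 0xc1) (nat_lit 1) (p (nat_lit 0x101) (nat_lit 1) (p (nat_lit 0x119) (nat_lit 0) (p (nat_lit 0xd1) (nat_lit 0) (p (nat_lit 0x81) (nat_lit 0) (p (nat_lit 0x41) (nat_lit 1) (p (nat_lit 0x108090787089a) (nat_lit 0) (p (nat_lit 0x107888706861a) (nat_lit 0) (p (nat_lit 0x8000000000000070686078a) (nat_lit 0) (p (nat_lit 0x8000000000000068605850a) (nat_lit 0) (p (nat_lit 0x10705850682) (nat_lit 0) (p (nat_lit 0x10685048402)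 (nat_lit 0) (p (nat_lit 0x16000c) (nat_lit 0) (p (nat_lit 0x160004) (nat_lit 0) (p (nat_lit 0x60592) (nat_lit 0) (p (nat_lit 0x48512) (nat_lit 0) (p (nat_lit 0x50392) (nat_lit 0) (p (nat_lit 0x38312) (nat_lit 0) (p (nat_lit 0x40212) (nat_lit 0) (p (nat_lit 0x28192) (nat_lit 0) (p (nat_lit 0x30092) (nat_lit 0) (p (nat_lit 0x18012) (nat_lit 0) pn))))))))))))))))))))))) :=
  Cl.node (nat_lit 0x200014) (nat_lit 2) (by decide +kernel) (ClAll.succ (ClAll.succ ClAll.zero n101) s104)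

def n128 : Cl (O (nat_lit 4)) (R (nat_lit 6353))
    (p (nat_lit 0x89) (nat_lit 1) (p (nat_lit 0xc9) (nat_lit 1) (p (nat_lit 0xc1) (nat_lit 0) (p (nat_lit 0x119) (nat_lit 1) (p (nat_lit 0xd1) (nat_lit 0) (p (nat_lit 0x81) (nat_lit 0) (p (nat_lit 0x41) (nat_lit 1) (p (nat_lit 0x108090787089a) (nat_lit 0) (p (nat_lit 0x107888706861a) (nat_lit 0) (p (nat_lit 0x8000000000000070686078a) (nat_lit 0) (p (nat_lit 0x8000000000000068605850a) (nat_lit 0) (p (nat_lit 0x10705850682) (nat_lit 0) (p (nat_lit 0x10685048402) (nat_lit 0) (p (nat_lit 0x16000c) (nat_lit 0) (p (nat_lit 0x160004) (nat_lit 0) (p (nat_lit 0x60592) (nat_lit 0) (p (nat_lit 0x48512) (nat_lit 0) (p (nat_lit 0x50392) (nat_lit 0) (p (nat_lit 0x38312) (nat_lit 0) (p (nat_lit 0x40212) (nat_lit 0) (p (nat_lit 0x28192) (nat_lit 0) (p (nat_lit 0x30092) (nat_lit 0) (p (nat_lit 0x18012) (nat_lit 0) pn))))))))))))))))))))))) :=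
  Cl.node (nat_lit 0x109) (nat_lit 2) (by decide +kernel) (ClAll.succ (ClAll.succ ClAll.zero n102) n103)

def n129 : Cl (O (nat_lit 4)) (R (nat_lit 6353))
    (p (nat_lit 0x89) (nat_lit 1) (p (nat_lit 0x101) (nat_lit 0) (p (nat_lit 0xc1) (nat_lit 1) (p (nat_lit 0x119) (nat_lit 1) (p (nat_lit 0xd1) (nat_lit 0) (p (nat_lit 0x81) (nat_lit 0) (p (nat_lit 0x41) (nat_lit 1) (p (nat_lit 0x108090787089a) (nat_lit 0) (p (nat_lit 0x107888706861a) (nat_lit 0) (p (nat_lit 0x8000000000000070686078a) (nat_lit 0) (p (nat_lit 0x8000000000000068605850a) (nat_lit 0) (p (nat_lit 0x10705850682) (nat_lit 0) (p (nat_lit 0x10685048402) (nat_lit 0) (p (nat_lit 0x16000c) (nat_lit 0) (p (nat_lit 0x160004) (nat_lit 0) (p (nat_lit 0x60592) (nat_lit 0) (p (nat_lit 0x48512) (nat_lit 0) (p (nat_lit 0x50392) (nat_lit 0) (p (nat_lit 0x38312) (nat_lit 0) (p (nat_lit 0x40212) (nat_lit 0) (p (nat_lit 0x28192) (nat_lit 0)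 (p (nat_lit 0x30092) (nat_lit 0) (p (nat_lit 0x18012) (nat_lit 0) pn))))))))))))))))))))))) :=
  Cl.node (nat_lit 0x109) (nat_lit 2) (by decide +kernel) (ClAll.succ (ClAll.succ ClAll.zero n104) n105)

def n130 : Cl (O (nat_lit 4)) (R (nat_lit 6353))
    (p (nat_lit 0x89) (nat_lit 1) (p (nat_lit 0x101) (nat_lit 1) (p (nat_lit 0xc1) (nat_lit 1) (p (nat_lit 0x119) (nat_lit 1) (p (nat_lit 0xd1) (nat_lit 0) (p (nat_lit 0x81) (nat_lit 0) (p (nat_lit 0x41) (nat_lit 1) (p (nat_lit 0x108090787089a) (nat_lit 0) (p (nat_lit 0x107888706861a) (nat_lit 0) (p (nat_lit 0x8000000000000070686078a) (nat_lit 0) (p (nat_lit 0x8000000000000068605850a) (nat_lit 0) (p (nat_lit 0x10705850682) (nat_lit 0) (p (nat_lit 0x10685048402) (nat_lit 0) (p (nat_lit 0x16000c) (nat_lit 0) (p (nat_lit 0x160004) (nat_lit 0) (p (nat_lit 0x60592) (nat_lit 0) (p (nat_lit 0x48512) (nat_lit 0) (p (nat_lit 0x50392) (nat_lit 0) (p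 (nat_lit 0x38312) (nat_lit 0) (p (nat_lit 0x40212) (nat_lit 0) (p (nat_lit 0x28192) (nat_lit 0) (p (nat_lit 0x30092) (nat_lit 0) (p (nat_lit 0x18012) (nat_lit 0) pn))))))))))))))))))))))) :=
  Cl.node (nat_lit 0x200014) (nat_lit 2) (by decide +kernel) (ClAll.succ (ClAll.succ ClAll.zero n106) s129)

def n131 : Cl (O (nat_lit 4)) (R (nat_lit 6353))
    (p (nat_lit 0x89) (nat_lit 1) (p (nat_lit 0x109) (nat_lit 1) (p (nat_lit 0x101) (nat_lit 0) (p (nat_lit 0x111) (nat_lit 0) (p (nat_lit 0xd1) (nat_lit 1) (p (nat_lit 0x81) (nat_lit 0) (p (nat_lit 0x41) (nat_lit 1) (p (nat_lit 0x108090787089a) (nat_lit 0) (p (nat_lit 0x107888706861a) (nat_lit 0) (p (nat_lit 0x8000000000000070686078a) (nat_lit 0) (p (nat_lit 0x8000000000000068605850a) (nat_lit 0) (p (nat_lit 0x10705850682) (nat_lit 0) (p (nat_lit 0x10685048402) (nat_lit 0) (p (nat_lit 0x16000c) (nat_lit 0) (p (nat_lit 0x160004) (nat_lit 0) (p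 (nat_lit 0x60592) (nat_lit 0) (p (nat_lit 0x48512) (nat_lit 0) (p (nat_lit 0x50392) (nat_lit 0) (p (nat_lit 0x38312) (nat_lit 0) (p (nat_lit 0x40212) (nat_lit 0) (p (nat_lit 0x28192) (nat_lit 0) (p (nat_lit 0x30092) (nat_lit 0) (p (nat_lit 0x18012) (nat_lit 0) pn))))))))))))))))))))))) :=
  Cl.node (nat_lit 0xc9) (nat_lit 2) (by decide +kernel) (ClAll.succ (ClAll.succ ClAll.zero n107) s140)

def n132 : Cl (O (nat_lit 4)) (R (nat_lit 6353))
    (p (nat_lit 0xc9) (nat_lit 0) (p (nat_lit 0x89) (nat_lit 1) (p (nat_lit 0x101) (nat_lit 1) (p (nat_lit 0x111) (nat_lit 0) (p (nat_lit 0xd1) (nat_lit 1) (p (nat_lit 0x81) (nat_lit 0) (p (nat_lit 0x41) (nat_lit 1) (p (nat_lit 0x108090787089a) (nat_lit 0) (p (nat_lit 0x107888706861a) (nat_lit 0) (p (nat_lit 0x8000000000000070686078a) (nat_lit 0) (p (nat_lit 0x8000000000000068605850a) (nat_lit 0) (p (nat_lit 0x10705850682) (nat_lit 0) (p (nat_lit 0x10685048402)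 (nat_lit 0) (p (nat_lit 0x16000c) (nat_lit 0) (p (nat_lit 0x160004) (nat_lit 0) (p (nat_lit 0x60592) (nat_lit 0) (p (nat_lit 0x48512) (nat_lit 0) (p (nat_lit 0x50392) (nat_lit 0) (p (nat_lit 0x38312) (nat_lit 0) (p (nat_lit 0x40212) (nat_lit 0) (p (nat_lit 0x28192) (nat_lit 0) (p (nat_lit 0x30092) (nat_lit 0) (p (nat_lit 0x18012) (nat_lit 0) pn))))))))))))))))))))))) :=
  Cl.node (nat_lit 0x200014) (nat_lit 2) (by decide +kernel) (ClAll.succ (ClAll.succ ClAll.zero n108) s144)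

def n133 : Cl (O (nat_lit 4)) (R (nat_lit 6353))
    (p (nat_lit 0x109) (nat_lit 0) (p (nat_lit 0xc9) (nat_lit 1) (p (nat_lit 0x89) (nat_lit 1) (p (nat_lit 0x111) (nat_lit 1) (p (nat_lit 0xd1) (nat_lit 1) (p (nat_lit 0x81) (nat_lit 0) (p (nat_lit 0x41) (nat_lit 1) (p (nat_lit 0x108090787089a) (nat_lit 0) (p (nat_lit 0x107888706861a) (nat_lit 0) (p (nat_lit 0x8000000000000070686078a) (nat_lit 0) (p (nat_lit 0x8000000000000068605850a) (nat_lit 0) (p (nat_lit 0x10705850682) (nat_lit 0) (p (nat_lit 0x10685048402) (nat_lit 0) (p (nat_lit 0x16000c) (nat_lit 0) (p (nat_lit 0x160004) (nat_lit 0) (p (nat_lit 0x60592) (nat_lit 0) (p (nat_lit 0x48512) (nat_lit 0) (p (nat_lit 0x50392) (nat_lit 0) (p (nat_lit 0x38312) (nat_lit 0) (p (nat_lit 0x40212) (nat_lit 0) (p (nat_lit 0x28192) (nat_lit 0) (p (nat_lit 0x30092) (nat_lit 0) (p (nat_lit 0x18012) (nat_lit 0) pn))))))))))))))))))))))) :=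
  Cl.node (nat_lit 0x200014) (nat_lit 2) (by decide +kernel) (ClAll.succ (ClAll.succ ClAll.zero s148) s149)

def n134 : Cl (O (nat_lit 4)) (R (nat_lit 6353))
    (p (nat_lit 0x109) (nat_lit 1) (p (nat_lit 0xc9) (nat_lit 1) (p (nat_lit 0x89) (nat_lit 1) (p (nat_lit 0x111) (nat_lit 1) (p (nat_lit 0xd1) (nat_lit 1) (p (nat_lit 0x81) (nat_lit 0) (p (nat_lit 0x41) (nat_lit 1) (p (nat_lit 0x108090787089a) (nat_lit 0) (p (nat_lit 0x107888706861a) (nat_lit 0) (p (nat_lit 0x8000000000000070686078a) (nat_lit 0) (p (nat_lit 0x8000000000000068605850a) (nat_lit 0) (p (nat_lit 0x10705850682) (nat_lit 0) (p (nat_lit 0x10685048402) (nat_lit 0) (p (nat_lit 0x16000c) (nat_lit 0) (p (nat_lit 0x160004) (nat_lit 0) (p (nat_lit 0x60592) (nat_lit 0) (p (nat_lit 0x48512) (nat_lit 0) (p (nat_lit 0x50392) (nat_lit 0) (p (nat_lit 0x38312) (nat_lit 0) (p (nat_lit 0x40212) (nat_lit 0) (p (nat_lit 0x28192) (nat_lit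 0) (p (nat_lit 0x30092) (nat_lit 0) (p (nat_lit 0x18012) (nat_lit 0) pn))))))))))))))))))))))) :=
  Cl.node (nat_lit 0x200014) (nat_lit 2) (by decide +kernel) (ClAll.succ (ClAll.succ ClAll.zero n109) s153)

def n135 : Cl (O (nat_lit 4)) (R (nat_lit 6353))
    (p (nat_lit 0x111) (nat_lit 1) (p (nat_lit 0xd1) (nat_lit 1) (p (nat_lit 0xc9) (nat_lit 0) (p (nat_lit 0x119) (nat_lit 1) (p (nat_lit 0xc1) (nat_lit 0) (p (nat_lit 0x81) (nat_lit 1) (p (nat_lit 0x41) (nat_lit 1) (p (nat_lit 0x108090787089a) (nat_lit 0) (p (nat_lit 0x107888706861a) (nat_lit 0) (p (nat_lit 0x8000000000000070686078a) (nat_lit 0) (p (nat_lit 0x8000000000000068605850a) (nat_lit 0) (p (nat_lit 0x10705850682) (nat_lit 0) (p (nat_lit 0x10685048402) (nat_lit 0) (p (nat_lit 0x16000c) (nat_lit 0) (p (nat_lit 0x160004) (nat_lit 0) (p (nat_lit 0x60592) (nat_lit 0) (p (nat_lit 0x48512) (nat_lit 0) (p (nat_lit 0x50392) (nat_lit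 0) (p (nat_lit 0x38312) (nat_lit 0) (p (nat_lit 0x40212) (nat_lit 0) (p (nat_lit 0x28192) (nat_lit 0) (p (nat_lit 0x30092) (nat_lit 0) (p (nat_lit 0x18012) (nat_lit 0) pn))))))))))))))))))))))) :=
  Cl.node (nat_lit 0x200014) (nat_lit 2) (by decide +kernel) (ClAll.succ (ClAll.succ ClAll.zero n110) s164)

def n136 : Cl (O (nat_lit 4)) (R (nat_lit 6353))
    (p (nat_lit 0x111) (nat_lit 1) (p (nat_lit 0x109) (nat_lit 0) (p (nat_lit 0xc9) (nat_lit 1) (p (nat_lit 0x119) (nat_lit 1) (p (nat_lit 0xc1) (nat_lit 0) (p (nat_lit 0x81) (nat_lit 1) (p (nat_lit 0x41) (nat_lit 1) (p (nat_lit 0x108090787089a) (nat_lit 0) (p (nat_lit 0x107888706861a) (nat_lit 0) (p (nat_lit 0x8000000000000070686078a) (nat_lit 0) (p (nat_lit 0x8000000000000068605850a) (nat_lit 0) (p (nat_lit 0x10705850682) (nat_lit 0) (p (nat_lit 0x10685048402) (nat_lit 0) (p (nat_lit 0x16000c) (nat_lit 0) (p (nat_lit 0x160004) (nat_lit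 0) (p (nat_lit 0x60592) (nat_lit 0) (p (nat_lit 0x48512) (nat_lit 0) (p (nat_lit 0x50392) (nat_lit 0) (p (nat_lit 0x38312) (nat_lit 0) (p (nat_lit 0x40212) (nat_lit 0) (p (nat_lit 0x28192) (nat_lit 0) (p (nat_lit 0x30092) (nat_lit 0) (p (nat_lit 0x18012) (nat_lit 0) pn))))))))))))))))))))))) :=
  Cl.node (nat_lit 0x200014) (nat_lit 2) (by decide +kernel) (ClAll.succ (ClAll.succ ClAll.zero n111) s168)

def n137 : Cl (O (nat_lit 4)) (R (nat_lit 6353))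
    (p (nat_lit 0x81) (nat_lit 0) (p (nat_lit 0x101) (nat_lit 1) (p (nat_lit 0x119) (nat_lit 0) (p (nat_lit 0xd1) (nat_lit 0) (p (nat_lit 0x89) (nat_lit 0) (p (nat_lit 0x41) (nat_lit 0) (p (nat_lit 0x108090787089a) (nat_lit 0) (p (nat_lit 0x107888706861a) (nat_lit 0) (p (nat_lit 0x8000000000000070686078a) (nat_lit 0) (p (nat_lit 0x8000000000000068605850a) (nat_lit 0) (p (nat_lit 0x10705850682) (nat_lit 0) (p (nat_lit 0x10685048402) (nat_lit 0) (p (nat_lit 0x16000c) (nat_lit 0) (p (nat_lit 0x160004) (nat_lit 0) (p (nat_lit 0x60592) (nat_lit 0) (p (nat_lit 0x48512) (nat_lit 0) (p (nat_lit 0x50392) (nat_lit 0) (p (nat_lit 0x38312) (nat_lit 0) (p (nat_lit 0x40212) (nat_lit 0) (p (nat_lit 0x28192) (nat_lit 0) (p (nat_lit 0x30092) (nat_lit 0) (p (nat_lit 0x18012) (nat_lit 0) pn)))))))))))))))))))))) :=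
  Cl.node (nat_lit 0xc9) (nat_lit 2) (by decide +kernel) (ClAll.succ (ClAll.succ ClAll.zero n112) n113)

def n138 : Cl (O (nat_lit 4)) (R (nat_lit 6353))
    (p (nat_lit 0x81) (nat_lit 1) (p (nat_lit 0x101) (nat_lit 1) (p (nat_lit 0x119) (nat_lit 0) (p (nat_lit 0xd1) (nat_lit 0) (p (nat_lit 0x89) (nat_lit 0) (p (nat_lit 0x41) (nat_lit 0) (p (nat_lit 0x108090787089a) (nat_lit 0) (p (nat_lit 0x107888706861a) (nat_lit 0) (p (nat_lit 0x8000000000000070686078a) (nat_lit 0) (p (nat_lit 0x8000000000000068605850a) (nat_lit 0) (p (nat_lit 0x10705850682) (nat_lit 0) (p (nat_lit 0x10685048402) (nat_lit 0) (p (nat_lit 0x16000c) (nat_lit 0) (p (nat_lit 0x160004) (nat_lit 0) (p (nat_lit 0x60592) (nat_lit 0) (p (nat_lit 0x48512) (nat_lit 0) (p (nat_lit 0x50392) (nat_lit 0) (p (nat_lit 0x38312) (nat_lit 0) (p (nat_lit 0x40212) (nat_lit 0) (p (nat_lit 0x28192) (nat_lit 0) (p (nat_lit 0x30092) (nat_lit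 0) (p (nat_lit 0x18012) (nat_lit 0) pn)))))))))))))))))))))) :=
  Cl.node (nat_lit 0xc1) (nat_lit 2) (by decide +kernel) (ClAll.succ (ClAll.succ ClAll.zero n114) s20)

def n139 : Cl (O (nat_lit 4)) (R (nat_lit 6353))
    (p (nat_lit 0xc9) (nat_lit 1) (p (nat_lit 0xc1) (nat_lit 0) (p (nat_lit 0x119) (nat_lit 1) (p (nat_lit 0xd1) (nat_lit 0) (p (nat_lit 0x89) (nat_lit 0) (p (nat_lit 0x41) (nat_lit 0) (p (nat_lit 0x108090787089a) (nat_lit 0) (p (nat_lit 0x107888706861a) (nat_lit 0) (p (nat_lit 0x8000000000000070686078a) (nat_lit 0) (p (nat_lit 0x8000000000000068605850a) (nat_lit 0) (p (nat_lit 0x10705850682) (nat_lit 0) (p (nat_lit 0x10685048402) (nat_lit 0) (p (nat_lit 0x16000c) (nat_lit 0) (p (nat_lit 0x160004) (nat_lit 0) (p (nat_lit 0x60592) (nat_lit 0) (p (nat_lit 0x48512) (nat_lit 0) (p (nat_lit 0x50392) (nat_lit 0) (p (nat_lit 0x38312) (nat_lit 0) (p (nat_lit 0x40212) (nat_lit 0)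 (p (nat_lit 0x28192) (nat_lit 0) (p (nat_lit 0x30092) (nat_lit 0) (p (nat_lit 0x18012) (nat_lit 0) pn)))))))))))))))))))))) :=
  Cl.node (nat_lit 0x109) (nat_lit 2) (by decide +kernel) (ClAll.succ (ClAll.succ ClAll.zero s22) n115)

def n140 : Cl (O (nat_lit 4)) (R (nat_lit 6353))
    (p (nat_lit 0x81) (nat_lit 0) (p (nat_lit 0xc1) (nat_lit 1) (p (nat_lit 0x119) (nat_lit 1) (p (nat_lit 0xd1) (nat_lit 0) (p (nat_lit 0x89) (nat_lit 0) (p (nat_lit 0x41) (nat_lit 0) (p (nat_lit 0x108090787089a) (nat_lit 0) (p (nat_lit 0x107888706861a) (nat_lit 0) (p (nat_lit 0x8000000000000070686078a) (nat_lit 0) (p (nat_lit 0x8000000000000068605850a) (nat_lit 0) (p (nat_lit 0x10705850682) (nat_lit 0) (p (nat_lit 0x10685048402) (nat_lit 0) (p (nat_lit 0x16000c) (nat_lit 0) (p (nat_lit 0x160004) (nat_lit 0) (p (nat_lit 0x60592) (nat_lit 0) (p (nat_lit 0x48512) (nat_lit 0) (p (nat_lit 0x50392) (nat_lit 0) (p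 (nat_lit 0x38312) (nat_lit 0) (p (nat_lit 0x40212) (nat_lit 0) (p (nat_lit 0x28192) (nat_lit 0) (p (nat_lit 0x30092) (nat_lit 0) (p (nat_lit 0x18012) (nat_lit 0) pn)))))))))))))))))))))) :=
  Cl.node (nat_lit 0x109) (nat_lit 2) (by decide +kernel) (ClAll.succ (ClAll.succ ClAll.zero s27) n116)

def n141 : Cl (O (nat_lit 4)) (R (nat_lit 6353))
    (p (nat_lit 0x81) (nat_lit 1) (p (nat_lit 0xc1) (nat_lit 1) (p (nat_lit 0x119) (nat_lit 1) (p (nat_lit 0xd1) (nat_lit 0) (p (nat_lit 0x89) (nat_lit 0) (p (nat_lit 0x41) (nat_lit 0) (p (nat_lit 0x108090787089a) (nat_lit 0) (p (nat_lit 0x107888706861a) (nat_lit 0) (p (nat_lit 0x8000000000000070686078a) (nat_lit 0) (p (nat_lit 0x8000000000000068605850a) (nat_lit 0) (p (nat_lit 0x10705850682) (nat_lit 0) (p (nat_lit 0x10685048402) (nat_lit 0) (p (nat_lit 0x16000c) (nat_lit 0) (p (nat_lit 0x160004) (nat_lit 0) (p (nat_lit 0x60592) (nat_lit 0) (p (nat_lit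 0x48512) (nat_lit 0) (p (nat_lit 0x50392) (nat_lit 0) (p (nat_lit 0x38312) (nat_lit 0) (p (nat_lit 0x40212) (nat_lit 0) (p (nat_lit 0x28192) (nat_lit 0) (p (nat_lit 0x30092) (nat_lit 0) (p (nat_lit 0x18012) (nat_lit 0) pn)))))))))))))))))))))) :=
  Cl.node (nat_lit 0x101) (nat_lit 2) (by decide +kernel) (ClAll.succ (ClAll.succ ClAll.zero n117) n118)

def n142 : Cl (O (nat_lit 4)) (R (nat_lit 6353))
    (p (nat_lit 0x81) (nat_lit 1) (p (nat_lit 0x101) (nat_lit 1) (p (nat_lit 0x111) (nat_lit 0) (p (nat_lit 0xd1) (nat_lit 1) (p (nat_lit 0x89) (nat_lit 0) (p (nat_lit 0x41) (nat_lit 0) (p (nat_lit 0x108090787089a) (nat_lit 0) (p (nat_lit 0x107888706861a) (nat_lit 0) (p (nat_lit 0x8000000000000070686078a) (nat_lit 0) (p (nat_lit 0x8000000000000068605850a) (nat_lit 0) (p (nat_lit 0x10705850682) (nat_lit 0) (p (nat_lit 0x10685048402) (nat_lit 0) (p (nat_lit 0x16000c) (nat_lit 0) (p (nat_lit 0x160004)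 (nat_lit 0) (p (nat_lit 0x60592) (nat_lit 0) (p (nat_lit 0x48512) (nat_lit 0) (p (nat_lit 0x50392) (nat_lit 0) (p (nat_lit 0x38312) (nat_lit 0) (p (nat_lit 0x40212) (nat_lit 0) (p (nat_lit 0x28192) (nat_lit 0) (p (nat_lit 0x30092) (nat_lit 0) (p (nat_lit 0x18012) (nat_lit 0) pn)))))))))))))))))))))) :=
  Cl.node (nat_lit 0xc1) (nat_lit 2) (by decide +kernel) (ClAll.succ (ClAll.succ ClAll.zero n119) s51)

def n143 : Cl (O (nat_lit 4)) (R (nat_lit 6353))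
    (p (nat_lit 0xc1) (nat_lit 1) (p (nat_lit 0x81) (nat_lit 1) (p (nat_lit 0x111) (nat_lit 1) (p (nat_lit 0xd1) (nat_lit 1) (p (nat_lit 0x89) (nat_lit 0) (p (nat_lit 0x41) (nat_lit 0) (p (nat_lit 0x108090787089a) (nat_lit 0) (p (nat_lit 0x107888706861a) (nat_lit 0) (p (nat_lit 0x8000000000000070686078a) (nat_lit 0) (p (nat_lit 0x8000000000000068605850a) (nat_lit 0) (p (nat_lit 0x10705850682) (nat_lit 0) (p (nat_lit 0x10685048402) (nat_lit 0) (p (nat_lit 0x16000c) (nat_lit 0) (p (nat_lit 0x160004) (nat_lit 0) (p (nat_lit 0x60592) (nat_lit 0) (p (nat_lit 0x48512) (nat_lit 0) (p (nat_lit 0x50392) (nat_lit 0) (p (nat_lit 0x38312) (nat_lit 0) (p (nat_lit 0x40212) (nat_lit 0) (p (nat_lit 0x28192) (nat_lit 0) (p (nat_lit 0x30092) (nat_lit 0) (p (nat_lit 0x18012) (nat_lit 0) pn)))))))))))))))))))))) :=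
  Cl.node (nat_lit 0x101) (nat_lit 2) (by decide +kernel) (ClAll.succ (ClAll.succ ClAll.zero s54) n120)

def n144 : Cl (O (nat_lit 4)) (R (nat_lit 6353))
    (p (nat_lit 0xc1) (nat_lit 0) (p (nat_lit 0x101) (nat_lit 1) (p (nat_lit 0x119) (nat_lit 0) (p (nat_lit 0xc9) (nat_lit 0) (p (nat_lit 0x89) (nat_lit 1) (p (nat_lit 0x41) (nat_lit 0) (p (nat_lit 0x108090787089a) (nat_lit 0) (p (nat_lit 0x107888706861a) (nat_lit 0) (p (nat_lit 0x8000000000000070686078a) (nat_lit 0) (p (nat_lit 0x8000000000000068605850a) (nat_lit 0) (p (nat_lit 0x10705850682) (nat_lit 0) (p (nat_lit 0x10685048402) (nat_lit 0) (p (nat_lit 0x16000c) (nat_lit 0) (p (nat_lit 0x160004) (nat_lit 0) (p (nat_lit 0x60592) (nat_lit 0) (p (nat_lit 0x48512) (nat_lit 0) (p (nat_lit 0x50392) (nat_lit 0) (p (nat_lit 0x38312) (nat_lit 0) (p (nat_lit 0x40212) (nat_lit 0) (p (nat_lit 0x28192) (nat_lit 0) (p (nat_lit 0x30092) (nat_lit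 0) (p (nat_lit 0x18012) (nat_lit 0) pn)))))))))))))))))))))) :=
  Cl.node (nat_lit 0xd1) (nat_lit 2) (by decide +kernel) (ClAll.succ (ClAll.succ ClAll.zero n121) s61)

def n145 : Cl (O (nat_lit 4)) (R (nat_lit 6353))
    (p (nat_lit 0xd1) (nat_lit 1) (p (nat_lit 0xc1) (nat_lit 0) (p (nat_lit 0x119) (nat_lit 1) (p (nat_lit 0xc9) (nat_lit 0) (p (nat_lit 0x89) (nat_lit 1) (p (nat_lit 0x41) (nat_lit 0) (p (nat_lit 0x108090787089a) (nat_lit 0) (p (nat_lit 0x107888706861a) (nat_lit 0) (p (nat_lit 0x8000000000000070686078a) (nat_lit 0) (p (nat_lit 0x8000000000000068605850a) (nat_lit 0) (p (nat_lit 0x10705850682) (nat_lit 0) (p (nat_lit 0x10685048402) (nat_lit 0) (p (nat_lit 0x16000c) (nat_lit 0) (p (nat_lit 0x160004) (nat_lit 0) (p (nat_lit 0x60592) (nat_lit 0) (p (nat_lit 0x48512) (nat_lit 0) (p (nat_lit 0x50392) (nat_lit 0) (p (nat_lit 0x38312) (nat_lit 0) (p (nat_lit 0x40212) (nat_lit 0)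 (p (nat_lit 0x28192) (nat_lit 0) (p (nat_lit 0x30092) (nat_lit 0) (p (nat_lit 0x18012) (nat_lit 0) pn)))))))))))))))))))))) :=
  Cl.node (nat_lit 0x111) (nat_lit 2) (by decide +kernel) (ClAll.succ (ClAll.succ ClAll.zero s64) n122)

def n146 : Cl (O (nat_lit 4)) (R (nat_lit 6353))
    (p (nat_lit 0x101) (nat_lit 0) (p (nat_lit 0xc1) (nat_lit 1) (p (nat_lit 0x119) (nat_lit 1) (p (nat_lit 0xc9) (nat_lit 0) (p (nat_lit 0x89) (nat_lit 1) (p (nat_lit 0x41) (nat_lit 0) (p (nat_lit 0x108090787089a) (nat_lit 0) (p (nat_lit 0x107888706861a) (nat_lit 0) (p (nat_lit 0x8000000000000070686078a) (nat_lit 0) (p (nat_lit 0x8000000000000068605850a) (nat_lit 0) (p (nat_lit 0x10705850682) (nat_lit 0) (p (nat_lit 0x10685048402) (nat_lit 0) (p (nat_lit 0x16000c) (nat_lit 0) (p (nat_lit 0x160004) (nat_lit 0) (p (nat_lit 0x60592) (nat_lit 0) (p (nat_lit 0x48512) (nat_lit 0) (p (nat_lit 0x50392) (nat_lit 0) (p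 (nat_lit 0x38312) (nat_lit 0) (p (nat_lit 0x40212) (nat_lit 0) (p (nat_lit 0x28192) (nat_lit 0) (p (nat_lit 0x30092) (nat_lit 0) (p (nat_lit 0x18012) (nat_lit 0) pn)))))))))))))))))))))) :=
  Cl.node (nat_lit 0x111) (nat_lit 2) (by decide +kernel) (ClAll.succ (ClAll.succ ClAll.zero s70) n123)

def n147 : Cl (O (nat_lit 4)) (R (nat_lit 6353))
    (p (nat_lit 0x101) (nat_lit 1) (p (nat_lit 0xc1) (nat_lit 1) (p (nat_lit 0x119) (nat_lit 1) (p (nat_lit 0xc9) (nat_lit 0) (p (nat_lit 0x89) (nat_lit 1) (p (nat_lit 0x41) (nat_lit 0) (p (nat_lit 0x108090787089a) (nat_lit 0) (p (nat_lit 0x107888706861a) (nat_lit 0) (p (nat_lit 0x8000000000000070686078a) (nat_lit 0) (p (nat_lit 0x8000000000000068605850a) (nat_lit 0) (p (nat_lit 0x10705850682) (nat_lit 0) (p (nat_lit 0x10685048402) (nat_lit 0) (p (nat_lit 0x16000c) (nat_lit 0) (p (nat_lit 0x160004) (nat_lit 0) (p (nat_lit 0x60592) (nat_lit 0) (p (nat_lit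 0x48512) (nat_lit 0) (p (nat_lit 0x50392) (nat_lit 0) (p (nat_lit 0x38312) (nat_lit 0) (p (nat_lit 0x40212) (nat_lit 0) (p (nat_lit 0x28192) (nat_lit 0) (p (nat_lit 0x30092) (nat_lit 0) (p (nat_lit 0x18012) (nat_lit 0) pn)))))))))))))))))))))) :=
  Cl.node (nat_lit 0x200014) (nat_lit 2) (by decide +kernel) (ClAll.succ (ClAll.succ ClAll.zero s73) s74)

def n148 : Cl (O (nat_lit 4)) (R (nat_lit 6353))
    (p (nat_lit 0x109) (nat_lit 1) (p (nat_lit 0x101) (nat_lit 0) (p (nat_lit 0x119) (nat_lit 0) (p (nat_lit 0xd1) (nat_lit 0) (p (nat_lit 0x81) (nat_lit 0) (p (nat_lit 0x41) (nat_lit 1) (p (nat_lit 0x108090787089a) (nat_lit 0) (p (nat_lit 0x107888706861a) (nat_lit 0) (p (nat_lit 0x8000000000000070686078a) (nat_lit 0) (p (nat_lit 0x8000000000000068605850a) (nat_lit 0) (p (nat_lit 0x10705850682) (nat_lit 0) (p (nat_lit 0x10685048402) (nat_lit 0) (p (nat_lit 0x16000c) (nat_lit 0) (p (nat_lit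 0x160004) (nat_lit 0) (p (nat_lit 0x60592) (nat_lit 0) (p (nat_lit 0x48512) (nat_lit 0) (p (nat_lit 0x50392) (nat_lit 0) (p (nat_lit 0x38312) (nat_lit 0) (p (nat_lit 0x40212) (nat_lit 0) (p (nat_lit 0x28192) (nat_lit 0) (p (nat_lit 0x30092) (nat_lit 0) (p (nat_lit 0x18012) (nat_lit 0) pn)))))))))))))))))))))) :=
  Cl.node (nat_lit 0x89) (nat_lit 2) (by decide +kernel) (ClAll.succ (ClAll.succ ClAll.zero n124) n125)

def n149 : Cl (O (nat_lit 4)) (R (nat_lit 6353))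
    (p (nat_lit 0xc1) (nat_lit 0) (p (nat_lit 0x101) (nat_lit 1) (p (nat_lit 0x119) (nat_lit 0) (p (nat_lit 0xd1) (nat_lit 0) (p (nat_lit 0x81) (nat_lit 0) (p (nat_lit 0x41) (nat_lit 1) (p (nat_lit 0x108090787089a) (nat_lit 0) (p (nat_lit 0x107888706861a) (nat_lit 0) (p (nat_lit 0x8000000000000070686078a) (nat_lit 0) (p (nat_lit 0x8000000000000068605850a) (nat_lit 0) (p (nat_lit 0x10705850682) (nat_lit 0) (p (nat_lit 0x10685048402) (nat_lit 0) (p (nat_lit 0x16000c) (nat_lit 0) (p (nat_lit 0x160004) (nat_lit 0) (p (nat_lit 0x60592) (nat_lit 0) (p (nat_lit 0x48512) (nat_lit 0) (p (nat_lit 0x50392) (nat_lit 0) (p (nat_lit 0x38312) (nat_lit 0) (p (nat_lit 0x40212) (nat_lit 0) (p (nat_lit 0x28192) (nat_lit 0) (p (nat_lit 0x30092) (nat_lit 0) (p (nat_lit 0x18012) (nat_lit 0) pn)))))))))))))))))))))) :=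
  Cl.node (nat_lit 0x89) (nat_lit 2) (by decide +kernel) (ClAll.succ (ClAll.succ ClAll.zero s87) n126)

def n150 : Cl (O (nat_lit 4)) (R (nat_lit 6353))
    (p (nat_lit 0xc1) (nat_lit 1) (p (nat_lit 0x101) (nat_lit 1) (p (nat_lit 0x119) (nat_lit 0) (p (nat_lit 0xd1) (nat_lit 0) (p (nat_lit 0x81) (nat_lit 0) (p (nat_lit 0x41) (nat_lit 1) (p (nat_lit 0x108090787089a) (nat_lit 0) (p (nat_lit 0x107888706861a) (nat_lit 0) (p (nat_lit 0x8000000000000070686078a) (nat_lit 0) (p (nat_lit 0x8000000000000068605850a) (nat_lit 0) (p (nat_lit 0x10705850682) (nat_lit 0) (p (nat_lit 0x10685048402) (nat_lit 0) (p (nat_lit 0x16000c) (nat_lit 0) (p (nat_lit 0x160004) (nat_lit 0) (p (nat_lit 0x60592) (nat_lit 0) (p (nat_lit 0x48512) (nat_lit 0) (p (nat_lit 0x50392) (nat_lit 0) (p (nat_lit 0x38312) (nat_lit 0) (p (nat_lit 0x40212) (nat_lit 0) (p (nat_lit 0x28192) (nat_lit 0) (p (nat_lit 0x30092) (nat_lit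 0) (p (nat_lit 0x18012) (nat_lit 0) pn)))))))))))))))))))))) :=
  Cl.node (nat_lit 0x89) (nat_lit 2) (by decide +kernel) (ClAll.succ (ClAll.succ ClAll.zero s97) n127)

def n151 : Cl (O (nat_lit 4)) (R (nat_lit 6353))
    (p (nat_lit 0xc9) (nat_lit 1) (p (nat_lit 0xc1) (nat_lit 0) (p (nat_lit 0x119) (nat_lit 1) (p (nat_lit 0xd1) (nat_lit 0) (p (nat_lit 0x81) (nat_lit 0) (p (nat_lit 0x41) (nat_lit 1) (p (nat_lit 0x108090787089a) (nat_lit 0) (p (nat_lit 0x107888706861a) (nat_lit 0) (p (nat_lit 0x8000000000000070686078a) (nat_lit 0) (p (nat_lit 0x8000000000000068605850a) (nat_lit 0) (p (nat_lit 0x10705850682) (nat_lit 0) (p (nat_lit 0x10685048402) (nat_lit 0) (p (nat_lit 0x16000c) (nat_lit 0) (p (nat_lit 0x160004) (nat_lit 0) (p (nat_lit 0x60592) (nat_lit 0) (p (nat_lit 0x48512) (nat_lit 0) (p (nat_lit 0x50392) (nat_lit 0) (p (nat_lit 0x38312) (nat_lit 0) (p (nat_lit 0x40212) (nat_lit 0)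 (p (nat_lit 0x28192) (nat_lit 0) (p (nat_lit 0x30092) (nat_lit 0) (p (nat_lit 0x18012) (nat_lit 0) pn)))))))))))))))))))))) :=
  Cl.node (nat_lit 0x89) (nat_lit 2) (by decide +kernel) (ClAll.succ (ClAll.succ ClAll.zero s106) n128)

def n152 : Cl (O (nat_lit 4)) (R (nat_lit 6353))
    (p (nat_lit 0x101) (nat_lit 0) (p (nat_lit 0xc1) (nat_lit 1) (p (nat_lit 0x119) (nat_lit 1) (p (nat_lit 0xd1) (nat_lit 0) (p (nat_lit 0x81) (nat_lit 0) (p (nat_lit 0x41) (nat_lit 1) (p (nat_lit 0x108090787089a) (nat_lit 0) (p (nat_lit 0x107888706861a) (nat_lit 0) (p (nat_lit 0x8000000000000070686078a) (nat_lit 0) (p (nat_lit 0x8000000000000068605850a) (nat_lit 0) (p (nat_lit 0x10705850682) (nat_lit 0) (p (nat_lit 0x10685048402) (nat_lit 0) (p (nat_lit 0x16000c) (nat_lit 0) (p (nat_lit 0x160004) (nat_lit 0) (p (nat_lit 0x60592) (nat_lit 0) (p (nat_lit 0x48512) (nat_lit 0) (p (nat_lit 0x50392) (nat_lit 0) (p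 (nat_lit 0x38312) (nat_lit 0) (p (nat_lit 0x40212) (nat_lit 0) (p (nat_lit 0x28192) (nat_lit 0) (p (nat_lit 0x30092) (nat_lit 0) (p (nat_lit 0x18012) (nat_lit 0) pn)))))))))))))))))))))) :=
  Cl.node (nat_lit 0x89) (nat_lit 2) (by decide +kernel) (ClAll.succ (ClAll.succ ClAll.zero s114) n129)

def n153 : Cl (O (nat_lit 4)) (R (nat_lit 6353))
    (p (nat_lit 0x101) (nat_lit 1) (p (nat_lit 0xc1) (nat_lit 1) (p (nat_lit 0x119) (nat_lit 1) (p (nat_lit 0xd1) (nat_lit 0) (p (nat_lit 0x81) (nat_lit 0) (p (nat_lit 0x41) (nat_lit 1) (p (nat_lit 0x108090787089a) (nat_lit 0) (p (nat_lit 0x107888706861a) (nat_lit 0) (p (nat_lit 0x8000000000000070686078a) (nat_lit 0) (p (nat_lit 0x8000000000000068605850a) (nat_lit 0) (p (nat_lit 0x10705850682) (nat_lit 0) (p (nat_lit 0x10685048402) (nat_lit 0) (p (nat_lit 0x16000c) (nat_lit 0) (p (nat_lit 0x160004) (nat_lit 0) (p (nat_lit 0x60592) (nat_lit 0) (p (nat_lit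 0x48512) (nat_lit 0) (p (nat_lit 0x50392) (nat_lit 0) (p (nat_lit 0x38312) (nat_lit 0) (p (nat_lit 0x40212) (nat_lit 0) (p (nat_lit 0x28192) (nat_lit 0) (p (nat_lit 0x30092) (nat_lit 0) (p (nat_lit 0x18012) (nat_lit 0) pn)))))))))))))))))))))) :=
  Cl.node (nat_lit 0x89) (nat_lit 2) (by decide +kernel) (ClAll.succ (ClAll.succ ClAll.zero s122) n130)

def n154 : Cl (O (nat_lit 4)) (R (nat_lit 6353))
    (p (nat_lit 0x109) (nat_lit 1) (p (nat_lit 0x101) (nat_lit 0) (p (nat_lit 0x111) (nat_lit 0) (p (nat_lit 0xd1) (nat_lit 1) (p (nat_lit 0x81) (nat_lit 0) (p (nat_lit 0x41) (nat_lit 1) (p (nat_lit 0x108090787089a) (nat_lit 0) (p (nat_lit 0x107888706861a) (nat_lit 0) (p (nat_lit 0x8000000000000070686078a) (nat_lit 0) (p (nat_lit 0x8000000000000068605850a) (nat_lit 0) (p (nat_lit 0x10705850682) (nat_lit 0) (p (nat_lit 0x10685048402) (nat_lit 0) (p (nat_lit 0x16000c) (nat_lit 0) (p (nat_lit 0x160004)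 (nat_lit 0) (p (nat_lit 0x60592) (nat_lit 0) (p (nat_lit 0x48512) (nat_lit 0) (p (nat_lit 0x50392) (nat_lit 0) (p (nat_lit 0x38312) (nat_lit 0) (p (nat_lit 0x40212) (nat_lit 0) (p (nat_lit 0x28192) (nat_lit 0) (p (nat_lit 0x30092) (nat_lit 0) (p (nat_lit 0x18012) (nat_lit 0) pn)))))))))))))))))))))) :=
  Cl.node (nat_lit 0x89) (nat_lit 2) (by decide +kernel) (ClAll.succ (ClAll.succ ClAll.zero s131) n131)

def n155 : Cl (O (nat_lit 4)) (R (nat_lit 6353))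
    (p (nat_lit 0x89) (nat_lit 1) (p (nat_lit 0x101) (nat_lit 1) (p (nat_lit 0x111) (nat_lit 0) (p (nat_lit 0xd1) (nat_lit 1) (p (nat_lit 0x81) (nat_lit 0) (p (nat_lit 0x41) (nat_lit 1) (p (nat_lit 0x108090787089a) (nat_lit 0) (p (nat_lit 0x107888706861a) (nat_lit 0) (p (nat_lit 0x8000000000000070686078a) (nat_lit 0) (p (nat_lit 0x8000000000000068605850a) (nat_lit 0) (p (nat_lit 0x10705850682) (nat_lit 0) (p (nat_lit 0x10685048402) (nat_lit 0) (p (nat_lit 0x16000c) (nat_lit 0) (p (nat_lit 0x160004) (nat_lit 0) (p (nat_lit 0x60592) (nat_lit 0) (p (nat_lit 0x48512) (nat_lit 0) (p (nat_lit 0x50392) (nat_lit 0) (p (nat_lit 0x38312) (nat_lit 0) (p (nat_lit 0x40212) (nat_lit 0) (p (nat_lit 0x28192) (nat_lit 0) (p (nat_lit 0x30092) (nat_lit 0) (p (nat_lit 0x18012) (nat_lit 0) pn)))))))))))))))))))))) :=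
  Cl.node (nat_lit 0xc9) (nat_lit 2) (by decide +kernel) (ClAll.succ (ClAll.succ ClAll.zero n132) s145)

def n156 : Cl (O (nat_lit 4)) (R (nat_lit 6353))
    (p (nat_lit 0xc9) (nat_lit 1) (p (nat_lit 0x89) (nat_lit 1) (p (nat_lit 0x111) (nat_lit 1) (p (nat_lit 0xd1) (nat_lit 1) (p (nat_lit 0x81) (nat_lit 0) (p (nat_lit 0x41) (nat_lit 1) (p (nat_lit 0x108090787089a) (nat_lit 0) (p (nat_lit 0x107888706861a) (nat_lit 0) (p (nat_lit 0x8000000000000070686078a) (nat_lit 0) (p (nat_lit 0x8000000000000068605850a) (nat_lit 0) (p (nat_lit 0x10705850682) (nat_lit 0) (p (nat_lit 0x10685048402) (nat_lit 0) (p (nat_lit 0x16000c) (nat_lit 0) (p (nat_lit 0x160004) (nat_lit 0) (p (nat_lit 0x60592) (nat_lit 0) (p (nat_lit 0x48512) (nat_lit 0) (p (nat_lit 0x50392) (nat_lit 0) (p (nat_lit 0x38312) (nat_lit 0) (p (nat_lit 0x40212) (nat_lit 0) (p (nat_lit 0x28192) (nat_lit 0) (p (nat_lit 0x30092) (nat_lit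 0) (p (nat_lit 0x18012) (nat_lit 0) pn)))))))))))))))))))))) :=
  Cl.node (nat_lit 0x109) (nat_lit 2) (by decide +kernel) (ClAll.succ (ClAll.succ ClAll.zero n133) n134)

def n157 : Cl (O (nat_lit 4)) (R (nat_lit 6353))
    (p (nat_lit 0xc9) (nat_lit 0) (p (nat_lit 0x101) (nat_lit 1) (p (nat_lit 0x119) (nat_lit 0) (p (nat_lit 0xc1) (nat_lit 0) (p (nat_lit 0x81) (nat_lit 1) (p (nat_lit 0x41) (nat_lit 1) (p (nat_lit 0x108090787089a) (nat_lit 0) (p (nat_lit 0x107888706861a) (nat_lit 0) (p (nat_lit 0x8000000000000070686078a) (nat_lit 0) (p (nat_lit 0x8000000000000068605850a) (nat_lit 0) (p (nat_lit 0x10705850682) (nat_lit 0) (p (nat_lit 0x10685048402) (nat_lit 0) (p (nat_lit 0x16000c) (nat_lit 0) (p (nat_lit 0x160004) (nat_lit 0) (p (nat_lit 0x60592) (nat_lit 0) (p (nat_lit 0x48512) (nat_lit 0) (p (nat_lit 0x50392) (nat_lit 0) (p (nat_lit 0x38312) (nat_lit 0) (p (nat_lit 0x40212) (nat_lit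 0) (p (nat_lit 0x28192) (nat_lit 0) (p (nat_lit 0x30092) (nat_lit 0) (p (nat_lit 0x18012) (nat_lit 0) pn)))))))))))))))))))))) :=
  Cl.node (nat_lit 0xd1) (nat_lit 2) (by decide +kernel) (ClAll.succ (ClAll.succ ClAll.zero s156) s157)

def n158 : Cl (O (nat_lit 4)) (R (nat_lit 6353))
    (p (nat_lit 0xd1) (nat_lit 1) (p (nat_lit 0xc9) (nat_lit 0) (p (nat_lit 0x119) (nat_lit 1) (p (nat_lit 0xc1) (nat_lit 0) (p (nat_lit 0x81) (nat_lit 1) (p (nat_lit 0x41) (nat_lit 1) (p (nat_lit 0x108090787089a) (nat_lit 0) (p (nat_lit 0x107888706861a) (nat_lit 0) (p (nat_lit 0x8000000000000070686078a) (nat_lit 0) (p (nat_lit 0x8000000000000068605850a) (nat_lit 0) (p (nat_lit 0x10705850682) (nat_lit 0) (p (nat_lit 0x10685048402) (nat_lit 0) (p (nat_lit 0x16000c) (nat_lit 0) (p (nat_lit 0x160004) (nat_lit 0) (p (nat_lit 0x60592) (nat_lit 0) (p (nat_lit 0x48512) (nat_lit 0) (p (nat_lit 0x50392) (nat_lit 0)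 (p (nat_lit 0x38312) (nat_lit 0) (p (nat_lit 0x40212) (nat_lit 0) (p (nat_lit 0x28192) (nat_lit 0) (p (nat_lit 0x30092) (nat_lit 0) (p (nat_lit 0x18012) (nat_lit 0) pn)))))))))))))))))))))) :=
  Cl.node (nat_lit 0x111) (nat_lit 2) (by decide +kernel) (ClAll.succ (ClAll.succ ClAll.zero s160) n135)

def n159 : Cl (O (nat_lit 4)) (R (nat_lit 6353))
    (p (nat_lit 0x109) (nat_lit 0) (p (nat_lit 0xc9) (nat_lit 1) (p (nat_lit 0x119) (nat_lit 1) (p (nat_lit 0xc1) (nat_lit 0) (p (nat_lit 0x81) (nat_lit 1) (p (nat_lit 0x41) (nat_lit 1) (p (nat_lit 0x108090787089a) (nat_lit 0) (p (nat_lit 0x107888706861a) (nat_lit 0) (p (nat_lit 0x8000000000000070686078a) (nat_lit 0) (p (nat_lit 0x8000000000000068605850a) (nat_lit 0) (p (nat_lit 0x10705850682) (nat_lit 0) (p (nat_lit 0x10685048402) (nat_lit 0) (p (nat_lit 0x16000c) (nat_lit 0) (p (nat_lit 0x160004) (nat_lit 0) (p (nat_lit 0x60592) (nat_lit 0)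 (p (nat_lit 0x48512) (nat_lit 0) (p (nat_lit 0x50392) (nat_lit 0) (p (nat_lit 0x38312) (nat_lit 0) (p (nat_lit 0x40212) (nat_lit 0) (p (nat_lit 0x28192) (nat_lit 0) (p (nat_lit 0x30092) (nat_lit 0) (p (nat_lit 0x18012) (nat_lit 0) pn)))))))))))))))))))))) :=
  Cl.node (nat_lit 0x111) (nat_lit 2) (by decide +kernel) (ClAll.succ (ClAll.succ ClAll.zero s165) n136)

def n160 : Cl (O (nat_lit 4)) (R (nat_lit 6353))
    (p (nat_lit 0x109) (nat_lit 1) (p (nat_lit 0xc9) (nat_lit 1) (p (nat_lit 0x119) (nat_lit 1) (p (nat_lit 0xc1) (nat_lit 0) (p (nat_lit 0x81) (nat_lit 1) (p (nat_lit 0x41) (nat_lit 1) (p (nat_lit 0x108090787089a) (nat_lit 0) (p (nat_lit 0x107888706861a) (nat_lit 0) (p (nat_lit 0x8000000000000070686078a) (nat_lit 0) (p (nat_lit 0x8000000000000068605850a) (nat_lit 0) (p (nat_lit 0x10705850682) (nat_lit 0) (p (nat_lit 0x10685048402) (nat_lit 0) (p (nat_lit 0x16000c) (nat_lit 0) (p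 (nat_lit 0x160004) (nat_lit 0) (p (nat_lit 0x60592) (nat_lit 0) (p (nat_lit 0x48512) (nat_lit 0) (p (nat_lit 0x50392) (nat_lit 0) (p (nat_lit 0x38312) (nat_lit 0) (p (nat_lit 0x40212) (nat_lit 0) (p (nat_lit 0x28192) (nat_lit 0) (p (nat_lit 0x30092) (nat_lit 0) (p (nat_lit 0x18012) (nat_lit 0) pn)))))))))))))))))))))) :=
  Cl.node (nat_lit 0x200014) (nat_lit 2) (by decide +kernel) (ClAll.succ (ClAll.succ ClAll.zero s169) s170)

def n161 : Cl (O (nat_lit 4)) (R (nat_lit 6353))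
    (p (nat_lit 0x101) (nat_lit 0) (p (nat_lit 0x119) (nat_lit 0) (p (nat_lit 0xd1) (nat_lit 0) (p (nat_lit 0x89) (nat_lit 0) (p (nat_lit 0x41) (nat_lit 0) (p (nat_lit 0x108090787089a) (nat_lit 0) (p (nat_lit 0x107888706861a) (nat_lit 0) (p (nat_lit 0x8000000000000070686078a) (nat_lit 0) (p (nat_lit 0x8000000000000068605850a) (nat_lit 0) (p (nat_lit 0x10705850682) (nat_lit 0) (p (nat_lit 0x10685048402) (nat_lit 0) (p (nat_lit 0x16000c) (nat_lit 0) (p (nat_lit 0x160004) (nat_lit 0) (p (nat_lit 0x60592) (nat_lit 0) (p (nat_lit 0x48512) (nat_lit 0) (p (nat_lit 0x50392) (nat_lit 0) (p (nat_lit 0x38312) (nat_lit 0) (p (nat_lit 0x40212) (nat_lit 0) (p (nat_lit 0x28192) (nat_lit 0) (p (nat_lit 0x30092) (nat_lit 0) (p (nat_lit 0x18012) (nat_lit 0) pn))))))))))))))))))))) :=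
  Cl.node (nat_lit 0x109) (nat_lit 2) (by decide +kernel) (ClAll.succ (ClAll.succ ClAll.zero s0) s1)

def n162 : Cl (O (nat_lit 4)) (R (nat_lit 6353))
    (p (nat_lit 0x101) (nat_lit 1) (p (nat_lit 0x119) (nat_lit 0) (p (nat_lit 0xd1) (nat_lit 0) (p (nat_lit 0x89) (nat_lit 0) (p (nat_lit 0x41) (nat_lit 0) (p (nat_lit 0x108090787089a) (nat_lit 0) (p (nat_lit 0x107888706861a) (nat_lit 0) (p (nat_lit 0x8000000000000070686078a) (nat_lit 0) (p (nat_lit 0x8000000000000068605850a) (nat_lit 0) (p (nat_lit 0x10705850682) (nat_lit 0) (p (nat_lit 0x10685048402) (nat_lit 0) (p (nat_lit 0x16000c) (nat_lit 0) (p (nat_lit 0x160004) (nat_lit 0) (p (nat_lit 0x60592) (nat_lit 0) (p (nat_lit 0x48512) (nat_lit 0) (p (nat_lit 0x50392) (nat_lit 0) (p (nat_lit 0x38312) (nat_lit 0) (p (nat_lit 0x40212) (nat_lit 0) (p (nat_lit 0x28192) (nat_lit 0) (p (nat_lit 0x30092) (nat_lit 0) (p (nat_lit 0x18012) (nat_lit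 0) pn))))))))))))))))))))) :=
  Cl.node (nat_lit 0x81) (nat_lit 2) (by decide +kernel) (ClAll.succ (ClAll.succ ClAll.zero n137) n138)

def n163 : Cl (O (nat_lit 4)) (R (nat_lit 6353))
    (p (nat_lit 0xc1) (nat_lit 0) (p (nat_lit 0x119) (nat_lit 1) (p (nat_lit 0xd1) (nat_lit 0) (p (nat_lit 0x89) (nat_lit 0) (p (nat_lit 0x41) (nat_lit 0) (p (nat_lit 0x108090787089a) (nat_lit 0) (p (nat_lit 0x107888706861a) (nat_lit 0) (p (nat_lit 0x8000000000000070686078a) (nat_lit 0) (p (nat_lit 0x8000000000000068605850a) (nat_lit 0) (p (nat_lit 0x10705850682) (nat_lit 0) (p (nat_lit 0x10685048402) (nat_lit 0) (p (nat_lit 0x16000c) (nat_lit 0) (p (nat_lit 0x160004) (nat_lit 0) (p (nat_lit 0x60592) (nat_lit 0) (p (nat_lit 0x48512) (nat_lit 0) (p (nat_lit 0x50392) (nat_lit 0) (p (nat_lit 0x38312) (nat_lit 0) (p (nat_lit 0x40212) (nat_lit 0) (p (nat_lit 0x28192) (nat_lit 0) (p (nat_lit 0x30092) (nat_lit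 0) (p (nat_lit 0x18012) (nat_lit 0) pn))))))))))))))))))))) :=
  Cl.node (nat_lit 0xc9) (nat_lit 2) (by decide +kernel) (ClAll.succ (ClAll.succ ClAll.zero s21) n139)

def n164 : Cl (O (nat_lit 4)) (R (nat_lit 6353))
    (p (nat_lit 0xc1) (nat_lit 1) (p (nat_lit 0x119) (nat_lit 1) (p (nat_lit 0xd1) (nat_lit 0) (p (nat_lit 0x89) (nat_lit 0) (p (nat_lit 0x41) (nat_lit 0) (p (nat_lit 0x108090787089a) (nat_lit 0) (p (nat_lit 0x107888706861a) (nat_lit 0) (p (nat_lit 0x8000000000000070686078a) (nat_lit 0) (p (nat_lit 0x8000000000000068605850a) (nat_lit 0) (p (nat_lit 0x10705850682) (nat_lit 0) (p (nat_lit 0x10685048402) (nat_lit 0) (p (nat_lit 0x16000c) (nat_lit 0) (p (nat_lit 0x160004) (nat_lit 0) (p (nat_lit 0x60592) (nat_lit 0) (p (nat_lit 0x48512) (nat_lit 0) (p (nat_lit 0x50392) (nat_lit 0) (p (nat_lit 0x38312) (nat_lit 0) (p (nat_lit 0x40212) (nat_lit 0) (p (nat_lit 0x28192) (nat_lit 0)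 (p (nat_lit 0x30092) (nat_lit 0) (p (nat_lit 0x18012) (nat_lit 0) pn))))))))))))))))))))) :=
  Cl.node (nat_lit 0x81) (nat_lit 2) (by decide +kernel) (ClAll.succ (ClAll.succ ClAll.zero n140) n141)

def n165 : Cl (O (nat_lit 4)) (R (nat_lit 6353))
    (p (nat_lit 0x101) (nat_lit 1) (p (nat_lit 0x111) (nat_lit 0) (p (nat_lit 0xd1) (nat_lit 1) (p (nat_lit 0x89) (nat_lit 0) (p (nat_lit 0x41) (nat_lit 0) (p (nat_lit 0x108090787089a) (nat_lit 0) (p (nat_lit 0x107888706861a) (nat_lit 0) (p (nat_lit 0x8000000000000070686078a) (nat_lit 0) (p (nat_lit 0x8000000000000068605850a) (nat_lit 0) (p (nat_lit 0x10705850682) (nat_lit 0) (p (nat_lit 0x10685048402) (nat_lit 0) (p (nat_lit 0x16000c) (nat_lit 0) (p (nat_lit 0x160004) (nat_lit 0) (p (nat_lit 0x60592) (nat_lit 0) (p (nat_lit 0x48512) (nat_lit 0) (p (nat_lit 0x50392) (nat_lit 0) (p (nat_lit 0x38312) (nat_lit 0) (p (nat_lit 0x40212) (nat_lit 0)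 (p (nat_lit 0x28192) (nat_lit 0) (p (nat_lit 0x30092) (nat_lit 0) (p (nat_lit 0x18012) (nat_lit 0) pn))))))))))))))))))))) :=
  Cl.node (nat_lit 0x81) (nat_lit 2) (by decide +kernel) (ClAll.succ (ClAll.succ ClAll.zero s42) n142)

def n166 : Cl (O (nat_lit 4)) (R (nat_lit 6353))
    (p (nat_lit 0x81) (nat_lit 1) (p (nat_lit 0x111) (nat_lit 1) (p (nat_lit 0xd1) (nat_lit 1) (p (nat_lit 0x89) (nat_lit 0) (p (nat_lit 0x41) (nat_lit 0) (p (nat_lit 0x108090787089a) (nat_lit 0) (p (nat_lit 0x107888706861a) (nat_lit 0) (p (nat_lit 0x8000000000000070686078a) (nat_lit 0) (p (nat_lit 0x8000000000000068605850a) (nat_lit 0) (p (nat_lit 0x10705850682) (nat_lit 0) (p (nat_lit 0x10685048402) (nat_lit 0) (p (nat_lit 0x16000c) (nat_lit 0) (p (nat_lit 0x160004) (nat_lit 0) (p (nat_lit 0x60592) (nat_lit 0) (p (nat_lit 0x48512) (nat_lit 0) (p (nat_lit 0x50392) (nat_lit 0) (p (nat_lit 0x38312) (nat_lit 0) (p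 (nat_lit 0x40212) (nat_lit 0) (p (nat_lit 0x28192) (nat_lit 0) (p (nat_lit 0x30092) (nat_lit 0) (p (nat_lit 0x18012) (nat_lit 0) pn))))))))))))))))))))) :=
  Cl.node (nat_lit 0xc1) (nat_lit 2) (by decide +kernel) (ClAll.succ (ClAll.succ ClAll.zero s53) n143)

def n167 : Cl (O (nat_lit 4)) (R (nat_lit 6353))
    (p (nat_lit 0x101) (nat_lit 0) (p (nat_lit 0x119) (nat_lit 0) (p (nat_lit 0xc9) (nat_lit 0) (p (nat_lit 0x89) (nat_lit 1) (p (nat_lit 0x41) (nat_lit 0) (p (nat_lit 0x108090787089a) (nat_lit 0) (p (nat_lit 0x107888706861a) (nat_lit 0) (p (nat_lit 0x8000000000000070686078a) (nat_lit 0) (p (nat_lit 0x8000000000000068605850a) (nat_lit 0) (p (nat_lit 0x10705850682) (nat_lit 0) (p (nat_lit 0x10685048402) (nat_lit 0) (p (nat_lit 0x16000c) (nat_lit 0) (p (nat_lit 0x160004) (nat_lit 0) (p (nat_lit 0x60592) (nat_lit 0) (p (nat_lit 0x48512) (nat_lit 0) (p (nat_lit 0x50392) (nat_lit 0) (p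 (nat_lit 0x38312) (nat_lit 0) (p (nat_lit 0x40212) (nat_lit 0) (p (nat_lit 0x28192) (nat_lit 0) (p (nat_lit 0x30092) (nat_lit 0) (p (nat_lit 0x18012) (nat_lit 0) pn))))))))))))))))))))) :=
  Cl.node (nat_lit 0x109) (nat_lit 2) (by decide +kernel) (ClAll.succ (ClAll.succ ClAll.zero s57) s58)

def n168 : Cl (O (nat_lit 4)) (R (nat_lit 6353))
    (p (nat_lit 0x101) (nat_lit 1) (p (nat_lit 0x119) (nat_lit 0) (p (nat_lit 0xc9) (nat_lit 0) (p (nat_lit 0x89) (nat_lit 1) (p (nat_lit 0x41) (nat_lit 0) (p (nat_lit 0x108090787089a) (nat_lit 0) (p (nat_lit 0x107888706861a) (nat_lit 0) (p (nat_lit 0x8000000000000070686078a) (nat_lit 0) (p (nat_lit 0x8000000000000068605850a) (nat_lit 0) (p (nat_lit 0x10705850682) (nat_lit 0) (p (nat_lit 0x10685048402) (nat_lit 0) (p (nat_lit 0x16000c) (nat_lit 0) (p (nat_lit 0x160004) (nat_lit 0) (p (nat_lit 0x60592) (nat_lit 0) (p (nat_lit 0x48512) (nat_lit 0) (p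 (nat_lit 0x50392) (nat_lit 0) (p (nat_lit 0x38312) (nat_lit 0) (p (nat_lit 0x40212) (nat_lit 0) (p (nat_lit 0x28192) (nat_lit 0) (p (nat_lit 0x30092) (nat_lit 0) (p (nat_lit 0x18012) (nat_lit 0) pn))))))))))))))))))))) :=
  Cl.node (nat_lit 0xc1) (nat_lit 2) (by decide +kernel) (ClAll.succ (ClAll.succ ClAll.zero n144) s62)

def n169 : Cl (O (nat_lit 4)) (R (nat_lit 6353))
    (p (nat_lit 0xc1) (nat_lit 0) (p (nat_lit 0x119) (nat_lit 1) (p (nat_lit 0xc9) (nat_lit 0) (p (nat_lit 0x89) (nat_lit 1) (p (nat_lit 0x41) (nat_lit 0) (p (nat_lit 0x108090787089a) (nat_lit 0) (p (nat_lit 0x107888706861a) (nat_lit 0) (p (nat_lit 0x8000000000000070686078a) (nat_lit 0) (p (nat_lit 0x8000000000000068605850a) (nat_lit 0) (p (nat_lit 0x10705850682) (nat_lit 0) (p (nat_lit 0x10685048402) (nat_lit 0) (p (nat_lit 0x16000c) (nat_lit 0) (p (nat_lit 0x160004) (nat_lit 0) (p (nat_lit 0x60592) (nat_lit 0) (p (nat_lit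 0x48512) (nat_lit 0) (p (nat_lit 0x50392) (nat_lit 0) (p (nat_lit 0x38312) (nat_lit 0) (p (nat_lit 0x40212) (nat_lit 0) (p (nat_lit 0x28192) (nat_lit 0) (p (nat_lit 0x30092) (nat_lit 0) (p (nat_lit 0x18012) (nat_lit 0) pn))))))))))))))))))))) :=
  Cl.node (nat_lit 0xd1) (nat_lit 2) (by decide +kernel) (ClAll.succ (ClAll.succ ClAll.zero s63) n145)

def n170 : Cl (O (nat_lit 4)) (R (nat_lit 6353))
    (p (nat_lit 0xc1) (nat_lit 1) (p (nat_lit 0x119) (nat_lit 1) (p (nat_lit 0xc9) (nat_lit 0) (p (nat_lit 0x89) (nat_lit 1) (p (nat_lit 0x41) (nat_lit 0) (p (nat_lit 0x108090787089a) (nat_lit 0) (p (nat_lit 0x107888706861a) (nat_lit 0) (p (nat_lit 0x8000000000000070686078a) (nat_lit 0) (p (nat_lit 0x8000000000000068605850a) (nat_lit 0) (p (nat_lit 0x10705850682) (nat_lit 0) (p (nat_lit 0x10685048402) (nat_lit 0) (p (nat_lit 0x16000c) (nat_lit 0) (p (nat_lit 0x160004) (nat_lit 0) (p (nat_lit 0x60592)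 (nat_lit 0) (p (nat_lit 0x48512) (nat_lit 0) (p (nat_lit 0x50392) (nat_lit 0) (p (nat_lit 0x38312) (nat_lit 0) (p (nat_lit 0x40212) (nat_lit 0) (p (nat_lit 0x28192) (nat_lit 0) (p (nat_lit 0x30092) (nat_lit 0) (p (nat_lit 0x18012) (nat_lit 0) pn))))))))))))))))))))) :=
  Cl.node (nat_lit 0x101) (nat_lit 2) (by decide +kernel) (ClAll.succ (ClAll.succ ClAll.zero n146) n147)

def n171 : Cl (O (nat_lit 4)) (R (nat_lit 6353))
    (p (nat_lit 0x101) (nat_lit 0) (p (nat_lit 0x119) (nat_lit 0) (p (nat_lit 0xd1) (nat_lit 0) (p (nat_lit 0x81) (nat_lit 0) (p (nat_lit 0x41) (nat_lit 1) (p (nat_lit 0x108090787089a) (nat_lit 0) (p (nat_lit 0x107888706861a) (nat_lit 0) (p (nat_lit 0x8000000000000070686078a) (nat_lit 0) (p (nat_lit 0x8000000000000068605850a) (nat_lit 0) (p (nat_lit 0x10705850682) (nat_lit 0) (p (nat_lit 0x10685048402) (nat_lit 0) (p (nat_lit 0x16000c) (nat_lit 0) (p (nat_lit 0x160004)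 (nat_lit 0) (p (nat_lit 0x60592) (nat_lit 0) (p (nat_lit 0x48512) (nat_lit 0) (p (nat_lit 0x50392) (nat_lit 0) (p (nat_lit 0x38312) (nat_lit 0) (p (nat_lit 0x40212) (nat_lit 0) (p (nat_lit 0x28192) (nat_lit 0) (p (nat_lit 0x30092) (nat_lit 0) (p (nat_lit 0x18012) (nat_lit 0) pn))))))))))))))))))))) :=
  Cl.node (nat_lit 0x109) (nat_lit 2) (by decide +kernel) (ClAll.succ (ClAll.succ ClAll.zero s76) n148)

def n172 : Cl (O (nat_lit 4)) (R (nat_lit 6353))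
    (p (nat_lit 0x101) (nat_lit 1) (p (nat_lit 0x119) (nat_lit 0) (p (nat_lit 0xd1) (nat_lit 0) (p (nat_lit 0x81) (nat_lit 0) (p (nat_lit 0x41) (nat_lit 1) (p (nat_lit 0x108090787089a) (nat_lit 0) (p (nat_lit 0x107888706861a) (nat_lit 0) (p (nat_lit 0x8000000000000070686078a) (nat_lit 0) (p (nat_lit 0x8000000000000068605850a) (nat_lit 0) (p (nat_lit 0x10705850682) (nat_lit 0) (p (nat_lit 0x10685048402) (nat_lit 0) (p (nat_lit 0x16000c) (nat_lit 0) (p (nat_lit 0x160004) (nat_lit 0) (p (nat_lit 0x60592) (nat_lit 0) (p (nat_lit 0x48512) (nat_lit 0) (p (nat_lit 0x50392) (nat_lit 0) (p (nat_lit 0x38312) (nat_lit 0) (p (nat_lit 0x40212) (nat_lit 0) (p (nat_lit 0x28192) (nat_lit 0) (p (nat_lit 0x30092) (nat_lit 0) (p (nat_lit 0x18012) (nat_lit 0) pn))))))))))))))))))))) :=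
  Cl.node (nat_lit 0xc1) (nat_lit 2) (by decide +kernel) (ClAll.succ (ClAll.succ ClAll.zero n149) n150)

def n173 : Cl (O (nat_lit 4)) (R (nat_lit 6353))
    (p (nat_lit 0xc1) (nat_lit 0) (p (nat_lit 0x119) (nat_lit 1) (p (nat_lit 0xd1) (nat_lit 0) (p (nat_lit 0x81) (nat_lit 0) (p (nat_lit 0x41) (nat_lit 1) (p (nat_lit 0x108090787089a) (nat_lit 0) (p (nat_lit 0x107888706861a) (nat_lit 0) (p (nat_lit 0x8000000000000070686078a) (nat_lit 0) (p (nat_lit 0x8000000000000068605850a) (nat_lit 0) (p (nat_lit 0x10705850682) (nat_lit 0) (p (nat_lit 0x10685048402) (nat_lit 0) (p (nat_lit 0x16000c) (nat_lit 0) (p (nat_lit 0x160004) (nat_lit 0) (p (nat_lit 0x60592) (nat_lit 0) (p (nat_lit 0x48512) (nat_lit 0) (p (nat_lit 0x50392) (nat_lit 0) (p (nat_lit 0x38312) (nat_lit 0) (p (nat_lit 0x40212) (nat_lit 0) (p (nat_lit 0x28192) (nat_lit 0) (p (nat_lit 0x30092) (nat_lit 0) (p (nat_lit 0x18012) (nat_lit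 0) pn))))))))))))))))))))) :=
  Cl.node (nat_lit 0xc9) (nat_lit 2) (by decide +kernel) (ClAll.succ (ClAll.succ ClAll.zero s105) n151)

def n174 : Cl (O (nat_lit 4)) (R (nat_lit 6353))
    (p (nat_lit 0xc1) (nat_lit 1) (p (nat_lit 0x119) (nat_lit 1) (p (nat_lit 0xd1) (nat_lit 0) (p (nat_lit 0x81) (nat_lit 0) (p (nat_lit 0x41) (nat_lit 1) (p (nat_lit 0x108090787089a) (nat_lit 0) (p (nat_lit 0x107888706861a) (nat_lit 0) (p (nat_lit 0x8000000000000070686078a) (nat_lit 0) (p (nat_lit 0x8000000000000068605850a) (nat_lit 0) (p (nat_lit 0x10705850682) (nat_lit 0) (p (nat_lit 0x10685048402) (nat_lit 0) (p (nat_lit 0x16000c) (nat_lit 0) (p (nat_lit 0x160004) (nat_lit 0) (p (nat_lit 0x60592) (nat_lit 0) (p (nat_lit 0x48512) (nat_lit 0) (p (nat_lit 0x50392) (nat_lit 0) (p (nat_lit 0x38312) (nat_lit 0) (p (nat_lit 0x40212) (nat_lit 0) (p (nat_lit 0x28192) (nat_lit 0) (p (nat_lit 0x30092) (nat_lit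 0) (p (nat_lit 0x18012) (nat_lit 0) pn))))))))))))))))))))) :=
  Cl.node (nat_lit 0x101) (nat_lit 2) (by decide +kernel) (ClAll.succ (ClAll.succ ClAll.zero n152) n153)

def n175 : Cl (O (nat_lit 4)) (R (nat_lit 6353))
    (p (nat_lit 0x101) (nat_lit 0) (p (nat_lit 0x111) (nat_lit 0) (p (nat_lit 0xd1) (nat_lit 1) (p (nat_lit 0x81) (nat_lit 0) (p (nat_lit 0x41) (nat_lit 1) (p (nat_lit 0x108090787089a) (nat_lit 0) (p (nat_lit 0x107888706861a) (nat_lit 0) (p (nat_lit 0x8000000000000070686078a) (nat_lit 0) (p (nat_lit 0x8000000000000068605850a) (nat_lit 0) (p (nat_lit 0x10705850682) (nat_lit 0) (p (nat_lit 0x10685048402) (nat_lit 0) (p (nat_lit 0x16000c) (nat_lit 0) (p (nat_lit 0x160004) (nat_lit 0) (p (nat_lit 0x60592) (nat_lit 0) (p (nat_lit 0x48512) (nat_lit 0) (p (nat_lit 0x50392) (nat_lit 0) (p (nat_lit 0x38312) (nat_lit 0) (p (nat_lit 0x40212) (nat_lit 0) (p (nat_lit 0x28192) (nat_lit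 0) (p (nat_lit 0x30092) (nat_lit 0) (p (nat_lit 0x18012) (nat_lit 0) pn))))))))))))))))))))) :=
  Cl.node (nat_lit 0x109) (nat_lit 2) (by decide +kernel) (ClAll.succ (ClAll.succ ClAll.zero s130) n154)

def n176 : Cl (O (nat_lit 4)) (R (nat_lit 6353))
    (p (nat_lit 0x101) (nat_lit 1) (p (nat_lit 0x111) (nat_lit 0) (p (nat_lit 0xd1) (nat_lit 1) (p (nat_lit 0x81) (nat_lit 0) (p (nat_lit 0x41) (nat_lit 1) (p (nat_lit 0x108090787089a) (nat_lit 0) (p (nat_lit 0x107888706861a) (nat_lit 0) (p (nat_lit 0x8000000000000070686078a) (nat_lit 0) (p (nat_lit 0x8000000000000068605850a) (nat_lit 0) (p (nat_lit 0x10705850682) (nat_lit 0) (p (nat_lit 0x10685048402) (nat_lit 0) (p (nat_lit 0x16000c) (nat_lit 0) (p (nat_lit 0x160004) (nat_lit 0) (p (nat_lit 0x60592) (nat_lit 0) (p (nat_lit 0x48512) (nat_lit 0) (p (nat_lit 0x50392) (nat_lit 0) (p (nat_lit 0x38312) (nat_lit 0) (p (nat_lit 0x40212) (nat_lit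 0) (p (nat_lit 0x28192) (nat_lit 0) (p (nat_lit 0x30092) (nat_lit 0) (p (nat_lit 0x18012) (nat_lit 0) pn))))))))))))))))))))) :=
  Cl.node (nat_lit 0x89) (nat_lit 2) (by decide +kernel) (ClAll.succ (ClAll.succ ClAll.zero s141) n155)

def n177 : Cl (O (nat_lit 4)) (R (nat_lit 6353))
    (p (nat_lit 0x89) (nat_lit 1) (p (nat_lit 0x111) (nat_lit 1) (p (nat_lit 0xd1) (nat_lit 1) (p (nat_lit 0x81) (nat_lit 0) (p (nat_lit 0x41) (nat_lit 1) (p (nat_lit 0x108090787089a) (nat_lit 0) (p (nat_lit 0x107888706861a) (nat_lit 0) (p (nat_lit 0x8000000000000070686078a) (nat_lit 0) (p (nat_lit 0x8000000000000068605850a) (nat_lit 0) (p (nat_lit 0x10705850682) (nat_lit 0) (p (nat_lit 0x10685048402) (nat_lit 0) (p (nat_lit 0x16000c) (nat_lit 0) (p (nat_lit 0x160004) (nat_lit 0) (p (nat_lit 0x60592) (nat_lit 0) (p (nat_lit 0x48512) (nat_lit 0) (p (nat_lit 0x50392) (nat_lit 0) (p (nat_lit 0x38312) (nat_lit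 0) (p (nat_lit 0x40212) (nat_lit 0) (p (nat_lit 0x28192) (nat_lit 0) (p (nat_lit 0x30092) (nat_lit 0) (p (nat_lit 0x18012) (nat_lit 0) pn))))))))))))))))))))) :=
  Cl.node (nat_lit 0xc9) (nat_lit 2) (by decide +kernel) (ClAll.succ (ClAll.succ ClAll.zero s147) n156)

def n178 : Cl (O (nat_lit 4)) (R (nat_lit 6353))
    (p (nat_lit 0x101) (nat_lit 0) (p (nat_lit 0x119) (nat_lit 0) (p (nat_lit 0xc1) (nat_lit 0) (p (nat_lit 0x81) (nat_lit 1) (p (nat_lit 0x41) (nat_lit 1) (p (nat_lit 0x108090787089a) (nat_lit 0) (p (nat_lit 0x107888706861a) (nat_lit 0) (p (nat_lit 0x8000000000000070686078a) (nat_lit 0) (p (nat_lit 0x8000000000000068605850a) (nat_lit 0) (p (nat_lit 0x10705850682) (nat_lit 0) (p (nat_lit 0x10685048402) (nat_lit 0) (p (nat_lit 0x16000c) (nat_lit 0) (p (nat_lit 0x160004) (nat_lit 0) (p (nat_lit 0x60592) (nat_lit 0) (p (nat_lit 0x48512) (nat_lit 0) (p (nat_lit 0x50392) (nat_lit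 0) (p (nat_lit 0x38312) (nat_lit 0) (p (nat_lit 0x40212) (nat_lit 0) (p (nat_lit 0x28192) (nat_lit 0) (p (nat_lit 0x30092) (nat_lit 0) (p (nat_lit 0x18012) (nat_lit 0) pn))))))))))))))))))))) :=
  Cl.node (nat_lit 0x109) (nat_lit 2) (by decide +kernel) (ClAll.succ (ClAll.succ ClAll.zero s154) s155)

def n179 : Cl (O (nat_lit 4)) (R (nat_lit 6353))
    (p (nat_lit 0x101) (nat_lit 1) (p (nat_lit 0x119) (nat_lit 0) (p (nat_lit 0xc1) (nat_lit 0) (p (nat_lit 0x81) (nat_lit 1) (p (nat_lit 0x41) (nat_lit 1) (p (nat_lit 0x108090787089a) (nat_lit 0) (p (nat_lit 0x107888706861a) (nat_lit 0) (p (nat_lit 0x8000000000000070686078a) (nat_lit 0) (p (nat_lit 0x8000000000000068605850a) (nat_lit 0) (p (nat_lit 0x10705850682) (nat_lit 0) (p (nat_lit 0x10685048402) (nat_lit 0) (p (nat_lit 0x16000c) (nat_lit 0) (p (nat_lit 0x160004) (nat_lit 0) (p (nat_lit 0x60592) (nat_lit 0) (p (nat_lit 0x48512) (nat_lit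 0) (p (nat_lit 0x50392) (nat_lit 0) (p (nat_lit 0x38312) (nat_lit 0) (p (nat_lit 0x40212) (nat_lit 0) (p (nat_lit 0x28192) (nat_lit 0) (p (nat_lit 0x30092) (nat_lit 0) (p (nat_lit 0x18012) (nat_lit 0) pn))))))))))))))))))))) :=
  Cl.node (nat_lit 0xc9) (nat_lit 2) (by decide +kernel) (ClAll.succ (ClAll.succ ClAll.zero n157) s158)

def n180 : Cl (O (nat_lit 4)) (R (nat_lit 6353))
    (p (nat_lit 0xc9) (nat_lit 0) (p (nat_lit 0x119) (nat_lit 1) (p (nat_lit 0xc1) (nat_lit 0) (p (nat_lit 0x81) (nat_lit 1) (p (nat_lit 0x41) (nat_lit 1) (p (nat_lit 0x108090787089a) (nat_lit 0) (p (nat_lit 0x107888706861a) (nat_lit 0) (p (nat_lit 0x8000000000000070686078a) (nat_lit 0) (p (nat_lit 0x8000000000000068605850a) (nat_lit 0) (p (nat_lit 0x10705850682) (nat_lit 0) (p (nat_lit 0x10685048402) (nat_lit 0) (p (nat_lit 0x16000c) (nat_lit 0) (p (nat_lit 0x160004) (nat_lit 0) (p (nat_lit 0x60592) (nat_lit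 0) (p (nat_lit 0x48512) (nat_lit 0) (p (nat_lit 0x50392) (nat_lit 0) (p (nat_lit 0x38312) (nat_lit 0) (p (nat_lit 0x40212) (nat_lit 0) (p (nat_lit 0x28192) (nat_lit 0) (p (nat_lit 0x30092) (nat_lit 0) (p (nat_lit 0x18012) (nat_lit 0) pn))))))))))))))))))))) :=
  Cl.node (nat_lit 0xd1) (nat_lit 2) (by decide +kernel) (ClAll.succ (ClAll.succ ClAll.zero s159) n158)

def n181 : Cl (O (nat_lit 4)) (R (nat_lit 6353))
    (p (nat_lit 0xc9) (nat_lit 1) (p (nat_lit 0x119) (nat_lit 1) (p (nat_lit 0xc1) (nat_lit 0) (p (nat_lit 0x81) (nat_lit 1) (p (nat_lit 0x41) (nat_lit 1) (p (nat_lit 0x108090787089a) (nat_lit 0) (p (nat_lit 0x107888706861a) (nat_lit 0) (p (nat_lit 0x8000000000000070686078a) (nat_lit 0) (p (nat_lit 0x8000000000000068605850a) (nat_lit 0) (p (nat_lit 0x10705850682) (nat_lit 0) (p (nat_lit 0x10685048402) (nat_lit 0) (p (nat_lit 0x16000c) (nat_lit 0) (p (nat_lit 0x160004) (nat_lit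 0) (p (nat_lit 0x60592) (nat_lit 0) (p (nat_lit 0x48512) (nat_lit 0) (p (nat_lit 0x50392) (nat_lit 0) (p (nat_lit 0x38312) (nat_lit 0) (p (nat_lit 0x40212) (nat_lit 0) (p (nat_lit 0x28192) (nat_lit 0) (p (nat_lit 0x30092) (nat_lit 0) (p (nat_lit 0x18012) (nat_lit 0) pn))))))))))))))))))))) :=
  Cl.node (nat_lit 0x109) (nat_lit 2) (by decide +kernel) (ClAll.succ (ClAll.succ ClAll.zero n159) n160)

def n182 : Cl (O (nat_lit 4)) (R (nat_lit 6353))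
    (p (nat_lit 0x119) (nat_lit 0) (p (nat_lit 0xd1) (nat_lit 0) (p (nat_lit 0x89) (nat_lit 0) (p (nat_lit 0x41) (nat_lit 0) (p (nat_lit 0x108090787089a) (nat_lit 0) (p (nat_lit 0x107888706861a) (nat_lit 0) (p (nat_lit 0x8000000000000070686078a) (nat_lit 0) (p (nat_lit 0x8000000000000068605850a) (nat_lit 0) (p (nat_lit 0x10705850682) (nat_lit 0) (p (nat_lit 0x10685048402) (nat_lit 0) (p (nat_lit 0x16000c) (nat_lit 0) (p (nat_lit 0x160004) (nat_lit 0) (p (nat_lit 0x60592) (nat_lit 0) (p (nat_lit 0x48512) (nat_lit 0) (p (nat_lit 0x50392) (nat_lit 0) (p (nat_lit 0x38312) (nat_lit 0) (p (nat_lit 0x40212) (nat_lit 0) (p (nat_lit 0x28192) (nat_lit 0) (p (nat_lit 0x30092) (nat_lit 0) (p (nat_lit 0x18012) (nat_lit 0) pn)))))))))))))))))))) :=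
  Cl.node (nat_lit 0x101) (nat_lit 2) (by decide +kernel) (ClAll.succ (ClAll.succ ClAll.zero n161) n162)

def n183 : Cl (O (nat_lit 4)) (R (nat_lit 6353))
    (p (nat_lit 0x119) (nat_lit 1) (p (nat_lit 0xd1) (nat_lit 0) (p (nat_lit 0x89) (nat_lit 0) (p (nat_lit 0x41) (nat_lit 0) (p (nat_lit 0x108090787089a) (nat_lit 0) (p (nat_lit 0x107888706861a) (nat_lit 0) (p (nat_lit 0x8000000000000070686078a) (nat_lit 0) (p (nat_lit 0x8000000000000068605850a) (nat_lit 0) (p (nat_lit 0x10705850682) (nat_lit 0) (p (nat_lit 0x10685048402) (nat_lit 0) (p (nat_lit 0x16000c) (nat_lit 0) (p (nat_lit 0x160004) (nat_lit 0) (p (nat_lit 0x60592) (nat_lit 0) (p (nat_lit 0x48512) (nat_lit 0) (p (nat_lit 0x50392) (nat_lit 0) (p (nat_lit 0x38312) (nat_lit 0) (p (nat_lit 0x40212) (nat_lit 0) (p (nat_lit 0x28192) (nat_lit 0) (p (nat_lit 0x30092) (nat_lit 0) (p (nat_lit 0x18012) (nat_lit 0) pn))))))))))))))))))))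 :=
  Cl.node (nat_lit 0xc1) (nat_lit 2) (by decide +kernel) (ClAll.succ (ClAll.succ ClAll.zero n163) n164)

def n184 : Cl (O (nat_lit 4)) (R (nat_lit 6353))
    (p (nat_lit 0x111) (nat_lit 0) (p (nat_lit 0xd1) (nat_lit 1) (p (nat_lit 0x89) (nat_lit 0) (p (nat_lit 0x41) (nat_lit 0) (p (nat_lit 0x108090787089a) (nat_lit 0) (p (nat_lit 0x107888706861a) (nat_lit 0) (p (nat_lit 0x8000000000000070686078a) (nat_lit 0) (p (nat_lit 0x8000000000000068605850a) (nat_lit 0) (p (nat_lit 0x10705850682) (nat_lit 0) (p (nat_lit 0x10685048402) (nat_lit 0) (p (nat_lit 0x16000c) (nat_lit 0) (p (nat_lit 0x160004) (nat_lit 0) (p (nat_lit 0x60592) (nat_lit 0) (p (nat_lit 0x48512) (nat_lit 0) (p (nat_lit 0x50392) (nat_lit 0) (p (nat_lit 0x38312) (nat_lit 0) (p (nat_lit 0x40212) (nat_lit 0) (p (nat_lit 0x28192) (nat_lit 0) (p (nat_lit 0x30092) (nat_lit 0) (p (nat_lit 0x18012) (nat_lit 0) pn))))))))))))))))))))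 :=
  Cl.node (nat_lit 0x101) (nat_lit 2) (by decide +kernel) (ClAll.succ (ClAll.succ ClAll.zero s41) n165)

def n185 : Cl (O (nat_lit 4)) (R (nat_lit 6353))
    (p (nat_lit 0x111) (nat_lit 1) (p (nat_lit 0xd1) (nat_lit 1) (p (nat_lit 0x89) (nat_lit 0) (p (nat_lit 0x41) (nat_lit 0) (p (nat_lit 0x108090787089a) (nat_lit 0) (p (nat_lit 0x107888706861a) (nat_lit 0) (p (nat_lit 0x8000000000000070686078a) (nat_lit 0) (p (nat_lit 0x8000000000000068605850a) (nat_lit 0) (p (nat_lit 0x10705850682) (nat_lit 0) (p (nat_lit 0x10685048402) (nat_lit 0) (p (nat_lit 0x16000c) (nat_lit 0) (p (nat_lit 0x160004) (nat_lit 0) (p (nat_lit 0x60592) (nat_lit 0) (p (nat_lit 0x48512) (nat_lit 0) (p (nat_lit 0x50392) (nat_lit 0) (p (nat_lit 0x38312) (nat_lit 0) (p (nat_lit 0x40212) (nat_lit 0) (p (nat_lit 0x28192) (nat_lit 0) (p (nat_lit 0x30092) (nat_lit 0) (p (nat_lit 0x18012) (nat_lit 0) pn))))))))))))))))))))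 :=
  Cl.node (nat_lit 0x81) (nat_lit 2) (by decide +kernel) (ClAll.succ (ClAll.succ ClAll.zero s52) n166)

def n186 : Cl (O (nat_lit 4)) (R (nat_lit 6353))
    (p (nat_lit 0x119) (nat_lit 0) (p (nat_lit 0xc9) (nat_lit 0) (p (nat_lit 0x89) (nat_lit 1) (p (nat_lit 0x41) (nat_lit 0) (p (nat_lit 0x108090787089a) (nat_lit 0) (p (nat_lit 0x107888706861a) (nat_lit 0) (p (nat_lit 0x8000000000000070686078a) (nat_lit 0) (p (nat_lit 0x8000000000000068605850a) (nat_lit 0) (p (nat_lit 0x10705850682) (nat_lit 0) (p (nat_lit 0x10685048402) (nat_lit 0) (p (nat_lit 0x16000c) (nat_lit 0) (p (nat_lit 0x160004) (nat_lit 0) (p (nat_lit 0x60592) (nat_lit 0) (p (nat_lit 0x48512) (nat_lit 0) (p (nat_lit 0x50392) (nat_lit 0) (p (nat_lit 0x38312) (nat_lit 0) (p (nat_lit 0x40212) (nat_lit 0) (p (nat_lit 0x28192) (nat_lit 0) (p (nat_lit 0x30092) (nat_lit 0) (p (nat_lit 0x18012) (nat_lit 0) pn))))))))))))))))))))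 :=
  Cl.node (nat_lit 0x101) (nat_lit 2) (by decide +kernel) (ClAll.succ (ClAll.succ ClAll.zero n167) n168)

def n187 : Cl (O (nat_lit 4)) (R (nat_lit 6353))
    (p (nat_lit 0x119) (nat_lit 1) (p (nat_lit 0xc9) (nat_lit 0) (p (nat_lit 0x89) (nat_lit 1) (p (nat_lit 0x41) (nat_lit 0) (p (nat_lit 0x108090787089a) (nat_lit 0) (p (nat_lit 0x107888706861a) (nat_lit 0) (p (nat_lit 0x8000000000000070686078a) (nat_lit 0) (p (nat_lit 0x8000000000000068605850a) (nat_lit 0) (p (nat_lit 0x10705850682) (nat_lit 0) (p (nat_lit 0x10685048402) (nat_lit 0) (p (nat_lit 0x16000c) (nat_lit 0) (p (nat_lit 0x160004) (nat_lit 0) (p (nat_lit 0x60592) (nat_lit 0) (p (nat_lit 0x48512) (nat_lit 0) (p (nat_lit 0x50392) (nat_lit 0) (p (nat_lit 0x38312) (nat_lit 0) (p (nat_lit 0x40212) (nat_lit 0) (p (nat_lit 0x28192) (nat_lit 0) (p (nat_lit 0x30092) (nat_lit 0) (p (nat_lit 0x18012) (nat_lit 0) pn))))))))))))))))))))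 :=
  Cl.node (nat_lit 0xc1) (nat_lit 2) (by decide +kernel) (ClAll.succ (ClAll.succ ClAll.zero n169) n170)

def n188 : Cl (O (nat_lit 4)) (R (nat_lit 6353))
    (p (nat_lit 0x119) (nat_lit 0) (p (nat_lit 0xd1) (nat_lit 0) (p (nat_lit 0x81) (nat_lit 0) (p (nat_lit 0x41) (nat_lit 1) (p (nat_lit 0x108090787089a) (nat_lit 0) (p (nat_lit 0x107888706861a) (nat_lit 0) (p (nat_lit 0x8000000000000070686078a) (nat_lit 0) (p (nat_lit 0x8000000000000068605850a) (nat_lit 0) (p (nat_lit 0x10705850682) (nat_lit 0) (p (nat_lit 0x10685048402) (nat_lit 0) (p (nat_lit 0x16000c) (nat_lit 0) (p (nat_lit 0x160004) (nat_lit 0) (p (nat_lit 0x60592) (nat_lit 0) (p (nat_lit 0x48512) (nat_lit 0) (p (nat_lit 0x50392) (nat_lit 0) (p (nat_lit 0x38312) (nat_lit 0) (p (nat_lit 0x40212) (nat_lit 0) (p (nat_lit 0x28192) (nat_lit 0) (p (nat_lit 0x30092) (nat_lit 0) (p (nat_lit 0x18012) (nat_lit 0) pn))))))))))))))))))))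 :=
  Cl.node (nat_lit 0x101) (nat_lit 2) (by decide +kernel) (ClAll.succ (ClAll.succ ClAll.zero n171) n172)

def n189 : Cl (O (nat_lit 4)) (R (nat_lit 6353))
    (p (nat_lit 0x119) (nat_lit 1) (p (nat_lit 0xd1) (nat_lit 0) (p (nat_lit 0x81) (nat_lit 0) (p (nat_lit 0x41) (nat_lit 1) (p (nat_lit 0x108090787089a) (nat_lit 0) (p (nat_lit 0x107888706861a) (nat_lit 0) (p (nat_lit 0x8000000000000070686078a) (nat_lit 0) (p (nat_lit 0x8000000000000068605850a) (nat_lit 0) (p (nat_lit 0x10705850682) (nat_lit 0) (p (nat_lit 0x10685048402) (nat_lit 0) (p (nat_lit 0x16000c) (nat_lit 0) (p (nat_lit 0x160004) (nat_lit 0) (p (nat_lit 0x60592) (nat_lit 0) (p (nat_lit 0x48512) (nat_lit 0) (p (nat_lit 0x50392) (nat_lit 0) (p (nat_lit 0x38312) (nat_lit 0) (p (nat_lit 0x40212) (nat_lit 0) (p (nat_lit 0x28192) (nat_lit 0) (p (nat_lit 0x30092) (nat_lit 0) (p (nat_lit 0x18012) (nat_lit 0) pn))))))))))))))))))))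 :=
  Cl.node (nat_lit 0xc1) (nat_lit 2) (by decide +kernel) (ClAll.succ (ClAll.succ ClAll.zero n173) n174)

def n190 : Cl (O (nat_lit 4)) (R (nat_lit 6353))
    (p (nat_lit 0x111) (nat_lit 0) (p (nat_lit 0xd1) (nat_lit 1) (p (nat_lit 0x81) (nat_lit 0) (p (nat_lit 0x41) (nat_lit 1) (p (nat_lit 0x108090787089a) (nat_lit 0) (p (nat_lit 0x107888706861a) (nat_lit 0) (p (nat_lit 0x8000000000000070686078a) (nat_lit 0) (p (nat_lit 0x8000000000000068605850a) (nat_lit 0) (p (nat_lit 0x10705850682) (nat_lit 0) (p (nat_lit 0x10685048402) (nat_lit 0) (p (nat_lit 0x16000c) (nat_lit 0) (p (nat_lit 0x160004) (nat_lit 0) (p (nat_lit 0x60592) (nat_lit 0) (p (nat_lit 0x48512) (nat_lit 0) (p (nat_lit 0x50392) (nat_lit 0) (p (nat_lit 0x38312) (nat_lit 0) (p (nat_lit 0x40212) (nat_lit 0) (p (nat_lit 0x28192) (nat_lit 0) (p (nat_lit 0x30092) (nat_lit 0) (p (nat_lit 0x18012) (nat_lit 0) pn))))))))))))))))))))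 :=
  Cl.node (nat_lit 0x101) (nat_lit 2) (by decide +kernel) (ClAll.succ (ClAll.succ ClAll.zero n175) n176)

def n191 : Cl (O (nat_lit 4)) (R (nat_lit 6353))
    (p (nat_lit 0x111) (nat_lit 1) (p (nat_lit 0xd1) (nat_lit 1) (p (nat_lit 0x81) (nat_lit 0) (p (nat_lit 0x41) (nat_lit 1) (p (nat_lit 0x108090787089a) (nat_lit 0) (p (nat_lit 0x107888706861a) (nat_lit 0) (p (nat_lit 0x8000000000000070686078a) (nat_lit 0) (p (nat_lit 0x8000000000000068605850a) (nat_lit 0) (p (nat_lit 0x10705850682) (nat_lit 0) (p (nat_lit 0x10685048402) (nat_lit 0) (p (nat_lit 0x16000c) (nat_lit 0) (p (nat_lit 0x160004) (nat_lit 0) (p (nat_lit 0x60592) (nat_lit 0) (p (nat_lit 0x48512) (nat_lit 0) (p (nat_lit 0x50392) (nat_lit 0) (p (nat_lit 0x38312) (nat_lit 0) (p (nat_lit 0x40212) (nat_lit 0) (p (nat_lit 0x28192) (nat_lit 0) (p (nat_lit 0x30092) (nat_lit 0) (p (nat_lit 0x18012) (nat_lit 0) pn))))))))))))))))))))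 :=
  Cl.node (nat_lit 0x89) (nat_lit 2) (by decide +kernel) (ClAll.succ (ClAll.succ ClAll.zero s146) n177)

def n192 : Cl (O (nat_lit 4)) (R (nat_lit 6353))
    (p (nat_lit 0x119) (nat_lit 0) (p (nat_lit 0xc1) (nat_lit 0) (p (nat_lit 0x81) (nat_lit 1) (p (nat_lit 0x41) (nat_lit 1) (p (nat_lit 0x108090787089a) (nat_lit 0) (p (nat_lit 0x107888706861a) (nat_lit 0) (p (nat_lit 0x8000000000000070686078a) (nat_lit 0) (p (nat_lit 0x8000000000000068605850a) (nat_lit 0) (p (nat_lit 0x10705850682) (nat_lit 0) (p (nat_lit 0x10685048402) (nat_lit 0) (p (nat_lit 0x16000c) (nat_lit 0) (p (nat_lit 0x160004) (nat_lit 0) (p (nat_lit 0x60592) (nat_lit 0) (p (nat_lit 0x48512) (nat_lit 0) (p (nat_lit 0x50392) (nat_lit 0) (p (nat_lit 0x38312) (nat_lit 0) (p (nat_lit 0x40212) (nat_lit 0) (p (nat_lit 0x28192) (nat_lit 0) (p (nat_lit 0x30092) (nat_lit 0) (p (nat_lit 0x18012) (nat_lit 0) pn))))))))))))))))))))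 :=
  Cl.node (nat_lit 0x101) (nat_lit 2) (by decide +kernel) (ClAll.succ (ClAll.succ ClAll.zero n178) n179)

def n193 : Cl (O (nat_lit 4)) (R (nat_lit 6353))
    (p (nat_lit 0x119) (nat_lit 1) (p (nat_lit 0xc1) (nat_lit 0) (p (nat_lit 0x81) (nat_lit 1) (p (nat_lit 0x41) (nat_lit 1) (p (nat_lit 0x108090787089a) (nat_lit 0) (p (nat_lit 0x107888706861a) (nat_lit 0) (p (nat_lit 0x8000000000000070686078a) (nat_lit 0) (p (nat_lit 0x8000000000000068605850a) (nat_lit 0) (p (nat_lit 0x10705850682) (nat_lit 0) (p (nat_lit 0x10685048402) (nat_lit 0) (p (nat_lit 0x16000c) (nat_lit 0) (p (nat_lit 0x160004) (nat_lit 0) (p (nat_lit 0x60592) (nat_lit 0) (p (nat_lit 0x48512) (nat_lit 0) (p (nat_lit 0x50392) (nat_lit 0) (p (nat_lit 0x38312) (nat_lit 0) (p (nat_lit 0x40212) (nat_lit 0) (p (nat_lit 0x28192) (nat_lit 0) (p (nat_lit 0x30092) (nat_lit 0) (p (nat_lit 0x18012) (nat_lit 0) pn))))))))))))))))))))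 :=
  Cl.node (nat_lit 0xc9) (nat_lit 2) (by decide +kernel) (ClAll.succ (ClAll.succ ClAll.zero n180) n181)

def n194 : Cl (O (nat_lit 4)) (R (nat_lit 6353))
    (p (nat_lit 0xd1) (nat_lit 0) (p (nat_lit 0x89) (nat_lit 0) (p (nat_lit 0x41) (nat_lit 0) (p (nat_lit 0x108090787089a) (nat_lit 0) (p (nat_lit 0x107888706861a) (nat_lit 0) (p (nat_lit 0x8000000000000070686078a) (nat_lit 0) (p (nat_lit 0x8000000000000068605850a) (nat_lit 0) (p (nat_lit 0x10705850682) (nat_lit 0) (p (nat_lit 0x10685048402) (nat_lit 0) (p (nat_lit 0x16000c) (nat_lit 0) (p (nat_lit 0x160004) (nat_lit 0) (p (nat_lit 0x60592) (nat_lit 0) (p (nat_lit 0x48512) (nat_lit 0) (p (nat_lit 0x50392) (nat_lit 0) (p (nat_lit 0x38312) (nat_lit 0) (p (nat_lit 0x40212) (nat_lit 0) (p (nat_lit 0x28192) (nat_lit 0) (p (nat_lit 0x30092) (nat_lit 0) (p (nat_lit 0x18012) (nat_lit 0) pn))))))))))))))))))) :=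
  Cl.node (nat_lit 0x119) (nat_lit 2) (by decide +kernel) (ClAll.succ (ClAll.succ ClAll.zero n182) n183)

def n195 : Cl (O (nat_lit 4)) (R (nat_lit 6353))
    (p (nat_lit 0xd1) (nat_lit 1) (p (nat_lit 0x89) (nat_lit 0) (p (nat_lit 0x41) (nat_lit 0) (p (nat_lit 0x108090787089a) (nat_lit 0) (p (nat_lit 0x107888706861a) (nat_lit 0) (p (nat_lit 0x8000000000000070686078a) (nat_lit 0) (p (nat_lit 0x8000000000000068605850a) (nat_lit 0) (p (nat_lit 0x10705850682) (nat_lit 0) (p (nat_lit 0x10685048402) (nat_lit 0) (p (nat_lit 0x16000c) (nat_lit 0) (p (nat_lit 0x160004) (nat_lit 0) (p (nat_lit 0x60592) (nat_lit 0) (p (nat_lit 0x48512) (nat_lit 0) (p (nat_lit 0x50392) (nat_lit 0) (p (nat_lit 0x38312) (nat_lit 0) (p (nat_lit 0x40212) (nat_lit 0) (p (nat_lit 0x28192) (nat_lit 0) (p (nat_lit 0x30092) (nat_lit 0) (p (nat_lit 0x18012) (nat_lit 0) pn))))))))))))))))))) :=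
  Cl.node (nat_lit 0x111) (nat_lit 2) (by decide +kernel) (ClAll.succ (ClAll.succ ClAll.zero n184) n185)

def n196 : Cl (O (nat_lit 4)) (R (nat_lit 6353))
    (p (nat_lit 0xc9) (nat_lit 0) (p (nat_lit 0x89) (nat_lit 1) (p (nat_lit 0x41) (nat_lit 0) (p (nat_lit 0x108090787089a) (nat_lit 0) (p (nat_lit 0x107888706861a) (nat_lit 0) (p (nat_lit 0x8000000000000070686078a) (nat_lit 0) (p (nat_lit 0x8000000000000068605850a) (nat_lit 0) (p (nat_lit 0x10705850682) (nat_lit 0) (p (nat_lit 0x10685048402) (nat_lit 0) (p (nat_lit 0x16000c) (nat_lit 0) (p (nat_lit 0x160004) (nat_lit 0) (p (nat_lit 0x60592) (nat_lit 0) (p (nat_lit 0x48512) (nat_lit 0) (p (nat_lit 0x50392) (nat_lit 0) (p (nat_lit 0x38312) (nat_lit 0) (p (nat_lit 0x40212) (nat_lit 0) (p (nat_lit 0x28192) (nat_lit 0) (p (nat_lit 0x30092) (nat_lit 0) (p (nat_lit 0x18012) (nat_lit 0) pn))))))))))))))))))) :=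
  Cl.node (nat_lit 0x119) (nat_lit 2) (by decide +kernel) (ClAll.succ (ClAll.succ ClAll.zero n186) n187)

def n197 : Cl (O (nat_lit 4)) (R (nat_lit 6353))
    (p (nat_lit 0xd1) (nat_lit 0) (p (nat_lit 0x81) (nat_lit 0) (p (nat_lit 0x41) (nat_lit 1) (p (nat_lit 0x108090787089a) (nat_lit 0) (p (nat_lit 0x107888706861a) (nat_lit 0) (p (nat_lit 0x8000000000000070686078a) (nat_lit 0) (p (nat_lit 0x8000000000000068605850a) (nat_lit 0) (p (nat_lit 0x10705850682) (nat_lit 0) (p (nat_lit 0x10685048402) (nat_lit 0) (p (nat_lit 0x16000c) (nat_lit 0) (p (nat_lit 0x160004) (nat_lit 0) (p (nat_lit 0x60592) (nat_lit 0) (p (nat_lit 0x48512) (nat_lit 0) (p (nat_lit 0x50392) (nat_lit 0) (p (nat_lit 0x38312) (nat_lit 0) (p (nat_lit 0x40212) (nat_lit 0) (p (nat_lit 0x28192) (nat_lit 0) (p (nat_lit 0x30092) (nat_lit 0) (p (nat_lit 0x18012) (nat_lit 0) pn))))))))))))))))))) :=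
  Cl.node (nat_lit 0x119) (nat_lit 2) (by decide +kernel) (ClAll.succ (ClAll.succ ClAll.zero n188) n189)

def n198 : Cl (O (nat_lit 4)) (R (nat_lit 6353))
    (p (nat_lit 0xd1) (nat_lit 1) (p (nat_lit 0x81) (nat_lit 0) (p (nat_lit 0x41) (nat_lit 1) (p (nat_lit 0x108090787089a) (nat_lit 0) (p (nat_lit 0x107888706861a) (nat_lit 0) (p (nat_lit 0x8000000000000070686078a) (nat_lit 0) (p (nat_lit 0x8000000000000068605850a) (nat_lit 0) (p (nat_lit 0x10705850682) (nat_lit 0) (p (nat_lit 0x10685048402) (nat_lit 0) (p (nat_lit 0x16000c) (nat_lit 0) (p (nat_lit 0x160004) (nat_lit 0) (p (nat_lit 0x60592) (nat_lit 0) (p (nat_lit 0x48512) (nat_lit 0) (p (nat_lit 0x50392) (nat_lit 0) (p (nat_lit 0x38312) (nat_lit 0) (p (nat_lit 0x40212) (nat_lit 0) (p (nat_lit 0x28192) (nat_lit 0) (p (nat_lit 0x30092) (nat_lit 0) (p (nat_lit 0x18012) (nat_lit 0) pn))))))))))))))))))) :=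
  Cl.node (nat_lit 0x111) (nat_lit 2) (by decide +kernel) (ClAll.succ (ClAll.succ ClAll.zero n190) n191)

def n199 : Cl (O (nat_lit 4)) (R (nat_lit 6353))
    (p (nat_lit 0xc1) (nat_lit 0) (p (nat_lit 0x81) (nat_lit 1) (p (nat_lit 0x41) (nat_lit 1) (p (nat_lit 0x108090787089a) (nat_lit 0) (p (nat_lit 0x107888706861a) (nat_lit 0) (p (nat_lit 0x8000000000000070686078a) (nat_lit 0) (p (nat_lit 0x8000000000000068605850a) (nat_lit 0) (p (nat_lit 0x10705850682) (nat_lit 0) (p (nat_lit 0x10685048402) (nat_lit 0) (p (nat_lit 0x16000c) (nat_lit 0) (p (nat_lit 0x160004) (nat_lit 0) (p (nat_lit 0x60592) (nat_lit 0) (p (nat_lit 0x48512) (nat_lit 0) (p (nat_lit 0x50392) (nat_lit 0) (p (nat_lit 0x38312) (nat_lit 0) (p (nat_lit 0x40212) (nat_lit 0) (p (nat_lit 0x28192) (nat_lit 0) (p (nat_lit 0x30092) (nat_lit 0) (p (nat_lit 0x18012) (nat_lit 0) pn))))))))))))))))))) :=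
  Cl.node (nat_lit 0x119) (nat_lit 2) (by decide +kernel) (ClAll.succ (ClAll.succ ClAll.zero n192) n193)

def n200 : Cl (O (nat_lit 4)) (R (nat_lit 6353))
    (p (nat_lit 0x89) (nat_lit 0) (p (nat_lit 0x41) (nat_lit 0) (p (nat_lit 0x108090787089a) (nat_lit 0) (p (nat_lit 0x107888706861a) (nat_lit 0) (p (nat_lit 0x8000000000000070686078a) (nat_lit 0) (p (nat_lit 0x8000000000000068605850a) (nat_lit 0) (p (nat_lit 0x10705850682) (nat_lit 0) (p (nat_lit 0x10685048402) (nat_lit 0) (p (nat_lit 0x16000c) (nat_lit 0) (p (nat_lit 0x160004) (nat_lit 0) (p (nat_lit 0x60592) (nat_lit 0) (p (nat_lit 0x48512) (nat_lit 0) (p (nat_lit 0x50392) (nat_lit 0) (p (nat_lit 0x38312) (nat_lit 0) (p (nat_lit 0x40212) (nat_lit 0) (p (nat_lit 0x28192) (nat_lit 0) (p (nat_lit 0x30092) (nat_lit 0) (p (nat_lit 0x18012) (nat_lit 0) pn)))))))))))))))))) :=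
  Cl.node (nat_lit 0xd1) (nat_lit 2) (by decide +kernel) (ClAll.succ (ClAll.succ ClAll.zero n194) n195)

def n201 : Cl (O (nat_lit 4)) (R (nat_lit 6353))
    (p (nat_lit 0x89) (nat_lit 1) (p (nat_lit 0x41) (nat_lit 0) (p (nat_lit 0x108090787089a) (nat_lit 0) (p (nat_lit 0x107888706861a) (nat_lit 0) (p (nat_lit 0x8000000000000070686078a) (nat_lit 0) (p (nat_lit 0x8000000000000068605850a) (nat_lit 0) (p (nat_lit 0x10705850682) (nat_lit 0) (p (nat_lit 0x10685048402) (nat_lit 0) (p (nat_lit 0x16000c) (nat_lit 0) (p (nat_lit 0x160004) (nat_lit 0) (p (nat_lit 0x60592) (nat_lit 0) (p (nat_lit 0x48512) (nat_lit 0) (p (nat_lit 0x50392) (nat_lit 0) (p (nat_lit 0x38312) (nat_lit 0) (p (nat_lit 0x40212) (nat_lit 0) (p (nat_lit 0x28192) (nat_lit 0) (p (nat_lit 0x30092) (nat_lit 0) (p (nat_lit 0x18012) (nat_lit 0) pn)))))))))))))))))) :=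
  Cl.node (nat_lit 0xc9) (nat_lit 2) (by decide +kernel) (ClAll.succ (ClAll.succ ClAll.zero n196) s75)

def n202 : Cl (O (nat_lit 4)) (R (nat_lit 6353))
    (p (nat_lit 0x81) (nat_lit 0) (p (nat_lit 0x41) (nat_lit 1) (p (nat_lit 0x108090787089a) (nat_lit 0) (p (nat_lit 0x107888706861a) (nat_lit 0) (p (nat_lit 0x8000000000000070686078a) (nat_lit 0) (p (nat_lit 0x8000000000000068605850a) (nat_lit 0) (p (nat_lit 0x10705850682) (nat_lit 0) (p (nat_lit 0x10685048402) (nat_lit 0) (p (nat_lit 0x16000c) (nat_lit 0) (p (nat_lit 0x160004) (nat_lit 0) (p (nat_lit 0x60592) (nat_lit 0) (p (nat_lit 0x48512) (nat_lit 0) (p (nat_lit 0x50392) (nat_lit 0) (p (nat_lit 0x38312) (nat_lit 0) (p (nat_lit 0x40212) (nat_lit 0) (p (nat_lit 0x28192) (nat_lit 0) (p (nat_lit 0x30092) (nat_lit 0) (p (nat_lit 0x18012) (nat_lit 0) pn)))))))))))))))))) :=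
  Cl.node (nat_lit 0xd1) (nat_lit 2) (by decide +kernel) (ClAll.succ (ClAll.succ ClAll.zero n197) n198)

def n203 : Cl (O (nat_lit 4)) (R (nat_lit 6353))
    (p (nat_lit 0x81) (nat_lit 1) (p (nat_lit 0x41) (nat_lit 1) (p (nat_lit 0x108090787089a) (nat_lit 0) (p (nat_lit 0x107888706861a) (nat_lit 0) (p (nat_lit 0x8000000000000070686078a) (nat_lit 0) (p (nat_lit 0x8000000000000068605850a) (nat_lit 0) (p (nat_lit 0x10705850682) (nat_lit 0) (p (nat_lit 0x10685048402) (nat_lit 0) (p (nat_lit 0x16000c) (nat_lit 0) (p (nat_lit 0x160004) (nat_lit 0) (p (nat_lit 0x60592) (nat_lit 0) (p (nat_lit 0x48512) (nat_lit 0) (p (nat_lit 0x50392) (nat_lit 0) (p (nat_lit 0x38312) (nat_lit 0) (p (nat_lit 0x40212) (nat_lit 0) (p (nat_lit 0x28192) (nat_lit 0) (p (nat_lit 0x30092) (nat_lit 0) (p (nat_lit 0x18012) (nat_lit 0) pn)))))))))))))))))) :=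
  Cl.node (nat_lit 0xc1) (nat_lit 2) (by decide +kernel) (ClAll.succ (ClAll.succ ClAll.zero n199) s171)

def n204 : Cl (O (nat_lit 4)) (R (nat_lit 6353))
    (p (nat_lit 0x41) (nat_lit 0) (p (nat_lit 0x108090787089a) (nat_lit 0) (p (nat_lit 0x107888706861a) (nat_lit 0) (p (nat_lit 0x8000000000000070686078a) (nat_lit 0) (p (nat_lit 0x8000000000000068605850a) (nat_lit 0) (p (nat_lit 0x10705850682) (nat_lit 0) (p (nat_lit 0x10685048402) (nat_lit 0) (p (nat_lit 0x16000c) (nat_lit 0) (p (nat_lit 0x160004) (nat_lit 0) (p (nat_lit 0x60592) (nat_lit 0) (p (nat_lit 0x48512) (nat_lit 0) (p (nat_lit 0x50392) (nat_lit 0) (p (nat_lit 0x38312) (nat_lit 0) (p (nat_lit 0x40212) (nat_lit 0) (p (nat_lit 0x28192) (nat_lit 0) (p (nat_lit 0x30092) (nat_lit 0) (p (nat_lit 0x18012) (nat_lit 0) pn))))))))))))))))) :=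
  Cl.node (nat_lit 0x89) (nat_lit 2) (by decide +kernel) (ClAll.succ (ClAll.succ ClAll.zero n200) n201)

def n205 : Cl (O (nat_lit 4)) (R (nat_lit 6353))
    (p (nat_lit 0x41) (nat_lit 1) (p (nat_lit 0x108090787089a) (nat_lit 0) (p (nat_lit 0x107888706861a) (nat_lit 0) (p (nat_lit 0x8000000000000070686078a) (nat_lit 0) (p (nat_lit 0x8000000000000068605850a) (nat_lit 0) (p (nat_lit 0x10705850682) (nat_lit 0) (p (nat_lit 0x10685048402) (nat_lit 0) (p (nat_lit 0x16000c) (nat_lit 0) (p (nat_lit 0x160004) (nat_lit 0) (p (nat_lit 0x60592) (nat_lit 0) (p (nat_lit 0x48512) (nat_lit 0) (p (nat_lit 0x50392) (nat_lit 0) (p (nat_lit 0x38312) (nat_lit 0) (p (nat_lit 0x40212) (nat_lit 0) (p (nat_lit 0x28192) (nat_lit 0) (p (nat_lit 0x30092) (nat_lit 0) (p (nat_lit 0x18012) (nat_lit 0) pn))))))))))))))))) :=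
  Cl.node (nat_lit 0x81) (nat_lit 2) (by decide +kernel) (ClAll.succ (ClAll.succ ClAll.zero n202) n203)

def n206 : Cl (O (nat_lit 4)) (R (nat_lit 6353))
    (p (nat_lit 0x108090787089a) (nat_lit 0) (p (nat_lit 0x107888706861a) (nat_lit 0) (p (nat_lit 0x8000000000000070686078a) (nat_lit 0) (p (nat_lit 0x8000000000000068605850a) (nat_lit 0) (p (nat_lit 0x10705850682) (nat_lit 0) (p (nat_lit 0x10685048402) (nat_lit 0) (p (nat_lit 0x16000c) (nat_lit 0) (p (nat_lit 0x160004) (nat_lit 0) (p (nat_lit 0x60592) (nat_lit 0) (p (nat_lit 0x48512) (nat_lit 0) (p (nat_lit 0x50392) (nat_lit 0) (p (nat_lit 0x38312) (nat_lit 0) (p (nat_lit 0x40212) (nat_lit 0) (p (nat_lit 0x28192) (nat_lit 0) (p (nat_lit 0x30092) (nat_lit 0) (p (nat_lit 0x18012) (nat_lit 0) pn)))))))))))))))) :=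
  Cl.node (nat_lit 0x41) (nat_lit 2) (by decide +kernel) (ClAll.succ (ClAll.succ ClAll.zero n204) n205)

def n207 : Cl (O (nat_lit 4)) (R (nat_lit 6353))
    (p (nat_lit 0x107888706861a) (nat_lit 0) (p (nat_lit 0x8000000000000070686078a) (nat_lit 0) (p (nat_lit 0x8000000000000068605850a) (nat_lit 0) (p (nat_lit 0x10705850682) (nat_lit 0) (p (nat_lit 0x10685048402) (nat_lit 0) (p (nat_lit 0x16000c) (nat_lit 0) (p (nat_lit 0x160004) (nat_lit 0) (p (nat_lit 0x60592) (nat_lit 0) (p (nat_lit 0x48512) (nat_lit 0) (p (nat_lit 0x50392) (nat_lit 0) (p (nat_lit 0x38312) (nat_lit 0) (p (nat_lit 0x40212) (nat_lit 0) (p (nat_lit 0x28192) (nat_lit 0) (p (nat_lit 0x30092) (nat_lit 0) (p (nat_lit 0x18012) (nat_lit 0) pn))))))))))))))) :=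
  Cl.node (nat_lit 0x108090787089a) (nat_lit 1) (by decide +kernel) (ClAll.succ ClAll.zero n206)

def n208 : Cl (O (nat_lit 4)) (R (nat_lit 6353))
    (p (nat_lit 0x8000000000000070686078a) (nat_lit 0) (p (nat_lit 0x8000000000000068605850a) (nat_lit 0) (p (nat_lit 0x10705850682) (nat_lit 0) (p (nat_lit 0x10685048402) (nat_lit 0) (p (nat_lit 0x16000c) (nat_lit 0) (p (nat_lit 0x160004) (nat_lit 0) (p (nat_lit 0x60592) (nat_lit 0) (p (nat_lit 0x48512) (nat_lit 0) (p (nat_lit 0x50392) (nat_lit 0) (p (nat_lit 0x38312) (nat_lit 0) (p (nat_lit 0x40212) (nat_lit 0) (p (nat_lit 0x28192) (nat_lit 0) (p (nat_lit 0x30092) (nat_lit 0) (p (nat_lit 0x18012) (nat_lit 0) pn)))))))))))))) :=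
  Cl.node (nat_lit 0x107888706861a) (nat_lit 1) (by decide +kernel) (ClAll.succ ClAll.zero n207)

def n209 : Cl (O (nat_lit 4)) (R (nat_lit 6353))
    (p (nat_lit 0x8000000000000068605850a) (nat_lit 0) (p (nat_lit 0x10705850682) (nat_lit 0) (p (nat_lit 0x10685048402) (nat_lit 0) (p (nat_lit 0x16000c) (nat_lit 0) (p (nat_lit 0x160004) (nat_lit 0) (p (nat_lit 0x60592) (nat_lit 0) (p (nat_lit 0x48512) (nat_lit 0) (p (nat_lit 0x50392) (nat_lit 0) (p (nat_lit 0x38312) (nat_lit 0) (p (nat_lit 0x40212) (nat_lit 0) (p (nat_lit 0x28192) (nat_lit 0) (p (nat_lit 0x30092) (nat_lit 0) (p (nat_lit 0x18012) (nat_lit 0) pn))))))))))))) :=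
  Cl.node (nat_lit 0x8000000000000070686078a) (nat_lit 1) (by decide +kernel) (ClAll.succ ClAll.zero n208)

def n210 : Cl (O (nat_lit 4)) (R (nat_lit 6353))
    (p (nat_lit 0x10705850682) (nat_lit 0) (p (nat_lit 0x10685048402) (nat_lit 0) (p (nat_lit 0x16000c) (nat_lit 0) (p (nat_lit 0x160004) (nat_lit 0) (p (nat_lit 0x60592) (nat_lit 0) (p (nat_lit 0x48512) (nat_lit 0) (p (nat_lit 0x50392) (nat_lit 0) (p (nat_lit 0x38312) (nat_lit 0) (p (nat_lit 0x40212) (nat_lit 0) (p (nat_lit 0x28192) (nat_lit 0) (p (nat_lit 0x30092) (nat_lit 0) (p (nat_lit 0x18012) (nat_lit 0) pn)))))))))))) :=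
  Cl.node (nat_lit 0x8000000000000068605850a) (nat_lit 1) (by decide +kernel) (ClAll.succ ClAll.zero n209)

def n211 : Cl (O (nat_lit 4)) (R (nat_lit 6353))
    (p (nat_lit 0x10685048402) (nat_lit 0) (p (nat_lit 0x16000c) (nat_lit 0) (p (nat_lit 0x160004) (nat_lit 0) (p (nat_lit 0x60592) (nat_lit 0) (p (nat_lit 0x48512) (nat_lit 0) (p (nat_lit 0x50392) (nat_lit 0) (p (nat_lit 0x38312) (nat_lit 0) (p (nat_lit 0x40212) (nat_lit 0) (p (nat_lit 0x28192) (nat_lit 0) (p (nat_lit 0x30092) (nat_lit 0) (p (nat_lit 0x18012) (nat_lit 0) pn))))))))))) :=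
  Cl.node (nat_lit 0x10705850682) (nat_lit 1) (by decide +kernel) (ClAll.succ ClAll.zero n210)

def n212 : Cl (O (nat_lit 4)) (R (nat_lit 6353))
    (p (nat_lit 0x16000c) (nat_lit 0) (p (nat_lit 0x160004) (nat_lit 0) (p (nat_lit 0x60592) (nat_lit 0) (p (nat_lit 0x48512) (nat_lit 0) (p (nat_lit 0x50392) (nat_lit 0) (p (nat_lit 0x38312) (nat_lit 0) (p (nat_lit 0x40212) (nat_lit 0) (p (nat_lit 0x28192) (nat_lit 0) (p (nat_lit 0x30092) (nat_lit 0) (p (nat_lit 0x18012) (nat_lit 0) pn)))))))))) :=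
  Cl.node (nat_lit 0x10685048402) (nat_lit 1) (by decide +kernel) (ClAll.succ ClAll.zero n211)

def n213 : Cl (O (nat_lit 4)) (R (nat_lit 6353))
    (p (nat_lit 0x160004) (nat_lit 0) (p (nat_lit 0x60592) (nat_lit 0) (p (nat_lit 0x48512) (nat_lit 0) (p (nat_lit 0x50392) (nat_lit 0) (p (nat_lit 0x38312) (nat_lit 0) (p (nat_lit 0x40212) (nat_lit 0) (p (nat_lit 0x28192) (nat_lit 0) (p (nat_lit 0x30092) (nat_lit 0) (p (nat_lit 0x18012) (nat_lit 0) pn))))))))) :=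
  Cl.node (nat_lit 0x16000c) (nat_lit 2) (by decide +kernel) (ClAll.succ (ClAll.succ ClAll.zero n212) s172)

def n214 : Cl (O (nat_lit 4)) (R (nat_lit 6353))
    (p (nat_lit 0x60592) (nat_lit 0) (p (nat_lit 0x48512) (nat_lit 0) (p (nat_lit 0x50392) (nat_lit 0) (p (nat_lit 0x38312) (nat_lit 0) (p (nat_lit 0x40212) (nat_lit 0) (p (nat_lit 0x28192) (nat_lit 0) (p (nat_lit 0x30092) (nat_lit 0) (p (nat_lit 0x18012) (nat_lit 0) pn)))))))) :=
  Cl.node (nat_lit 0x160004) (nat_lit 2) (by decide +kernel) (ClAll.succ (ClAll.succ ClAll.zero n213) s173)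

def n215 : Cl (O (nat_lit 4)) (R (nat_lit 6353))
    (p (nat_lit 0x48512) (nat_lit 0) (p (nat_lit 0x50392) (nat_lit 0) (p (nat_lit 0x38312) (nat_lit 0) (p (nat_lit 0x40212) (nat_lit 0) (p (nat_lit 0x28192) (nat_lit 0) (p (nat_lit 0x30092) (nat_lit 0) (p (nat_lit 0x18012) (nat_lit 0) pn))))))) :=
  Cl.node (nat_lit 0x60592) (nat_lit 1) (by decide +kernel) (ClAll.succ ClAll.zero n214)

def n216 : Cl (O (nat_lit 4)) (R (nat_lit 6353))
    (p (nat_lit 0x50392) (nat_lit 0) (p (nat_lit 0x38312) (nat_lit 0) (p (nat_lit 0x40212) (nat_lit 0) (p (nat_lit 0x28192) (nat_lit 0) (p (nat_lit 0x30092) (nat_lit 0) (p (nat_lit 0x18012) (nat_lit 0) pn)))))) :=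
  Cl.node (nat_lit 0x48512) (nat_lit 1) (by decide +kernel) (ClAll.succ ClAll.zero n215)

def n217 : Cl (O (nat_lit 4)) (R (nat_lit 6353))
    (p (nat_lit 0x38312) (nat_lit 0) (p (nat_lit 0x40212) (nat_lit 0) (p (nat_lit 0x28192) (nat_lit 0) (p (nat_lit 0x30092) (nat_lit 0) (p (nat_lit 0x18012) (nat_lit 0) pn))))) :=
  Cl.node (nat_lit 0x50392) (nat_lit 1) (by decide +kernel) (ClAll.succ ClAll.zero n216)

def n218 : Cl (O (nat_lit 4)) (R (nat_lit 6353))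
    (p (nat_lit 0x40212) (nat_lit 0) (p (nat_lit 0x28192) (nat_lit 0) (p (nat_lit 0x30092) (nat_lit 0) (p (nat_lit 0x18012) (nat_lit 0) pn)))) :=
  Cl.node (nat_lit 0x38312) (nat_lit 1) (by decide +kernel) (ClAll.succ ClAll.zero n217)

def n219 : Cl (O (nat_lit 4)) (R (nat_lit 6353))
    (p (nat_lit 0x28192) (nat_lit 0) (p (nat_lit 0x30092) (nat_lit 0) (p (nat_lit 0x18012) (nat_lit 0) pn))) :=
  Cl.node (nat_lit 0x40212) (nat_lit 1) (by decide +kernel) (ClAll.succ ClAll.zero n218)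

def n220 : Cl (O (nat_lit 4)) (R (nat_lit 6353))
    (p (nat_lit 0x30092) (nat_lit 0) (p (nat_lit 0x18012) (nat_lit 0) pn)) :=
  Cl.node (nat_lit 0x28192) (nat_lit 1) (by decide +kernel) (ClAll.succ ClAll.zero n219)

def n221 : Cl (O (nat_lit 4)) (R (nat_lit 6353))
    (p (nat_lit 0x18012) (nat_lit 0) pn) :=
  Cl.node (nat_lit 0x30092) (nat_lit 1) (by decide +kernel) (ClAll.succ ClAll.zero n220)

def n222 : Cl (O (nat_lit 4)) (R (nat_lit 6353))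
    pn :=
  Cl.node (nat_lit 0x18012) (nat_lit 1) (by decide +kernel) (ClAll.succ ClAll.zero n221)

theorem top : Cl (O (nat_lit 4)) (R (nat_lit 6353)) pn := n222

end Pool.Agent.Gen.F5.X123D1Cm4
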